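import Mathlib

/-!
# Trees given by a parent function
-/

set_option autoImplicit false

namespace Pool.Agent.V11323.ParTree

variable {V : Type} (par : V → V)

/-- the graph joining each vertex to its parent -/
def pg : SimpleGraph V := SimpleGraph.fromRel (fun u v => par u = v)

lemma pg_adj (u v : V) : (pg par).Adj u v ↔ u ≠ v ∧ (par u = v ∨ par v = u) := by
  simp [pg]

variable {par} {dep : V → ℕ} {o : V} (h0 : par o = o) (hd0 : dep o = 0)
  (h1 : ∀ v, v ≠ o → dep (par v) + 1 = dep v)

include h0 h1 in
lemma adj_dep {u v : V} (h : (pg par).Adj u v) :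
    (par u = v ∧ dep u = dep v + 1) ∨ (par v = u ∧ dep v = dep u + 1) := by
  rw [pg_adj] at h
  obtain ⟨hne, h | h⟩ := h
  · left
    refine ⟨h, ?_⟩
    have : u ≠ o := by rintro rfl; rw [h0] at h; exact hne h
    rw [← h1 u this, h]
  · right
    refine ⟨h, ?_⟩
    have : v ≠ o := by rintro rfl; rw [h0] at h; exact hne h.symm
    rw [← h1 v this, h]

include h1 in
lemma adj_par {v : V} (h : v ≠ o) : (pg par).Adj v (par v) := by
  rw [pg_adj]
  refine ⟨?_, Or.inl rfl⟩
  intro h2
  have h3 := h1 v h
  rw [← h2] at h3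
  omega

include hd0 h1 in
lemma exists_walk (n : ℕ) : ∀ v, dep v = n → ∃ p : (pg par).Walk o v, p.length = n := by
  induction n with
  | zero =>
    intro v hv
    have : v = o := by
      by_contra h
      have := h1 v h
      omega
    subst this
    exact ⟨SimpleGraph.Walk.nil, rfl⟩
  | succ n ih =>
    intro v hv
    have hvo : v ≠ o := by rintro rfl; omega
    obtain ⟨p, hp⟩ := ih (par v) (by have := h1 v hvo; omega)
    refine ⟨p.concat (adj_par h1 hvo).symm, ?_⟩
    rw [SimpleGraph.Walk.length_concat, hp]

include h0 h1 in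
lemma dep_le_length {u v : V} (p : (pg par).Walk u v) : dep v ≤ dep u + p.length := by
  induction p with
  | nil => simp
  | cons h p ih =>
    rw [SimpleGraph.Walk.length_cons]
    rcases adj_dep h0 h1 h with ⟨_, h2⟩ | ⟨_, h2⟩ <;> omega

include h0 hd0 h1 in
lemma dist_eq (v : V) : (pg par).dist o v = dep v := by
  obtain ⟨p, hp⟩ := exists_walk hd0 h1 (dep v) v rfl
  refine le_antisymm ?_ ?_
  · rw [← hp]; exact SimpleGraph.dist_le p
  · obtain ⟨q, hq⟩ := (SimpleGraph.Walk.reachable p).exists_walk_length_eq_dist
    rw [← hq]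
    have := dep_le_length h0 h1 q
    omega

include hd0 h1 in
lemma preconnected : (pg par).Preconnected := by
  intro u v
  obtain ⟨p, _⟩ := exists_walk hd0 h1 (dep u) u rfl
  obtain ⟨q, _⟩ := exists_walk hd0 h1 (dep v) v rfl
  exact p.reachable.symm.trans q.reachable

include h0 h1 in
lemma not_reachable {v : V} (hv : v ≠ o) :
    ¬ ((pg par).deleteEdges {s(v, par v)}).Reachable v (par v) := by
  rintro ⟨p⟩
  have key : ∀ {x y : V} (p : ((pg par).deleteEdges {s(v, par v)}).Walk x y),
      (∃ k, par^[k] x = v) → ∃ k, par^[k] y = v := by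
    intro x y p
    induction p with
    | nil => exact id
    | cons h p ih =>
      rename_i a b c
      rintro ⟨k, hk⟩
      apply ih
      rw [SimpleGraph.deleteEdges_adj] at h
      obtain ⟨h2, h3⟩ := h
      rcases adj_dep h0 h1 h2 with ⟨h4, _⟩ | ⟨h4, _⟩
      · rcases k with _ | k
        · exfalso
          simp only [Function.iterate_zero, id_eq] at hk
          subst hk
          apply h3
          rw [h4]; rfl
        · refine ⟨k, ?_⟩
          rw [Function.iterate_succ_apply, h4] at hk
          exact hk
      · refine ⟨k + 1, ?_⟩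
        rw [Function.iterate_succ_apply, h4]
        exact hk
  obtain ⟨k, hk⟩ := key p ⟨0, rfl⟩
  have hdep : ∀ k (x : V), dep (par^[k] x) ≤ dep x := by
    intro k
    induction k with
    | zero => intro x; simp
    | succ k ih =>
      intro x
      rw [Function.iterate_succ_apply]
      refine (ih (par x)).trans ?_
      by_cases hx : x = o
      · rw [hx, h0]
      · have := h1 x hx; omega
  have h5 := hdep k (par v)
  rw [hk] at h5
  have := h1 v hv
  omega

include h0 hd0 h1 in
theorem isTree : (pg par).IsTree := by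
  refine ⟨?_, ?_⟩
  · haveI : Nonempty V := ⟨o⟩
    exact ⟨preconnected hd0 h1⟩
  · rw [SimpleGraph.isAcyclic_iff_forall_adj_isBridge]
    intro u v huv
    rcases adj_dep h0 h1 huv with ⟨h2, h3⟩ | ⟨h2, h3⟩
    · have hu : u ≠ o := by rintro rfl; omega
      rw [SimpleGraph.isBridge_iff, ← h2]
      exact not_reachable h0 h1 hu
    · have hv : v ≠ o := by rintro rfl; omega
      rw [Sym2.eq_swap, SimpleGraph.isBridge_iff, ← h2]
      exact not_reachable h0 h1 hv

end Pool.Agent.V11323.ParTree
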