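import Pool.Agent.H582AR.Gen

/-!
# Heavy-tailed random walks which are not algebraically recurrent

Let `A` be a group with elements `s 0, s 1, ...` and homomorphisms `c 0, c 1, ...` to the infinite
cyclic group with `c i (s j)` equal to the generator for `i = j` and trivial for `i ≠ j`. A walk
whose steps are `s k` or its inverse, with `k` of heavy tail, has with its records eventually
attained exactly once; so for a random choice of signs `ε` the walk eventually stays in the proper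
subsemigroup of all elements whose last non-trivial coordinate has the sign prescribed by `ε`.
-/

set_option autoImplicit false

open MeasureTheory Filter Topology

namespace Pool.Agent.V11323

open Pool.Agent.H582AR.Gen

/-- partial products -/
def X {A : Type} [Group A] (ω : ℕ → A) (k : ℕ) : A := ((List.range k).map ω).prod

lemma X_zero {A : Type} [Group A] (ω : ℕ → A) : X ω 0 = 1 := rfl

lemma X_succ {A : Type} [Group A] (ω : ℕ → A) (k : ℕ) : X ω (k + 1) = X ω k * ω k := by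
  simp [X, List.range_succ]

section det

variable {A : Type} [Group A] (s : ℕ → A) (c : ℕ → A →* Multiplicative ℤ)

/-- the elements of level `i` -/
def L (i : ℕ) : Set A := {g | g = s i ∨ g = (s i)⁻¹}

/-- the elements of level less than `d` -/
def H (d : ℕ) : Set A := {g | ∃ i < d, g ∈ L s i}

lemma L_sub_H (i d : ℕ) (h : i < d) : ∀ g ∈ L s i, g ∈ H s d := fun _ hg => ⟨i, h, hg⟩

lemma H_mono {d e : ℕ} (h : d ≤ e) {g : A} (hg : g ∈ H s d) : g ∈ H s e := by
  obtain ⟨i, hi, hg⟩ := hg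
  exact ⟨i, by omega, hg⟩

/-- level `i` is used at least twice before any higher level is used -/
def Bad (i : ℕ) : Set (ℕ → A) := {ω | ∃ j m, (∀ l < j, ω l ∈ H s i) ∧ ω j ∈ L s i ∧
        (∀ l < m, ω (j + 1 + l) ∈ H s i) ∧ ω (j + 1 + m) ∈ L s i}

lemma exists_level (ω : ℕ → A) (hT : ∀ j, ∃ i, ω j ∈ L s i) (k : ℕ) :
    ∃ d, ∀ j < k, ω j ∈ H s (d + 1) := by
  induction k with
  | zero => exact ⟨0, fun j hj => by omega⟩
  | succ k ih =>
    obtain ⟨d, hd⟩ := ih
    obtain ⟨e, he⟩ := hT k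
    refine ⟨max d e, fun j hj => ?_⟩
    rcases Nat.lt_succ_iff_lt_or_eq.1 hj with h | h
    · exact H_mono s (by omega) (hd j h)
    · subst h; exact L_sub_H s e _ (by omega) _ he

variable (h1 : ∀ i, c i (s i) = Multiplicative.ofAdd 1) (h0 : ∀ i j, i ≠ j → c i (s j) = 1)

include h1 in
lemma c_L {i : ℕ} {g : A} (h : g ∈ L s i) :
    Multiplicative.toAdd (c i g) * Multiplicative.toAdd (c i g) = 1 := by
  rcases h with h | h
  · rw [h, h1]; rfl
  · rw [h, map_inv, h1]; rfl

include h0 in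
lemma c_L_ne {i j : ℕ} (hij : i ≠ j) {g : A} (h : g ∈ L s j) : c i g = 1 := by
  rcases h with h | h
  · rw [h, h0 i j hij]
  · rw [h, map_inv, h0 i j hij, inv_one]

include h0 in
lemma c_H {i d : ℕ} (hij : d ≤ i) {g : A} (h : g ∈ H s d) : c i g = 1 := by
  obtain ⟨j, hj, hg⟩ := h
  exact c_L_ne s c h0 (by omega) hg

include h1 h0 in
lemma L_disj (i j : ℕ) (g : A) (hi : g ∈ L s i) (hj : g ∈ L s j) : i = j := by
  by_contra hne
  have a := c_L s c h1 hi
  rw [c_L_ne s c h0 hne hj] at a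
  simp at a

include h1 h0 in
lemma L_not_H (i d : ℕ) (h : d ≤ i) : ∀ g ∈ L s i, g ∉ H s d := by
  rintro g hg ⟨j, hj, hgj⟩
  have := L_disj s c h1 h0 i j g hg hgj
  omega

include h1 h0 in
lemma level_eq (ω : ℕ → A) (hT : ∀ j, ∃ i, ω j ∈ L s i) (i j : ℕ) (h2 : ω j ∉ H s i)
    (h3 : ω j ∈ H s (i + 1)) : ω j ∈ L s i := by
  obtain ⟨i', hi'⟩ := hT j
  have h4 : i ≤ i' := by
    by_contra hlt
    exact h2 (L_sub_H s i' i (by omega) _ hi')
  have h5 : i' ≤ i := by
    by_contra hlt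
    exact L_not_H s c h1 h0 i' (i + 1) (by omega) _ hi' h3
  rwa [le_antisymm h4 h5]

/-- the elements whose last non-trivial coordinate has the sign prescribed by `ε` -/
def Pe (ε : ℕ → ℤ) : Subsemigroup A where
  carrier := {g | ∃ i, (∀ j, i < j → c j g = 1) ∧ 0 < ε i * Multiplicative.toAdd (c i g)}
  mul_mem' := by
    rintro a b ⟨i, hi1, hi2⟩ ⟨j, hj1, hj2⟩
    rcases lt_trichotomy i j with h | h | h
    · refine ⟨j, fun k hk => ?_, ?_⟩
      · rw [map_mul, hi1 k (by omega), hj1 k hk, one_mul]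
      · rw [map_mul, hi1 j h, one_mul]; exact hj2
    · subst h
      refine ⟨i, fun k hk => ?_, ?_⟩
      · rw [map_mul, hi1 k hk, hj1 k hk, one_mul]
      · rw [map_mul, toAdd_mul, mul_add]; linarith
    · refine ⟨i, fun k hk => ?_, ?_⟩
      · rw [map_mul, hi1 k hk, hj1 k (by omega), one_mul]
      · rw [map_mul, hj1 i h, mul_one]; exact hi2

lemma one_notMem_Pe (ε : ℕ → ℤ) : (1 : A) ∉ Pe c ε := by
  rintro ⟨i, _, hi⟩
  simp at hi

lemma c_X_eq (i : ℕ) (ω : ℕ → A) (k : ℕ) (h : ∀ l < k, c i (ω l) = 1) : c i (X ω k) = 1 := by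
  induction k with
  | zero => rw [X_zero, map_one]
  | succ k ih =>
    rw [X_succ, map_mul, h k (Nat.lt_succ_self k), mul_one]
    exact ih fun l hl => h l (by omega)

lemma c_X_one (i : ℕ) (ω : ℕ → A) (j k : ℕ) (hjk : j < k) (h : ∀ l < k, l ≠ j → c i (ω l) = 1) :
    c i (X ω k) = c i (ω j) := by
  induction k with
  | zero => omega
  | succ k ih =>
    rw [X_succ, map_mul]
    by_cases hk : j = k
    · subst hk
      rw [c_X_eq c i ω j fun l hl => h l (by omega) (by omega), one_mul]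
    · rw [h k (by omega) (by omega), mul_one]
      exact ih (by omega) fun l hl => h l (by omega)

include h1 h0 in
/-- The deterministic part: the walk stays in a proper semigroup. -/
lemma nar_det (ω : ℕ → A) (hT : ∀ j, ∃ i, ω j ∈ L s i) (i0 n : ℕ) (hi0 : 1 ≤ i0)
    (hbad : ∀ i, i0 ≤ i → ω ∉ Bad s i) (hn : ∃ j < n, ω j ∉ H s i0) :
    ∃ ε : ℕ → ℤ, ∀ k, n ≤ k → X ω k ∈ Pe c ε := by
  classical
  let ε : ℕ → ℤ := fun i => if h : ∃ j, ω j ∉ H s i then
    Multiplicative.toAdd (c i (ω (Nat.find h))) else 0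
  refine ⟨ε, ?_⟩
  intro k hk
  obtain ⟨j0, hj0, hj0H⟩ := hn
  have hex := exists_level s ω hT k
  set i := Nat.find hex with hi
  have hi1 : ∀ j < k, ω j ∈ H s (i + 1) := Nat.find_spec hex
  have hii0 : i0 ≤ i := by
    by_contra hlt
    exact hj0H (H_mono s (by omega) (hi1 j0 (by omega)))
  have hex3 : ∃ j < k, ω j ∉ H s i := by
    have := Nat.find_min hex (m := i - 1) (by omega)
    push Not at this
    obtain ⟨j, hj, hjH⟩ := this
    rw [show i - 1 + 1 = i by omega] at hjH
    exact ⟨j, hj, hjH⟩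
  have hex2 : ∃ j, ω j ∉ H s i := by
    obtain ⟨j, _, hj⟩ := hex3
    exact ⟨j, hj⟩
  have hbi : ε i = Multiplicative.toAdd (c i (ω (Nat.find hex2))) := dif_pos hex2
  set j := Nat.find hex2 with hj
  have hjH : ω j ∉ H s i := Nat.find_spec hex2
  have hjk : j < k := by
    obtain ⟨j', hj', hj'H⟩ := hex3
    exact lt_of_le_of_lt (Nat.find_min' hex2 hj'H) hj'
  have hjl : ∀ l < j, ω l ∈ H s i := fun l hl => by
    by_contra h
    exact Nat.find_min hex2 hl h
  have hjL : ω j ∈ L s i := level_eq s c h1 h0 ω hT i j hjH (hi1 j hjk)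
  have hafter : ∀ m, j + 1 + m < k → ω (j + 1 + m) ∈ H s i := by
    by_contra hcon
    push Not at hcon
    let m := Nat.find hcon
    have hm : j + 1 + m < k ∧ ω (j + 1 + m) ∉ H s i := Nat.find_spec hcon
    have hml : ∀ l < m, ω (j + 1 + l) ∈ H s i := fun l hl => by
      have := Nat.find_min hcon hl
      push Not at this
      exact this (by omega)
    exact hbad i hii0 ⟨j, m, hjl, hjL, hml, level_eq s c h1 h0 ω hT i _ hm.2 (hi1 _ hm.1)⟩
  have hother : ∀ l < k, l ≠ j → ω l ∈ H s i := by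
    intro l hl hne
    rcases lt_or_gt_of_ne hne with h | h
    · exact hjl l h
    · have := hafter (l - (j + 1)) (by omega)
      rwa [show j + 1 + (l - (j + 1)) = l by omega] at this
  refine ⟨i, fun m hm => ?_, ?_⟩
  · exact c_X_eq c m ω k fun l hl => c_H s c h0 (by omega) (hi1 l hl)
  · rw [c_X_one c i ω j k hjk fun l hl hne => c_H s c h0 le_rfl (hother l hl hne), hbi,
      c_L s c h1 hjL]
    exact one_pos

end det

section prob

variable {A : Type} [Group A] (s : ℕ → A) (c : ℕ → A →* Multiplicative ℤ)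
variable (h1 : ∀ i, c i (s i) = Multiplicative.ofAdd 1) (h0 : ∀ i j, i ≠ j → c i (s j) = 1)

open Classical in
/-- the two elements of level `i` -/
noncomputable def F (i : ℕ) : Finset A := {s i, (s i)⁻¹}

lemma mem_F (i : ℕ) (g : A) : g ∈ F s i ↔ g = s i ∨ g = (s i)⁻¹ := by
  simp [F]

lemma F_nonempty (i : ℕ) : (F s i).Nonempty := ⟨s i, by simp [mem_F]⟩

lemma inv_mem_F (i : ℕ) (g : A) : g⁻¹ ∈ F s i ↔ g ∈ F s i := by
  rw [mem_F, mem_F]
  constructor
  · rintro (h | h)
    · right; rw [← h, inv_inv]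
    · left; exact inv_injective h
  · rintro (h | h)
    · right; rw [h]
    · left; rw [h, inv_inv]

lemma F_sub_L (i : ℕ) : ∀ g ∈ F s i, g ∈ L s i := by
  intro g hg
  rw [mem_F] at hg
  exact hg

/-- the law of the steps -/
noncomputable def nu : PMF A :=
  (tailPMF W2 W2_zero W2_anti W2_lim).bind fun i => PMF.uniformOfFinset (F s i) (F_nonempty s i)

lemma nu_symm (g : A) : nu s g⁻¹ = nu s g := by
  unfold nu
  rw [PMF.bind_apply, PMF.bind_apply]
  apply tsum_congr
  intro i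
  congr 1
  rw [PMF.uniformOfFinset_apply, PMF.uniformOfFinset_apply]
  by_cases h : g ∈ F s i
  · rw [if_pos h, if_pos ((inv_mem_F s i g).2 h)]
  · rw [if_neg h, if_neg fun hh => h ((inv_mem_F s i g).1 hh)]

lemma nu_support : (nu s).support = ⋃ i, (F s i : Set A) := by
  unfold nu
  rw [PMF.support_bind]
  have : (tailPMF W2 W2_zero W2_anti W2_lim).support = Set.univ := by
    ext k
    rw [PMF.mem_support_iff, tailPMF_apply]
    simp only [Set.mem_univ, iff_true]
    exact (ENNReal.ofReal_pos.2 (sub_pos.2 (W2_strict k))).ne'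
  rw [this]
  simp

lemma nu_closure (hgen : Subgroup.closure (Set.range s) = ⊤) :
    Subgroup.closure (nu s).support = ⊤ := by
  rw [nu_support, eq_top_iff, ← hgen, Subgroup.closure_le]
  rintro _ ⟨i, rfl⟩
  exact Subgroup.subset_closure (Set.mem_iUnion.2 ⟨i, by simp [mem_F]⟩)

variable [MeasurableSpace A] [DiscreteMeasurableSpace A]

lemma unif_of_subset (i : ℕ) (B : Set A) (h : ∀ g ∈ F s i, g ∈ B) :
    (PMF.uniformOfFinset (F s i) (F_nonempty s i)).toMeasure B = 1 := by
  rw [PMF.toMeasure_apply_eq_one_iff _ MeasurableSet.of_discrete]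
  intro g hg
  rw [PMF.support_uniformOfFinset] at hg
  exact h g hg

lemma unif_of_disj (i : ℕ) (B : Set A) (h : ∀ g ∈ F s i, g ∉ B) :
    (PMF.uniformOfFinset (F s i) (F_nonempty s i)).toMeasure B = 0 := by
  rw [PMF.toMeasure_apply_eq_zero_iff _ MeasurableSet.of_discrete]
  rw [Set.disjoint_left]
  intro g hg
  rw [PMF.support_uniformOfFinset] at hg
  exact h g hg

include h1 h0 in
lemma nu_H (d : ℕ) : (nu s).toMeasure (H s d : Set A) = ENNReal.ofReal (1 - W2 d) := by
  unfold nu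
  rw [PMF.toMeasure_bind_apply _ _ _ MeasurableSet.of_discrete,
    ← tailPMF_lt W2 W2_zero W2_anti W2_lim d, PMF.toMeasure_apply _ MeasurableSet.of_discrete]
  apply tsum_congr
  intro i
  by_cases h : i < d
  · rw [unif_of_subset s i _ fun g hg => L_sub_H s i d h g (F_sub_L s i g hg), mul_one,
      Set.indicator_of_mem (show i ∈ {k | k < d} from h)]
  · rw [unif_of_disj s i _ fun g hg => L_not_H s c h1 h0 i d (by omega) g (F_sub_L s i g hg),
      mul_zero, Set.indicator_of_notMem (show i ∉ {k | k < d} from h)]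

include h1 h0 in
lemma nu_L (d : ℕ) : (nu s).toMeasure (L s d) = ENNReal.ofReal (W2 d - W2 (d + 1)) := by
  unfold nu
  rw [PMF.toMeasure_bind_apply _ _ _ MeasurableSet.of_discrete]
  rw [tsum_eq_single d]
  · rw [unif_of_subset s d _ fun g hg => F_sub_L s d g hg, mul_one, tailPMF_apply]
  · intro i hi
    rw [unif_of_disj s i _ fun g hg hL => hi (L_disj s c h1 h0 i d g (F_sub_L s i g hg) hL),
      mul_zero]

lemma nu_T : (nu s).toMeasure {g | ∃ i, g ∈ L s i} = 1 := by
  rw [PMF.toMeasure_apply_eq_one_iff _ MeasurableSet.of_discrete, nu_support]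
  intro g hg
  obtain ⟨i, hi⟩ := Set.mem_iUnion.1 hg
  exact ⟨i, F_sub_L s i g hi⟩

include h1 h0 in
lemma prob_Bad (i : ℕ) :
    Measure.infinitePi (fun _ : ℕ => (nu s).toMeasure) (Bad s i) ≤
      ENNReal.ofReal ((1 / ((i : ℝ) + 2)) ^ 2) := by
  have hW := W2_pos i
  have hW1 : W2 i ≤ 1 := W2_zero ▸ W2_anti (Nat.zero_le _)
  have hcompl : 1 - (nu s).toMeasure (H s i : Set A) = ENNReal.ofReal (W2 i) := by
    rw [nu_H s c h1 h0, ← ENNReal.ofReal_one, ← ENNReal.ofReal_sub _ (by linarith)]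
    congr 1; ring
  refine (two_hits _ _ _).trans ?_
  rw [hcompl, nu_L s c h1 h0, ENNReal.ofReal_pow (by positivity), ← W2_ratio,
    ENNReal.ofReal_div_of_pos hW, ENNReal.div_eq_inv_mul, mul_comm]

include h1 h0 in
/-- almost surely, after some time the walk stays in one of the proper semigroups -/
theorem nu_strong : ∀ᵐ ω ∂(Measure.infinitePi (fun _ : ℕ => (nu s).toMeasure)),
    ∃ n : ℕ, 1 ≤ n ∧ ∃ ε : ℕ → ℤ, ∀ k, n ≤ k → X ω k ∈ Pe c ε := by
  have h1' : ∀ᵐ ω ∂(Measure.infinitePi (fun _ : ℕ => (nu s).toMeasure)),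
      ∀ j, ∃ i, ω j ∈ L s i := by
    rw [ae_all_iff]
    intro j
    have h2 : {ω : ℕ → A | ¬ ∃ i, ω j ∈ L s i}
        = (fun ω : ℕ → A => ω j) ⁻¹' {g | ∃ i, g ∈ L s i}ᶜ := rfl
    rw [ae_iff, h2, ← Measure.map_apply (measurable_pi_apply j) MeasurableSet.of_discrete,
      Measure.infinitePi_map_eval, prob_compl_eq_one_sub MeasurableSet.of_discrete, nu_T,
      tsub_self]
  have h2 : ∀ᵐ ω ∂(Measure.infinitePi (fun _ : ℕ => (nu s).toMeasure)),
      ∀ᶠ i in atTop, ω ∉ Bad s i := by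
    apply ae_eventually_notMem
    have hs : Summable fun i : ℕ => (1 / ((i : ℝ) + 2)) ^ 2 := by
      have h3 : Summable fun i : ℕ => (1 : ℝ) / ((i : ℝ)) ^ 2 :=
        Real.summable_one_div_nat_pow.2 one_lt_two
      have h4 := (summable_nat_add_iff 2).2 h3
      refine h4.congr fun i => ?_
      push_cast
      rw [div_pow, one_pow]
    refine ne_top_of_le_ne_top ?_ (ENNReal.tsum_le_tsum (prob_Bad s c h1 h0))
    rw [← ENNReal.ofReal_tsum_of_nonneg (fun i => by positivity) hs]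
    exact ENNReal.ofReal_ne_top
  have h3 : ∀ᵐ ω ∂(Measure.infinitePi (fun _ : ℕ => (nu s).toMeasure)),
      ∀ i0, ∃ j, ω j ∉ H s i0 := by
    rw [ae_all_iff]
    intro i0
    rw [ae_iff]
    have hlt : (nu s).toMeasure (H s i0 : Set A) < 1 := by
      rw [nu_H s c h1 h0, ENNReal.ofReal_lt_one]
      linarith [W2_pos i0]
    have := never (nu s).toMeasure _ hlt 0
    convert this using 2
    ext ω
    simp
  filter_upwards [h1', h2, h3] with ω hω1 hω2 hω3
  obtain ⟨i1, hi1⟩ := eventually_atTop.1 hω2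
  obtain ⟨j, hj⟩ := hω3 (max i1 1)
  refine ⟨j + 1, by omega, nar_det s c h1 h0 ω hω1 (max i1 1) (j + 1) (le_max_right _ _)
    (fun i hi => hi1 i ((le_max_left _ _).trans hi)) ⟨j, Nat.lt_succ_self j, hj⟩⟩

include h1 h0 in
/-- almost surely, after some time the semigroup generated by the walk misses the identity -/
theorem nu_one_notMem : ∀ᵐ ω ∂(Measure.infinitePi (fun _ : ℕ => (nu s).toMeasure)),
    ∃ n : ℕ, 1 ≤ n ∧ (1 : A) ∉ Subsemigroup.closure {g | ∃ m, n ≤ m ∧ g = X ω m} := by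
  filter_upwards [nu_strong s c h1 h0] with ω hω
  obtain ⟨n, hn, ε, h⟩ := hω
  refine ⟨n, hn, fun h2 => one_notMem_Pe c ε ?_⟩
  have hle : Subsemigroup.closure {g | ∃ m, n ≤ m ∧ g = X ω m} ≤ Pe c ε := by
    rw [Subsemigroup.closure_le]
    rintro _ ⟨m, hm, rfl⟩
    exact h m hm
  exact hle h2

include h1 h0 in
/-- for some `n ≥ 1` the semigroup generated by the walk from time `n` on is, with positive
probability, not the whole group -/
theorem nu_pos : ∃ n : ℕ, 1 ≤ n ∧ 0 < Measure.infinitePi (fun _ : ℕ => (nu s).toMeasure)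
    {ω : ℕ → A | Subsemigroup.closure {g | ∃ m, n ≤ m ∧ g = X ω m} ≠ ⊤} := by
  by_contra hcon
  push Not at hcon
  have h1' : ∀ᵐ ω ∂(Measure.infinitePi (fun _ : ℕ => (nu s).toMeasure)),
      ∀ n : ℕ, 1 ≤ n → Subsemigroup.closure {g | ∃ m, n ≤ m ∧ g = X ω m} = ⊤ := by
    rw [ae_all_iff]
    intro n
    by_cases hn : 1 ≤ n
    · have h2 := nonpos_iff_eq_zero.1 (hcon n hn)
      have h3 : ∀ᵐ ω ∂(Measure.infinitePi (fun _ : ℕ => (nu s).toMeasure)),
          Subsemigroup.closure {g | ∃ m, n ≤ m ∧ g = X ω m} = ⊤ := by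
        rw [ae_iff]; exact h2
      filter_upwards [h3] with ω hω _ using hω
    · exact Filter.Eventually.of_forall fun ω hn' => absurd hn' hn
  have h2 : ∀ᵐ ω ∂(Measure.infinitePi (fun _ : ℕ => (nu s).toMeasure)), False := by
    filter_upwards [h1', nu_one_notMem s c h1 h0] with ω hω1 hω2
    obtain ⟨n, hn, hω3⟩ := hω2
    rw [hω1 n hn] at hω3
    exact hω3 (Subsemigroup.mem_top _)
  rw [ae_iff] at h2
  simp at h2

end prob

end Pool.Agent.V11323
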