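import Pool.Agent.V11323.Block

/-!
# Algebraic recurrence of generalised dihedral groups
-/

set_option autoImplicit false

open MeasureTheory Filter Topology

namespace Pool.Agent.V11323

lemma top_of_support {G : Type} [Group G] (S : Set G) (hS : ∀ g ∈ S, g⁻¹ ∈ S)
    (hgen : Subgroup.closure S = ⊤) (hne : S.Nonempty) (P : Subsemigroup G) (hP : ∀ g ∈ S, g ∈ P) :
    P = ⊤ := by
  let Q : Subgroup G :=
    { carrier := {x | x ∈ P ∧ x⁻¹ ∈ P}
      mul_mem' := by
        rintro a b ⟨ha, ha'⟩ ⟨hb, hb'⟩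
        refine ⟨P.mul_mem ha hb, ?_⟩
        rw [mul_inv_rev]
        exact P.mul_mem hb' ha'
      one_mem' := by
        obtain ⟨g, hg⟩ := hne
        have h1 : (1 : G) ∈ P := by
          rw [← mul_inv_cancel g]
          exact P.mul_mem (hP g hg) (hP _ (hS g hg))
        exact ⟨h1, by rw [inv_one]; exact h1⟩
      inv_mem' := by
        rintro a ⟨ha, ha'⟩
        exact ⟨ha', by rw [inv_inv]; exact ha⟩ }
  have hQ : Q = ⊤ := by
    rw [eq_top_iff, ← hgen, Subgroup.closure_le]
    exact fun g hg => ⟨hP g hg, hP _ (hS g hg)⟩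
  rw [eq_top_iff]
  intro x _
  have : x ∈ Q := by rw [hQ]; exact Subgroup.mem_top x
  exact this.1

section

variable {G : Type} [Group G] (π : G →* ℤˣ) (hinv : ∀ g, π g = -1 → g * g = 1)

lemma sign_cases (u : ℤˣ) (h : u ≠ -1) : u = 1 := by
  rcases Int.units_eq_one_or u with h' | h'
  · exact h'
  · exact absurd h' h

include hinv in
lemma dih_det (ω : ℕ → G) (n : ℕ) (g g0 : G) (hg0 : π g0 = -1)
    (h1 : ∀ M : ℕ, ∃ m, M ≤ m ∧ blk ω m = ![g, g, g])
    (h2 : ∀ M : ℕ, ∃ m, M ≤ m ∧ blk ω m = ![g, g0, g]) :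
    g ∈ Subsemigroup.closure {x | ∃ m, n ≤ m ∧ x = X ω m} := by
  have key : ∃ j, n ≤ j ∧ π (X ω j) = -1 ∧ ω j = g := by
    by_cases hg : π g = -1
    · obtain ⟨m, hm, hw⟩ := h1 n
      have e0 : ω (3 * m) = g := by simpa [blk] using congrFun hw 0
      have e1 : ω (3 * m + 1) = g := by simpa [blk] using congrFun hw 1
      by_cases hX : π (X ω (3 * m)) = -1
      · exact ⟨3 * m, by omega, hX, e0⟩
      · refine ⟨3 * m + 1, by omega, ?_, e1⟩
        rw [X_succ, map_mul, e0, hg, sign_cases _ hX, one_mul]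
    · obtain ⟨m, hm, hw⟩ := h2 n
      have e0 : ω (3 * m) = g := by simpa [blk] using congrFun hw 0
      have e1 : ω (3 * m + 1) = g0 := by simpa [blk] using congrFun hw 1
      have e2 : ω (3 * m + 1 + 1) = g := by simpa [blk] using congrFun hw 2
      by_cases hX : π (X ω (3 * m)) = -1
      · exact ⟨3 * m, by omega, hX, e0⟩
      · refine ⟨3 * m + 1 + 1, by omega, ?_, e2⟩
        rw [X_succ, X_succ, map_mul, map_mul, e0, e1, hg0, sign_cases _ hX, sign_cases _ hg,
          one_mul, one_mul]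
  obtain ⟨j, hj, hX, hω⟩ := key
  have h3 : g = X ω j * X ω (j + 1) := by
    rw [X_succ, ← mul_assoc, hinv _ hX, one_mul, hω]
  rw [h3]
  exact Subsemigroup.mul_mem _ (Subsemigroup.subset_closure ⟨j, hj, rfl⟩)
    (Subsemigroup.subset_closure ⟨j + 1, by omega, rfl⟩)

variable [Countable G] [MeasurableSpace G] [DiscreteMeasurableSpace G]

include hinv in
/-- A group with a homomorphism onto `{1, -1}` all of whose elements of sign `-1` are involutions
is algebraically recurrent. -/
theorem dih_AR (hsurj : ∃ g, π g = -1) (μ : PMF G) (hsymm : ∀ g, μ g⁻¹ = μ g)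
    (hgen : Subgroup.closure μ.support = ⊤) (n : ℕ) :
    ∀ᵐ ω ∂(Measure.infinitePi (fun _ : ℕ => μ.toMeasure)),
      Subsemigroup.closure {x | ∃ m, n ≤ m ∧ x = X ω m} = ⊤ := by
  have hg0 : ∃ g0 ∈ μ.support, π g0 = -1 := by
    by_contra hcon
    push Not at hcon
    have h1 : Subgroup.closure μ.support ≤ π.ker := by
      rw [Subgroup.closure_le]
      intro g hg
      exact MonoidHom.mem_ker.2 (sign_cases _ (hcon g hg))
    rw [hgen] at h1
    obtain ⟨g, hg⟩ := hsurj
    have h2 := MonoidHom.mem_ker.1 (h1 (Subgroup.mem_top g))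
    rw [h2] at hg
    exact absurd hg (by decide)
  obtain ⟨g0, hg0s, hg0⟩ := hg0
  have hpos : ∀ g ∈ μ.support, μ.toMeasure {g} ≠ 0 := by
    intro g hg
    rw [PMF.toMeasure_apply_singleton _ _ (measurableSet_singleton _)]
    exact (PMF.mem_support_iff _ _).1 hg
  have h1 : ∀ᵐ ω ∂(Measure.infinitePi (fun _ : ℕ => μ.toMeasure)), ∀ g : G, g ∈ μ.support →
      (∀ M : ℕ, ∃ m, M ≤ m ∧ blk ω m = ![g, g, g]) ∧
      (∀ M : ℕ, ∃ m, M ≤ m ∧ blk ω m = ![g, g0, g]) := by
    rw [ae_all_iff]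
    intro g
    by_cases hg : g ∈ μ.support
    · have ha := block_ae μ.toMeasure ![g, g, g] (by
        intro i; fin_cases i <;> exact hpos g hg)
      have hb := block_ae μ.toMeasure ![g, g0, g] (by
        intro i
        fin_cases i
        · exact hpos g hg
        · exact hpos g0 hg0s
        · exact hpos g hg)
      filter_upwards [ha, hb] with ω h2 h3 _
      exact ⟨h2, h3⟩
    · exact Filter.Eventually.of_forall fun ω h => absurd h hg
  filter_upwards [h1] with ω hω
  apply top_of_support μ.support _ hgen ⟨g0, hg0s⟩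
  · intro g hg
    exact dih_det π hinv ω n g g0 hg0 (hω g hg).1 (hω g hg).2
  · intro g hg
    rw [PMF.mem_support_iff] at hg ⊢
    rwa [hsymm]

end

end Pool.Agent.V11323
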