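import Mathlib

/-!
# Branching random walks: definitions
-/

set_option autoImplicit false

open MeasureTheory ProbabilityTheory Filter Topology
open scoped ENNReal NNReal

namespace Pool.Agent.V11323.BRW

variable {X : Type}

/-- Configurations are given the discrete sigma-algebra. -/
instance : MeasurableSpace (X →₀ ℕ) := ⊤

instance : DiscreteMeasurableSpace (X →₀ ℕ) := ⟨fun _ => trivial⟩

/-- The generating function of the branching random walk `(X, μ)`, with values in `[0, ∞]`. -/
noncomputable def gen (μ : X → PMF (X →₀ ℕ)) (z : X → ℝ≥0∞) (x : X) : ℝ≥0∞ :=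
  ∑' f : X →₀ ℕ, μ x f * f.prod (fun y k => z y ^ k)

/-- The fixed points `z : X → [0, 1]` of the generating function. -/
def FG (μ : X → PMF (X →₀ ℕ)) : Set (X → ℝ≥0∞) := {z | (∀ x, z x ≤ 1) ∧ gen μ z = z}

/-- The expected number of children at `y` of a particle at `x`. -/
noncomputable def mean (μ : X → PMF (X →₀ ℕ)) (x y : X) : ℝ≥0∞ :=
  ∑' f : X →₀ ℕ, μ x f * (f y : ℝ≥0∞)

/-- Irreducibility. -/
def Irred (μ : X → PMF (X →₀ ℕ)) : Prop :=
  ∀ x y, Relation.ReflTransGen (fun a b => mean μ a b ≠ 0) x y

/-- The law of the reproductions in one generation: the reproductions `w (x, i)` of the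
particles `i = 0, 1, …` at the sites `x` are independent, with law `μ x`. -/
noncomputable def noise (μ : X → PMF (X →₀ ℕ)) : Measure (X × ℕ → (X →₀ ℕ)) :=
  Measure.infinitePi fun p => (μ p.1).toMeasure

/-- The law of the reproductions in all generations. -/
noncomputable def law (μ : X → PMF (X →₀ ℕ)) : Measure (ℕ → X × ℕ → (X →₀ ℕ)) :=
  Measure.infinitePi fun _ => noise μ

/-- The next generation: each of the `η x` particles at `x` is replaced by its offspring. -/
noncomputable def next (η : X →₀ ℕ) (w : X × ℕ → (X →₀ ℕ)) : X →₀ ℕ :=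
  η.sum fun x k => ∑ i ∈ Finset.range k, w (x, i)

/-- The branching random walk started from the configuration `η`. -/
noncomputable def proc (η : X →₀ ℕ) (ω : ℕ → X × ℕ → (X →₀ ℕ)) : ℕ → (X →₀ ℕ)
  | 0 => η
  | n + 1 => next (proc η ω n) (ω n)

/-- The probability `q(x, A)` of extinction in `A` starting with one particle at `x`. -/
noncomputable def ext (μ : X → PMF (X →₀ ℕ)) (A : Set X) (x : X) : ℝ≥0∞ :=
  1 - law μ {ω | ∃ᶠ n in atTop, ∃ y ∈ A, proc (Finsupp.single x 1) ω n y ≠ 0}

/-- The extinction probability vectors. -/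
def EG (μ : X → PMF (X →₀ ℕ)) : Set (X → ℝ≥0∞) := Set.range (ext μ)

end Pool.Agent.V11323.BRW
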