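import Pool.Agent.V11323.BRWProc

/-!
# Branching random walks: the fixed points of the generating function
-/

set_option autoImplicit false

open MeasureTheory ProbabilityTheory Filter Topology
open scoped ENNReal NNReal

namespace Pool.Agent.V11323.BRW

variable {X : Type} (μ : X → PMF (X →₀ ℕ))

lemma meas_Zp (z : X → ℝ≥0∞) : Measurable (Zp z) := Measurable.of_discrete

/-- continuity of the generating function -/
lemma tendsto_gen [Countable X] {ι : Type} {l : Filter ι} [l.IsCountablyGenerated]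
    {z : ι → X → ℝ≥0∞} {z' : X → ℝ≥0∞}
    (h : ∀ x, Tendsto (fun i => z i x) l (𝓝 (z' x))) (h1 : ∀ᶠ i in l, ∀ x, z i x ≤ 1)
    (h1' : ∀ x, z' x ≤ 1) (x : X) :
    Tendsto (fun i => gen μ (z i) x) l (𝓝 (gen μ z' x)) := by
  simp only [gen_eq]
  apply tendsto_lintegral_filter_of_dominated_convergence (fun _ => 1)
  · exact Eventually.of_forall fun i => meas_Zp _
  · filter_upwards [h1] with i hi
    exact Eventually.of_forall fun f => Zp_le_one hi f
  · simp
  · refine Eventually.of_forall fun f => ?_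
    set w : ι → X → ℝ≥0∞ := fun i y => min (z i y) 1 with hw
    have h2 : ∀ y, Tendsto (fun i => w i y) l (𝓝 (z' y)) := by
      intro y
      have h3 : Tendsto (fun i => min (z i y) 1) l (𝓝 (min (z' y) 1)) :=
        (h y).min tendsto_const_nhds
      rwa [min_eq_left (h1' y)] at h3
    have h4 := tendsto_Zp h2 (fun i y => min_le_right _ _) h1' f
    refine h4.congr' ?_
    filter_upwards [h1] with i hi
    congr 1
    funext y
    exact min_eq_left (hi y)

/-! ### Extinction probabilities are fixed points -/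

section Ext

variable [Countable X]

lemma avi_eq (A : Set X) (x : X) : avi μ A x = kill A (gen μ (avi μ A)) x := by
  have h1 : Tendsto (fun m => av μ A (m + 1) x) atTop (𝓝 (avi μ A x)) :=
    (tendsto_add_atTop_iff_nat 1).mpr (tendsto_atTop_iInf (av_antitone μ A x))
  have h2 : Tendsto (fun m => av μ A (m + 1) x) atTop (𝓝 (kill A (gen μ (avi μ A)) x)) := by
    have h3 := tendsto_gen μ (l := atTop) (z := av μ A)
      (fun x => tendsto_atTop_iInf (av_antitone μ A x))
      (Eventually.of_forall (av_le_one μ A)) (avi_le_one μ A) x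
    unfold kill
    split_ifs with h
    · refine tendsto_const_nhds.congr fun m => ?_
      unfold av kill
      rw [if_pos h]
    · refine h3.congr fun m => ?_
      show gen μ (av μ A m) x = kill A (gen μ (av μ A m)) x
      unfold kill
      rw [if_neg h]
  exact tendsto_nhds_unique h1 h2

omit [Countable X] in
lemma gi_le_one {z : X → ℝ≥0∞} (hz : ∀ x, z x ≤ 1) (n : ℕ) (x : X) : gi μ n z x ≤ 1 := by
  induction n generalizing x with
  | zero => exact hz x
  | succ n ih => exact gen_le_one μ ih x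

omit [Countable X] in
lemma gi_mono {z : X → ℝ≥0∞} (hz : ∀ x, z x ≤ gen μ z x) (x : X) :
    Monotone fun n => gi μ n z x := by
  refine monotone_nat_of_le_succ fun n => ?_
  induction n generalizing x with
  | zero => exact hz x
  | succ n ih => exact gen_mono μ ih x

omit [Countable X] in
lemma gi_mono' {z z' : X → ℝ≥0∞} (h : ∀ x, z x ≤ z' x) (n : ℕ) (x : X) :
    gi μ n z x ≤ gi μ n z' x := by
  induction n generalizing x with
  | zero => exact h x
  | succ n ih => exact gen_mono μ ih x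

omit [Countable X] in
lemma gi_fixed {z : X → ℝ≥0∞} (hz : gen μ z = z) (n : ℕ) : gi μ n z = z := by
  induction n with
  | zero => rfl
  | succ n ih => rw [gi, ih, hz]

/-- limits of increasing iterates are fixed points -/
lemma iSup_fixed {z : X → ℝ≥0∞} (hz1 : ∀ x, z x ≤ 1) (hz : ∀ x, z x ≤ gen μ z x) :
    (fun x => ⨆ n, gi μ n z x) ∈ FG μ := by
  have h1 : ∀ x, ⨆ n, gi μ n z x ≤ 1 := fun x => iSup_le fun n => gi_le_one μ hz1 n x
  refine ⟨h1, ?_⟩
  funext x
  have h2 := tendsto_gen μ (l := atTop) (z := fun n => gi μ n z)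
    (fun x => tendsto_atTop_iSup (gi_mono μ hz x)) (Eventually.of_forall (gi_le_one μ hz1)) h1 x
  have h3 : Tendsto (fun n => gi μ (n + 1) z x) atTop (𝓝 (⨆ n, gi μ n z x)) :=
    (tendsto_add_atTop_iff_nat 1).mpr (tendsto_atTop_iSup (gi_mono μ hz x))
  exact tendsto_nhds_unique h2 h3

lemma ext_mem (A : Set X) : ext μ A ∈ FG μ := by
  have h1 : ext μ A = fun x => ⨆ n, gi μ n (avi μ A) x := by
    funext x
    exact ext_eq μ A x
  rw [h1]
  refine iSup_fixed μ (avi_le_one μ A) fun x => ?_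
  conv_lhs => rw [avi_eq]
  exact kill_le _ _ _

omit [Countable X] in
lemma ext_empty : ext μ ∅ = fun _ => 1 := by
  funext x
  unfold ext
  simp

lemma ext_univ_le {z : X → ℝ≥0∞} (hz : z ∈ FG μ) (x : X) : ext μ Set.univ x ≤ z x := by
  rw [ext_eq]
  refine iSup_le fun n => ?_
  have h0 : ∀ y, avi μ Set.univ y ≤ z y := by
    intro y
    refine (iInf_le _ 0).trans ?_
    unfold av kill
    rw [if_pos (Set.mem_univ _)]
    exact bot_le
  calc gi μ n (avi μ Set.univ) x ≤ gi μ n z x := gi_mono' μ h0 n x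
    _ = z x := by rw [gi_fixed μ hz.2]

end Ext

/-! ### Strict monotonicity -/

lemma exists_of_mean {x y : X} (h : mean μ x y ≠ 0) : ∃ f, μ x f ≠ 0 ∧ f y ≠ 0 := by
  by_contra hc
  push Not at hc
  apply h
  unfold mean
  rw [ENNReal.tsum_eq_zero]
  intro f
  by_cases hf : μ x f = 0
  · rw [hf, zero_mul]
  · rw [hc f hf]; simp

lemma Zp_lt {w w' : X → ℝ≥0∞} (hww : ∀ v, w v ≤ w' v) (hw1 : ∀ v, w' v ≤ 1)
    (hw0 : ∀ v, w' v ≠ 0) {y : X} (hy : w y < w' y) {f : X →₀ ℕ} (hf : f y ≠ 0) :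
    Zp w f < Zp w' f := by
  classical
  unfold Zp Finsupp.prod
  have hmem : y ∈ f.support := Finsupp.mem_support_iff.mpr hf
  rw [← Finset.mul_prod_erase _ _ hmem, ← Finset.mul_prod_erase _ _ hmem]
  have h1 : ∏ v ∈ f.support.erase y, w v ^ f v ≤ ∏ v ∈ f.support.erase y, w' v ^ f v :=
    Finset.prod_le_prod' fun v _ => pow_le_pow_left' (hww v) _
  have h2 : ∏ v ∈ f.support.erase y, w' v ^ f v ≠ 0 :=
    Finset.prod_ne_zero_iff.mpr fun v _ => pow_ne_zero _ (hw0 v)
  have h3 : ∏ v ∈ f.support.erase y, w' v ^ f v ≠ ⊤ := by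
    refine ne_top_of_le_ne_top ENNReal.one_ne_top (Finset.prod_le_one' fun v _ => ?_)
    exact pow_le_one' (hw1 v) _
  have h4 : w y ^ f y < w' y ^ f y := ENNReal.pow_lt_pow_left hf hy
  calc w y ^ f y * ∏ v ∈ f.support.erase y, w v ^ f v
      ≤ w y ^ f y * ∏ v ∈ f.support.erase y, w' v ^ f v := by gcongr
    _ < w' y ^ f y * ∏ v ∈ f.support.erase y, w' v ^ f v := by
        exact ENNReal.mul_lt_mul_left h2 h3 h4

lemma gen_lt {w w' : X → ℝ≥0∞} (hww : ∀ v, w v ≤ w' v) (hw1 : ∀ v, w' v ≤ 1)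
    (hw0 : ∀ v, w' v ≠ 0) {x y : X} (hxy : mean μ x y ≠ 0) (hy : w y < w' y) :
    gen μ w x < gen μ w' x := by
  obtain ⟨f, hf1, hf2⟩ := exists_of_mean μ hxy
  unfold gen
  refine ENNReal.tsum_lt_tsum (i := f) ?_ (fun g => ?_) ?_
  · have := gen_le_one μ (fun v => (hww v).trans (hw1 v)) x
    exact ne_top_of_le_ne_top ENNReal.one_ne_top this
  · exact mul_le_mul_right (Zp_mono hww g) _
  · have h1 := Zp_lt hww hw1 hw0 hy hf2
    exact ENNReal.mul_lt_mul_right hf1 (PMF.apply_ne_top _ _) h1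

lemma gen_lt_one {w : X → ℝ≥0∞} (hw1 : ∀ v, w v ≤ 1) {x y : X} (hxy : mean μ x y ≠ 0)
    (hy : w y < 1) : gen μ w x < 1 := by
  have := gen_lt μ (w := w) (w' := fun _ => 1) hw1 (fun _ => le_rfl) (fun _ => one_ne_zero) hxy hy
  rwa [gen_one] at this

/-- maximum principle -/
lemma lt_one_of_ne {z : X → ℝ≥0∞} (hirr : Irred μ) (hz : z ∈ FG μ) (hne : z ≠ fun _ => 1)
    (x : X) : z x < 1 := by
  have h1 : ∃ y, z y < 1 := by
    by_contra hc
    push Not at hc
    apply hne
    funext y
    exact le_antisymm (hz.1 y) (hc y)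
  obtain ⟨y, hy⟩ := h1
  have h2 := hirr x y
  induction h2 using Relation.ReflTransGen.head_induction_on with
  | refl => exact hy
  | head hab _ ih =>
    rw [← hz.2]
    exact gen_lt_one μ hz.1 hab ih

/-! ### Convexity -/

lemma two_conv {κ l a b c d : ℝ≥0∞} (hκ : κ + l = 1) :
    (a + l * c) * (b + l * d) ≤ κ * (a * b) + l * ((a + c) * (b + d)) := by
  have hl : l ≤ 1 := by rw [← hκ]; exact le_add_self
  have h1 : l * l ≤ l := by
    calc l * l ≤ l * 1 := by gcongr
      _ = l := mul_one l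
  calc (a + l * c) * (b + l * d) = a * b + l * (a * d + c * b) + (l * l) * (c * d) := by ring
    _ ≤ a * b + l * (a * d + c * b) + l * (c * d) := by gcongr
    _ = (κ + l) * (a * b) + l * (a * d + c * b) + l * (c * d) := by rw [hκ, one_mul]
    _ = κ * (a * b) + l * ((a + c) * (b + d)) := by ring

lemma mul_conv {κ l a a' b b' : ℝ≥0∞} (hκ : κ + l = 1) (ha : a ≤ a') (hb : b ≤ b') :
    (κ * a + l * a') * (κ * b + l * b') ≤ κ * (a * b) + l * (a' * b') := by
  obtain ⟨c, rfl⟩ := exists_add_of_le ha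
  obtain ⟨d, rfl⟩ := exists_add_of_le hb
  have e1 : κ * a + l * (a + c) = a + l * c := by
    calc κ * a + l * (a + c) = (κ + l) * a + l * c := by ring
      _ = _ := by rw [hκ, one_mul]
  have e2 : κ * b + l * (b + d) = b + l * d := by
    calc κ * b + l * (b + d) = (κ + l) * b + l * d := by ring
      _ = _ := by rw [hκ, one_mul]
  rw [e1, e2]
  exact two_conv hκ

lemma pow_conv {κ l a a' : ℝ≥0∞} (hκ : κ + l = 1) (ha : a ≤ a') (n : ℕ) :
    (κ * a + l * a') ^ n ≤ κ * a ^ n + l * a' ^ n := by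
  induction n with
  | zero => simp [hκ]
  | succ n ih =>
    calc (κ * a + l * a') ^ (n + 1) = (κ * a + l * a') ^ n * (κ * a + l * a') := pow_succ _ _
      _ ≤ (κ * a ^ n + l * a' ^ n) * (κ * a + l * a') := by gcongr
      _ ≤ κ * (a ^ n * a) + l * (a' ^ n * a') := mul_conv hκ (pow_le_pow_left' ha n) ha
      _ = _ := by rw [pow_succ, pow_succ]

lemma Zp_conv {κ l : ℝ≥0∞} (hκ : κ + l = 1) {u w : X → ℝ≥0∞} (huw : ∀ x, u x ≤ w x)
    (f : X →₀ ℕ) : Zp (fun x => κ * u x + l * w x) f ≤ κ * Zp u f + l * Zp w f := by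
  classical
  unfold Zp Finsupp.prod
  induction f.support using Finset.induction_on with
  | empty => simp [hκ]
  | insert a s ha ih =>
    rw [Finset.prod_insert ha, Finset.prod_insert ha, Finset.prod_insert ha]
    calc (κ * u a + l * w a) ^ f a * ∏ y ∈ s, (κ * u y + l * w y) ^ f y
        ≤ (κ * u a ^ f a + l * w a ^ f a) *
          (κ * ∏ y ∈ s, u y ^ f y + l * ∏ y ∈ s, w y ^ f y) := by
          gcongr
          exact pow_conv hκ (huw a) _
      _ ≤ _ := mul_conv hκ (pow_le_pow_left' (huw a) _)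
          (Finset.prod_le_prod' fun y _ => pow_le_pow_left' (huw y) _)

lemma gen_conv {κ l : ℝ≥0∞} (hκ : κ + l = 1) {u w : X → ℝ≥0∞} (huw : ∀ x, u x ≤ w x)
    (x : X) : gen μ (fun x => κ * u x + l * w x) x ≤ κ * gen μ u x + l * gen μ w x := by
  unfold gen
  rw [← ENNReal.tsum_mul_left, ← ENNReal.tsum_mul_left, ← ENNReal.tsum_add]
  refine ENNReal.tsum_le_tsum fun f => ?_
  calc μ x f * Zp (fun x => κ * u x + l * w x) f ≤ μ x f * (κ * Zp u f + l * Zp w f) := by
        gcongr
        exact Zp_conv hκ huw f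
    _ = κ * (μ x f * Zp u f) + l * (μ x f * Zp w f) := by ring

/-! ### Finite boxes -/

open Classical in
/-- the generating function in `Y`, with the values `b` outside `Y` -/
noncomputable def TY (Y : Set X) (b w : X → ℝ≥0∞) (x : X) : ℝ≥0∞ :=
  if x ∈ Y then gen μ w x else b x

/-- iterates -/
noncomputable def itY (Y : Set X) (b : X → ℝ≥0∞) : ℕ → (X → ℝ≥0∞) → (X → ℝ≥0∞)
  | 0, z => z
  | n + 1, z => TY μ Y b (itY Y b n z)

variable {Y : Set X} {b : X → ℝ≥0∞}

lemma TY_mono {w w' : X → ℝ≥0∞} (h : ∀ x, w x ≤ w' x) (x : X) : TY μ Y b w x ≤ TY μ Y b w' x := by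
  unfold TY
  split_ifs
  · exact gen_mono μ h x
  · exact le_rfl

lemma TY_le_one (hb : ∀ x, b x ≤ 1) {w : X → ℝ≥0∞} (h : ∀ x, w x ≤ 1) (x : X) :
    TY μ Y b w x ≤ 1 := by
  unfold TY
  split_ifs
  · exact gen_le_one μ h x
  · exact hb x

lemma itY_mono {w w' : X → ℝ≥0∞} (h : ∀ x, w x ≤ w' x) (n : ℕ) (x : X) :
    itY μ Y b n w x ≤ itY μ Y b n w' x := by
  induction n generalizing x with
  | zero => exact h x
  | succ n ih => exact TY_mono μ ih x

lemma itY_le_one (hb : ∀ x, b x ≤ 1) {w : X → ℝ≥0∞} (h : ∀ x, w x ≤ 1) (n : ℕ) (x : X) :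
    itY μ Y b n w x ≤ 1 := by
  induction n generalizing x with
  | zero => exact h x
  | succ n ih => exact TY_le_one μ hb ih x

lemma itY_fixed {w : X → ℝ≥0∞} (h : TY μ Y b w = w) (n : ℕ) : itY μ Y b n w = w := by
  induction n with
  | zero => rfl
  | succ n ih => rw [itY, ih, h]

lemma TY_conv {κ l : ℝ≥0∞} (hκ : κ + l = 1) {u w : X → ℝ≥0∞} (huw : ∀ x, u x ≤ w x)
    (x : X) : TY μ Y b (fun x => κ * u x + l * w x) x ≤ κ * TY μ Y b u x + l * TY μ Y b w x := by
  unfold TY
  split_ifs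
  · exact gen_conv μ hκ huw x
  · rw [← add_mul, hκ, one_mul]

lemma itY_conv {κ l : ℝ≥0∞} (hκ : κ + l = 1) {u w : X → ℝ≥0∞} (huw : ∀ x, u x ≤ w x)
    (hu : TY μ Y b u = u) (n : ℕ) (x : X) :
    itY μ Y b n (fun x => κ * u x + l * w x) x ≤ κ * u x + l * itY μ Y b n w x := by
  induction n generalizing x with
  | zero => exact le_rfl
  | succ n ih =>
    have h1 : ∀ x, u x ≤ itY μ Y b n w x := by
      intro x
      have := itY_mono μ (Y := Y) (b := b) huw n x
      rwa [itY_fixed μ hu] at this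
    calc itY μ Y b (n + 1) (fun x => κ * u x + l * w x) x
        ≤ TY μ Y b (fun x => κ * u x + l * itY μ Y b n w x) x := TY_mono μ ih x
      _ ≤ κ * TY μ Y b u x + l * TY μ Y b (itY μ Y b n w) x := TY_conv μ hκ h1 x
      _ = κ * u x + l * itY μ Y b (n + 1) w x := by rw [hu]; rfl

/-- comparison: a fixed point below `W` is below the fixed point `u` -/
lemma le_of_contract {u v W : X → ℝ≥0∞} (hu : TY μ Y b u = u) (hv : TY μ Y b v = v)
    (huW : ∀ x, u x ≤ W x) (hvW : ∀ x, v x ≤ W x) (hW1 : ∀ x, W x ≤ 1) (N : ℕ) (θ : ℝ≥0∞)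
    (hθ : θ < 1) (hN : ∀ x, itY μ Y b N W x ≤ (1 - θ) * u x + θ * W x) (x : X) :
    v x ≤ u x := by
  have hpow : ∀ k : ℕ, θ ^ k ≤ 1 := fun k => pow_le_one' hθ.le k
  have key : ∀ k : ℕ, ∀ x, v x ≤ (1 - θ ^ k) * u x + θ ^ k * W x := by
    intro k
    induction k with
    | zero => intro x; simpa using hvW x
    | succ k ih =>
      intro x
      have hκ : (1 - θ ^ k) + θ ^ k = 1 := tsub_add_cancel_of_le (hpow k)
      calc v x = itY μ Y b N v x := by rw [itY_fixed μ hv]
        _ ≤ itY μ Y b N (fun x => (1 - θ ^ k) * u x + θ ^ k * W x) x := itY_mono μ ih N x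
        _ ≤ (1 - θ ^ k) * u x + θ ^ k * itY μ Y b N W x := itY_conv μ hκ huW hu N x
        _ ≤ (1 - θ ^ k) * u x + θ ^ k * ((1 - θ) * u x + θ * W x) := by
            gcongr
            exact hN x
        _ = ((1 - θ ^ k) + θ ^ k * (1 - θ)) * u x + θ ^ (k + 1) * W x := by
            rw [pow_succ]; ring
        _ = (1 - θ ^ (k + 1)) * u x + θ ^ (k + 1) * W x := by
            congr 2
            have h1 : θ ^ k * (1 - θ) + θ ^ (k + 1) = θ ^ k := by
              rw [pow_succ, ← mul_add, tsub_add_cancel_of_le hθ.le, mul_one]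
            have h2 : (1 - θ ^ k) + θ ^ k * (1 - θ) + θ ^ (k + 1) = 1 := by
              rw [add_assoc, h1, hκ]
            have h3 : (1 - θ ^ (k + 1)) + θ ^ (k + 1) = 1 := tsub_add_cancel_of_le (hpow _)
            have h4 : θ ^ (k + 1) ≠ ⊤ := ne_top_of_le_ne_top ENNReal.one_ne_top (hpow _)
            exact (ENNReal.add_left_inj h4).mp (h2.trans h3.symm)
  have h1 : Tendsto (fun k : ℕ => u x + θ ^ k) atTop (𝓝 (u x + 0)) := by
    apply Tendsto.add tendsto_const_nhds
    exact ENNReal.tendsto_pow_atTop_nhds_zero_of_lt_one hθ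
  rw [add_zero] at h1
  refine ge_of_tendsto' h1 fun k => (key k x).trans ?_
  calc (1 - θ ^ k) * u x + θ ^ k * W x ≤ 1 * u x + θ ^ k * 1 := by
        gcongr
        · exact tsub_le_self
        · exact hW1 x
    _ = u x + θ ^ k := by rw [one_mul, mul_one]

lemma it_one_anti (hb : ∀ x, b x ≤ 1) (x : X) :
    Antitone fun n => itY μ Y b n (fun _ => 1) x := by
  refine antitone_nat_of_succ_le fun n => ?_
  induction n generalizing x with
  | zero => exact TY_le_one μ hb (fun _ => le_rfl) x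
  | succ n ih => exact TY_mono μ ih x

lemma it_zero_mono (x : X) : Monotone fun n => itY μ Y b n (fun _ => 0) x := by
  refine monotone_nat_of_le_succ fun n => ?_
  induction n generalizing x with
  | zero => exact bot_le
  | succ n ih => exact TY_mono μ ih x

/-- the box is left with positive probability -/
lemma exists_exit (hirr : Irred μ) (hY : Y.Finite) (hne : ∃ y, y ∉ Y) (hb : ∀ x, b x ≤ 1)
    (hb1 : ∀ x, x ∉ Y → b x < 1) :
    ∃ N : ℕ, ∃ θ : ℝ≥0∞, θ < 1 ∧ ∀ x ∈ Y, itY μ Y b (N + 1) (fun _ => 1) x ≤ θ := by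
  obtain ⟨y0, hy0⟩ := hne
  have h1 : ∀ x, ∃ N : ℕ, itY μ Y b N (fun _ => 1) x < 1 := by
    intro x
    have h2 := hirr x y0
    induction h2 using Relation.ReflTransGen.head_induction_on with
    | refl =>
      refine ⟨1, ?_⟩
      show TY μ Y b (fun _ => 1) y0 < 1
      unfold TY
      rw [if_neg hy0]
      exact hb1 y0 hy0
    | @head a c hac _ ih =>
      obtain ⟨N, hN⟩ := ih
      refine ⟨N + 1, ?_⟩
      show TY μ Y b (itY μ Y b N (fun _ => 1)) a < 1
      unfold TY
      split_ifs with ha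
      · exact gen_lt_one μ (itY_le_one μ hb (fun _ => le_rfl) N) hac hN
      · exact hb1 a ha
  choose Nx hNx using h1
  set Yf := hY.toFinset with hYf
  refine ⟨Yf.sup Nx, Yf.sup (fun x => itY μ Y b (Yf.sup Nx) (fun _ => 1) x), ?_, ?_⟩
  · rw [Finset.sup_lt_iff (by exact zero_lt_one)]
    intro x hx
    exact lt_of_le_of_lt (it_one_anti μ hb x (Finset.le_sup hx)) (hNx x)
  · intro x hx
    refine (it_one_anti μ hb x (Nat.le_succ _)).trans ?_
    exact Finset.le_sup (f := fun x => itY μ Y b (Yf.sup Nx) (fun _ => 1) x)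
      (hY.mem_toFinset.mpr hx)

/-- uniqueness -/
lemma TY_unique (hirr : Irred μ) (hY : Y.Finite) (hne : ∃ y, y ∉ Y) (hb : ∀ x, b x ≤ 1)
    (hb1 : ∀ x, x ∉ Y → b x < 1) {u v : X → ℝ≥0∞} (hu : TY μ Y b u = u) (hv : TY μ Y b v = v)
    (hu1 : ∀ x, u x ≤ 1) (hv1 : ∀ x, v x ≤ 1) (x : X) : v x ≤ u x := by
  obtain ⟨N, θ, hθ, hN⟩ := exists_exit μ hirr hY hne hb hb1
  refine le_of_contract μ hu hv hu1 hv1 (fun _ => le_rfl) (N + 1) θ hθ (fun x => ?_) x
  by_cases hx : x ∈ Y
  · calc itY μ Y b (N + 1) (fun _ => 1) x ≤ θ := hN x hx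
      _ ≤ (1 - θ) * u x + θ * 1 := by rw [mul_one]; exact le_add_self
  · have h1 : u x = b x := by
      rw [← hu]; unfold TY; rw [if_neg hx]
    have h2 : itY μ Y b (N + 1) (fun _ => 1) x = b x := by
      show TY μ Y b _ x = b x
      unfold TY; rw [if_neg hx]
    rw [h2, ← h1]
    calc u x = ((1 - θ) + θ) * u x := by rw [tsub_add_cancel_of_le hθ.le, one_mul]
      _ = (1 - θ) * u x + θ * u x := by ring
      _ ≤ (1 - θ) * u x + θ * 1 := by
          gcongr
          exact hu1 x

/-! ### Interpolation -/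

section Interp

variable [Countable X]

lemma tendsto_TY {ι : Type} {l : Filter ι} [l.IsCountablyGenerated]
    {z : ι → X → ℝ≥0∞} {z' : X → ℝ≥0∞} {c : ι → X → ℝ≥0∞}
    (h : ∀ x, Tendsto (fun i => z i x) l (𝓝 (z' x))) (h1 : ∀ᶠ i in l, ∀ x, z i x ≤ 1)
    (h1' : ∀ x, z' x ≤ 1) (hc : ∀ x, Tendsto (fun i => c i x) l (𝓝 (b x))) (x : X) :
    Tendsto (fun i => TY μ Y (c i) (z i) x) l (𝓝 (TY μ Y b z' x)) := by
  unfold TY
  split_ifs
  · exact tendsto_gen μ h h1 h1' x
  · exact hc x

/-- maximal fixed point -/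
noncomputable def wmax (μ : X → PMF (X →₀ ℕ)) (Y : Set X) (b : X → ℝ≥0∞) (x : X) : ℝ≥0∞ :=
  ⨅ n, itY μ Y b n (fun _ => 1) x

/-- minimal fixed point -/
noncomputable def wmin (μ : X → PMF (X →₀ ℕ)) (Y : Set X) (b : X → ℝ≥0∞) (x : X) : ℝ≥0∞ :=
  ⨆ n, itY μ Y b n (fun _ => 0) x

omit [Countable X] in
lemma wmax_le_one (x : X) : wmax μ Y b x ≤ 1 := iInf_le _ 0

omit [Countable X] in
lemma wmin_le_one (hb : ∀ x, b x ≤ 1) (x : X) : wmin μ Y b x ≤ 1 :=
  iSup_le fun n => itY_le_one μ hb (fun _ => zero_le_one) n x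

lemma wmax_fixed (hb : ∀ x, b x ≤ 1) : TY μ Y b (wmax μ Y b) = wmax μ Y b := by
  funext x
  have h2 := tendsto_TY μ (Y := Y) (b := b) (l := atTop)
    (z := fun n => itY μ Y b n (fun _ => 1)) (z' := wmax μ Y b) (c := fun _ => b)
    (fun x => tendsto_atTop_iInf (it_one_anti μ hb x))
    (Eventually.of_forall (itY_le_one μ hb fun _ => le_rfl)) (wmax_le_one μ)
    (fun _ => tendsto_const_nhds) x
  have h3 : Tendsto (fun n => itY μ Y b (n + 1) (fun _ => 1) x) atTop (𝓝 (wmax μ Y b x)) :=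
    (tendsto_add_atTop_iff_nat 1).mpr (tendsto_atTop_iInf (it_one_anti μ hb x))
  exact tendsto_nhds_unique h2 h3

lemma wmin_fixed (hb : ∀ x, b x ≤ 1) : TY μ Y b (wmin μ Y b) = wmin μ Y b := by
  funext x
  have h2 := tendsto_TY μ (Y := Y) (b := b) (l := atTop)
    (z := fun n => itY μ Y b n (fun _ => 0)) (z' := wmin μ Y b) (c := fun _ => b)
    (fun x => tendsto_atTop_iSup (it_zero_mono μ x))
    (Eventually.of_forall (itY_le_one μ hb fun _ => zero_le_one)) (wmin_le_one μ hb)
    (fun _ => tendsto_const_nhds) x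
  have h3 : Tendsto (fun n => itY μ Y b (n + 1) (fun _ => 0) x) atTop (𝓝 (wmin μ Y b x)) :=
    (tendsto_add_atTop_iff_nat 1).mpr (tendsto_atTop_iSup (it_zero_mono μ x))
  exact tendsto_nhds_unique h2 h3

/-- boundary values -/
noncomputable def bs (z : X → ℝ≥0∞) (s : ℝ≥0∞) (x : X) : ℝ≥0∞ := min s 1 * z x

omit [Countable X] in
lemma bs_le {z : X → ℝ≥0∞} (s : ℝ≥0∞) (x : X) : bs z s x ≤ z x := by
  unfold bs
  calc min s 1 * z x ≤ 1 * z x := by gcongr; exact min_le_right _ _
    _ = z x := one_mul _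

lemma it_cont {z : X → ℝ≥0∞} (hz : ∀ x, z x ≤ 1) (c : X → ℝ≥0∞) (hc : ∀ x, c x ≤ 1) (n : ℕ)
    (x : X) : Continuous fun s => itY μ Y (bs z s) n c x := by
  induction n generalizing x with
  | zero => exact continuous_const
  | succ n ih =>
    rw [continuous_iff_continuousAt]
    intro s
    have hb : ∀ s x, bs z s x ≤ 1 := fun s x => (bs_le s x).trans (hz x)
    refine tendsto_TY μ (Y := Y) (b := bs z s) (l := 𝓝 s)
      (z := fun s' => itY μ Y (bs z s') n c) (z' := itY μ Y (bs z s) n c) (c := fun s' => bs z s')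
      (fun x => (ih x).continuousAt) (Eventually.of_forall fun s' => itY_le_one μ (hb s') hc n)
      (itY_le_one μ (hb s) hc n) (fun x => ?_) x
    unfold bs
    have h1 : Continuous fun s' : ℝ≥0∞ => min s' 1 * z x :=
      (ENNReal.continuous_mul_const (ne_top_of_le_ne_top ENNReal.one_ne_top (hz x))).comp
        (continuous_id.min continuous_const)
    exact h1.continuousAt

/-- intermediate values are attained in finite boxes -/
lemma exists_box (hirr : Irred μ) (hY : Y.Finite) (hne : ∃ y, y ∉ Y) {z : X → ℝ≥0∞}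
    (hz : z ∈ FG μ) (hz1 : ∀ x, z x < 1) (x0 : X) (t : ℝ≥0∞) (ht : ext μ Set.univ x0 ≤ t)
    (ht' : t ≤ z x0) :
    ∃ w : X → ℝ≥0∞, (∀ x, w x ≤ 1) ∧ (∀ x ∈ Y, gen μ w x = w x) ∧ (x0 ∈ Y → w x0 = t) := by
  have hb : ∀ s x, bs z s x ≤ 1 := fun s x => (bs_le s x).trans (hz.1 x)
  have hb1 : ∀ s x, x ∉ Y → bs z s x < 1 := fun s x _ => lt_of_le_of_lt (bs_le s x) (hz1 x)
  have heq : ∀ s x, wmax μ Y (bs z s) x = wmin μ Y (bs z s) x := fun s x =>
    le_antisymm
      (TY_unique μ hirr hY hne (hb s) (hb1 s) (wmin_fixed μ (hb s)) (wmax_fixed μ (hb s))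
        (wmin_le_one μ (hb s)) (wmax_le_one μ) x)
      (TY_unique μ hirr hY hne (hb s) (hb1 s) (wmax_fixed μ (hb s)) (wmin_fixed μ (hb s))
        (wmax_le_one μ) (wmin_le_one μ (hb s)) x)
  have hcont : Continuous fun s => wmin μ Y (bs z s) x0 := by
    rw [continuous_iff_lower_upperSemicontinuous]
    constructor
    · exact lowerSemicontinuous_iSup fun n =>
        (it_cont μ hz.1 (fun _ => 0) (fun _ => zero_le_one) n x0).lowerSemicontinuous
    · have h1 : (fun s => wmin μ Y (bs z s) x0) = fun s => wmax μ Y (bs z s) x0 := by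
        funext s
        exact (heq s x0).symm
      rw [h1]
      exact upperSemicontinuous_iInf fun n =>
        (it_cont μ hz.1 (fun _ => 1) (fun _ => le_rfl) n x0).upperSemicontinuous
  have h0 : wmin μ Y (bs z 0) x0 ≤ t := by
    refine le_trans ?_ ht
    refine iSup_le fun n => ?_
    have h2 : ∀ n x, itY μ Y (bs z 0) n (fun _ => 0) x ≤ ext μ Set.univ x := by
      intro n
      induction n with
      | zero => intro x; exact bot_le
      | succ n ih =>
        intro x
        show TY μ Y (bs z 0) (itY μ Y (bs z 0) n (fun _ => 0)) x ≤ _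
        unfold TY
        split_ifs
        · calc gen μ (itY μ Y (bs z 0) n (fun _ => 0)) x ≤ gen μ (ext μ Set.univ) x :=
                gen_mono μ ih x
            _ = ext μ Set.univ x := by rw [(ext_mem μ Set.univ).2]
        · unfold bs
          simp
    exact h2 n x0
  have h1 : wmin μ Y (bs z 1) x0 = z x0 := by
    have hbs : bs z 1 = z := by
      funext x; unfold bs; simp
    have hzf : TY μ Y (bs z 1) z = z := by
      funext x
      unfold TY
      split_ifs
      · rw [hz.2]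
      · rw [hbs]
    exact le_antisymm
      (TY_unique μ hirr hY hne (hb 1) (hb1 1) hzf (wmin_fixed μ (hb 1)) hz.1
        (wmin_le_one μ (hb 1)) x0)
      (TY_unique μ hirr hY hne (hb 1) (hb1 1) (wmin_fixed μ (hb 1)) hzf
        (wmin_le_one μ (hb 1)) hz.1 x0)
  have hivt := intermediate_value_Icc (α := ℝ≥0∞) (a := 0) (b := 1) zero_le_one
    (f := fun s => wmin μ Y (bs z s) x0) hcont.continuousOn
  obtain ⟨s, _, hs⟩ := hivt (show t ∈ Set.Icc _ _ from ⟨h0, by rw [h1]; exact ht'⟩)
  refine ⟨wmin μ Y (bs z s), wmin_le_one μ (hb s), fun x hx => ?_, fun _ => hs⟩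
  have := congrFun (wmin_fixed μ (Y := Y) (hb s)) x
  unfold TY at this
  rw [if_pos hx] at this
  exact this

/-- on an infinite state space all intermediate values are attained by fixed points -/
lemma exists_fixed [Infinite X] (hirr : Irred μ) {z : X → ℝ≥0∞}
    (hz : z ∈ FG μ) (hz1 : ∀ x, z x < 1) (x0 : X) (t : ℝ≥0∞) (ht : ext μ Set.univ x0 ≤ t)
    (ht' : t ≤ z x0) : ∃ w ∈ FG μ, w x0 = t := by
  classical
  set B : Set (X → ℝ≥0∞) := {w | ∀ x, w x ≤ 1} with hB
  have hBc : IsClosed B := by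
    have : B = ⋂ x, {w | w x ≤ 1} := by ext w; simp [hB]
    rw [this]
    exact isClosed_iInter fun x => isClosed_le (continuous_apply x) continuous_const
  set K : Finset X → Set (X → ℝ≥0∞) := fun Y => {w | w ∈ B ∧ (∀ x ∈ Y, gen μ w x = w x) ∧
    w x0 = t} with hK
  have hKc : ∀ Y, IsClosed (K Y) := by
    intro Y
    have h1 : ∀ x, IsClosed (B ∩ (fun w => (gen μ w x, w x)) ⁻¹' (Set.diagonal ℝ≥0∞)) := by
      intro x
      apply ContinuousOn.preimage_isClosed_of_isClosed _ hBc isClosed_diagonal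
      apply ContinuousOn.prodMk
      · intro w hw
        exact tendsto_gen μ (l := 𝓝[B] w) (z := fun w' => w') (z' := w)
          (fun x => ((continuous_apply x).continuousWithinAt (s := B) (x := w)))
          (eventually_nhdsWithin_of_forall fun w' hw' => hw') hw x
      · exact (continuous_apply x).continuousOn
    have h2 : K Y = (⋂ x ∈ Y, (B ∩ (fun w => (gen μ w x, w x)) ⁻¹' (Set.diagonal ℝ≥0∞))) ∩
        (B ∩ {w | w x0 = t}) := by
      ext w
      simp only [hK, Set.mem_ofPred_eq, Set.mem_inter_iff, Set.mem_iInter, Set.mem_preimage,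
        Set.mem_diagonal_iff]
      constructor
      · rintro ⟨h3, h4, h5⟩
        exact ⟨fun x hx => ⟨h3, h4 x hx⟩, h3, h5⟩
      · rintro ⟨h3, h4, h5⟩
        exact ⟨h4, fun x hx => (h3 x hx).2, h5⟩
    rw [h2]
    refine IsClosed.inter (isClosed_biInter fun x _ => h1 x) (hBc.inter ?_)
    exact isClosed_eq (continuous_apply x0) continuous_const
  have hne : (⋂ Y, K Y).Nonempty := by
    apply IsCompact.nonempty_iInter_of_directed_nonempty_isCompact_isClosed
    · intro Y Y'
      refine ⟨Y ∪ Y', ?_, ?_⟩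
      · rintro w ⟨h1, h2, h3⟩
        exact ⟨h1, fun x hx => h2 x (Finset.mem_union_left _ hx), h3⟩
      · rintro w ⟨h1, h2, h3⟩
        exact ⟨h1, fun x hx => h2 x (Finset.mem_union_right _ hx), h3⟩
    · intro Y
      obtain ⟨y, hy⟩ := Infinite.exists_notMem_finset (insert x0 Y)
      obtain ⟨w, hw1, hw2, hw3⟩ := exists_box μ (Y := ((insert x0 Y : Finset X) : Set X)) hirr
        (Finset.finite_toSet _) ⟨y, by exact_mod_cast hy⟩ hz hz1 x0 t ht ht'
      refine ⟨w, hw1, fun x hx => hw2 x ?_, hw3 ?_⟩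
      · exact_mod_cast Finset.mem_insert_of_mem hx
      · exact_mod_cast Finset.mem_insert_self _ _
    · intro Y
      exact (hKc Y).isCompact
    · exact hKc
  obtain ⟨w, hw⟩ := hne
  rw [Set.mem_iInter] at hw
  refine ⟨w, ⟨(hw ∅).1, ?_⟩, (hw ∅).2.2⟩
  funext x
  exact (hw {x}).2.1 x (Finset.mem_singleton_self x)

/-- infinite state space -/
lemma infinite_case [Infinite X] (hirr : Irred μ) (hfin : (FG μ).Finite) {z : X → ℝ≥0∞}
    (hz : z ∈ FG μ) (hne : z ≠ fun _ => 1) (x : X) : z x ≤ ext μ Set.univ x := by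
  by_contra hc
  rw [not_le] at hc
  have hz1 := lt_one_of_ne μ hirr hz hne
  have h1 : Set.Ioo (ext μ Set.univ x) (z x) ⊆ (fun w : X → ℝ≥0∞ => w x) '' (FG μ) := by
    intro t ht
    obtain ⟨w, hw1, hw2⟩ := exists_fixed μ hirr hz hz1 x t ht.1.le ht.2.le
    exact ⟨w, hw1, hw2⟩
  exact (Set.Ioo_infinite hc) ((hfin.image _).subset h1)

/-! ### Finite state spaces -/

omit [Countable X] in
lemma TY_univ (b w : X → ℝ≥0∞) : TY μ Set.univ b w = gen μ w := by
  funext x
  unfold TY
  rw [if_pos (Set.mem_univ x)]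

/-- finite state space -/
lemma finite_case [Finite X] (hirr : Irred μ) (hfin : (FG μ).Finite) {z : X → ℝ≥0∞}
    (hz : z ∈ FG μ) (hne : z ≠ fun _ => 1) (x : X) : z x ≤ ext μ Set.univ x := by
  have := Fintype.ofFinite X
  set u := ext μ Set.univ with hu
  have huF : u ∈ FG μ := ext_mem μ Set.univ
  have huz : ∀ x, u x ≤ z x := ext_univ_le μ hz
  have hz1 := lt_one_of_ne μ hirr hz hne
  set c : ℝ≥0∞ := Finset.univ.sup z with hc
  have hzc : ∀ x, z x ≤ c := fun x => Finset.le_sup (Finset.mem_univ x)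
  have hc1 : c < 1 := by
    rw [hc, Finset.sup_lt_iff (by exact zero_lt_one)]
    exact fun x _ => hz1 x
  rcases eq_or_ne c 0 with hc0 | hc0
  · calc z x ≤ c := hzc x
      _ = 0 := hc0
      _ ≤ u x := bot_le
  have hκ : (1 - c) + c = 1 := tsub_add_cancel_of_le hc1.le
  set W : X → ℝ≥0∞ := fun x => (1 - c) * u x + c * 1 with hW
  have hWc : ∀ x, c ≤ W x := fun x => by
    simp only [hW]; rw [mul_one]; exact le_add_self
  have hW0 : ∀ x, W x ≠ 0 := fun x h => hc0 (le_antisymm (h ▸ hWc x) bot_le)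
  have hW1 : ∀ x, W x ≤ 1 := fun x => by
    calc W x ≤ (1 - c) * 1 + c * 1 := by
          simp only [hW]
          gcongr
          exact huF.1 x
      _ = 1 := by rw [mul_one, mul_one, hκ]
  have huW : ∀ x, u x ≤ W x := fun x => ((huz x).trans (hzc x)).trans (hWc x)
  have hgW : ∀ x, gen μ W x ≤ W x := fun x => by
    calc gen μ W x ≤ (1 - c) * gen μ u x + c * gen μ (fun _ => 1) x :=
          gen_conv μ hκ huF.1 x
      _ = W x := by rw [huF.2, gen_one]
  -- `W` is not a fixed point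
  have hstrict : ∃ x1, gen μ W x1 < W x1 := by
    by_contra hcon
    push Not at hcon
    have hWeq : ∀ x, gen μ W x = W x := fun x => le_antisymm (hgW x) (hcon x)
    -- the fixed points `a u + s`
    have hfam : ∀ l : ℝ≥0∞, l < c → ((fun x => (1 - c) / (1 - l) * u x + (c - l) / (1 - l) * 1) :
        X → ℝ≥0∞) ∈ FG μ := by
      intro l hl
      have hl1 : l < 1 := hl.trans hc1
      have hk0 : 1 - l ≠ 0 := (tsub_pos_of_lt hl1).ne'
      have hkt : 1 - l ≠ ⊤ := ne_top_of_le_ne_top ENNReal.one_ne_top tsub_le_self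
      have hkl : (1 - l) + l = 1 := tsub_add_cancel_of_le hl1.le
      have hsum : (1 - c) / (1 - l) + (c - l) / (1 - l) = 1 := by
        rw [← ENNReal.add_div]
        have h1 : (1 - c) + (c - l) = 1 - l := by
          have h2 : (1 - c) + (c - l) + l = (1 - l) + l := by
            rw [add_assoc, tsub_add_cancel_of_le hl.le, hκ, hkl]
          exact (ENNReal.add_left_inj hl.ne_top).mp h2
        rw [h1, ENNReal.div_self hk0 hkt]
      set L : X → ℝ≥0∞ := fun x => (1 - c) / (1 - l) * u x + (c - l) / (1 - l) * 1 with hL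
      have hL1 : ∀ x, L x ≤ 1 := fun x => by
        calc L x ≤ (1 - c) / (1 - l) * 1 + (c - l) / (1 - l) * 1 := by
              simp only [hL]
              gcongr
              exact huF.1 x
          _ = 1 := by rw [mul_one, mul_one, hsum]
      have hgL : ∀ x, gen μ L x ≤ L x := fun x => by
        calc gen μ L x ≤ (1 - c) / (1 - l) * gen μ u x + (c - l) / (1 - l) * gen μ (fun _ => 1) x :=
              gen_conv μ hsum huF.1 x
          _ = L x := by rw [huF.2, gen_one]
      have hWL : W = fun x => (1 - l) * L x + l * 1 := by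
        funext x
        simp only [hW, hL]
        rw [mul_add, ← mul_assoc, ← mul_assoc, ENNReal.mul_div_cancel hk0 hkt,
          ENNReal.mul_div_cancel hk0 hkt, add_assoc, ← add_mul, tsub_add_cancel_of_le hl.le]
      refine ⟨hL1, ?_⟩
      funext x
      refine le_antisymm (hgL x) ?_
      by_contra hlt
      rw [not_le] at hlt
      have h1 : gen μ W x ≤ (1 - l) * gen μ L x + l * gen μ (fun _ => 1) x := by
        rw [hWL]
        exact gen_conv μ hkl hL1 x
      rw [hWeq x, gen_one] at h1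
      have h2 : (1 - l) * gen μ L x + l * 1 < (1 - l) * L x + l * 1 := by
        rw [mul_one]
        exact ENNReal.add_lt_add_right hl.ne_top (ENNReal.mul_lt_mul_right hk0 hkt hlt)
      have h3 : W x = (1 - l) * L x + l * 1 := congrFun hWL x
      rw [h3] at h1
      exact absurd (lt_of_le_of_lt h1 h2) (lt_irrefl _)
    have hinj : Set.InjOn (fun l : ℝ≥0∞ => ((fun x => (1 - c) / (1 - l) * u x +
        (c - l) / (1 - l) * 1) : X → ℝ≥0∞)) (Set.Ioo 0 c) := by
      intro l hl l' hl' heq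
      have key : ∀ l, l ∈ Set.Ioo 0 c →
          (1 - l) * ((1 - c) / (1 - l) * u x + (c - l) / (1 - l) * 1) + l = W x ∧
          (1 - c) / (1 - l) * u x + (c - l) / (1 - l) * 1 < 1 := by
        intro l hl
        have hl1 : l < 1 := hl.2.trans hc1
        have hk0 : 1 - l ≠ 0 := (tsub_pos_of_lt hl1).ne'
        have hkt : 1 - l ≠ ⊤ := ne_top_of_le_ne_top ENNReal.one_ne_top tsub_le_self
        constructor
        · simp only [hW]
          rw [mul_add, ← mul_assoc, ← mul_assoc, ENNReal.mul_div_cancel hk0 hkt,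
            ENNReal.mul_div_cancel hk0 hkt, mul_one, mul_one, add_assoc,
            tsub_add_cancel_of_le hl.2.le]
        · have hsum : (1 - c) / (1 - l) + (c - l) / (1 - l) = 1 := by
            rw [← ENNReal.add_div]
            have h1 : (1 - c) + (c - l) = 1 - l := by
              have h2 : (1 - c) + (c - l) + l = (1 - l) + l := by
                rw [add_assoc, tsub_add_cancel_of_le hl.2.le, hκ, tsub_add_cancel_of_le hl1.le]
              exact (ENNReal.add_left_inj hl.2.ne_top).mp h2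
            rw [h1, ENNReal.div_self hk0 hkt]
          have ha0 : (1 - c) / (1 - l) ≠ 0 := by
            rw [Ne, ENNReal.div_eq_zero_iff, not_or]
            exact ⟨(tsub_pos_of_lt hc1).ne', hkt⟩
          have hat : (1 - c) / (1 - l) ≠ ⊤ := by
            refine ne_top_of_le_ne_top ENNReal.one_ne_top ?_
            calc (1 - c) / (1 - l) ≤ (1 - c) / (1 - l) + (c - l) / (1 - l) := le_self_add
              _ = 1 := hsum
          have hst : (c - l) / (1 - l) * 1 ≠ ⊤ := by
            rw [mul_one]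
            refine ne_top_of_le_ne_top ENNReal.one_ne_top ?_
            calc (c - l) / (1 - l) ≤ (1 - c) / (1 - l) + (c - l) / (1 - l) := le_add_self
              _ = 1 := hsum
          calc (1 - c) / (1 - l) * u x + (c - l) / (1 - l) * 1
              < (1 - c) / (1 - l) * 1 + (c - l) / (1 - l) * 1 :=
                ENNReal.add_lt_add_right hst (ENNReal.mul_lt_mul_right ha0 hat
                  (lt_of_le_of_lt (huz x) (hz1 x)))
            _ = 1 := by rw [mul_one, mul_one, hsum]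
      have h1 := key l hl
      have h2 := key l' hl'
      have h3 : (1 - c) / (1 - l) * u x + (c - l) / (1 - l) * 1 =
          (1 - c) / (1 - l') * u x + (c - l') / (1 - l') * 1 := congrFun heq x
      rw [← h3] at h2
      set v := (1 - c) / (1 - l) * u x + (c - l) / (1 - l) * 1 with hv
      have h4 : (1 - l) * v + l = (1 - l') * v + l' := h1.1.trans h2.1.symm
      have hvt : v ≠ ⊤ := ne_top_of_le_ne_top ENNReal.one_ne_top h1.2.le
      have hl1 : l < 1 := hl.2.trans hc1
      have hl1' : l' < 1 := hl'.2.trans hc1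
      have h5 := congrArg ENNReal.toReal h4
      rw [ENNReal.toReal_add (ENNReal.mul_ne_top (ne_top_of_le_ne_top ENNReal.one_ne_top
        tsub_le_self) hvt) hl.2.ne_top, ENNReal.toReal_add (ENNReal.mul_ne_top
        (ne_top_of_le_ne_top ENNReal.one_ne_top tsub_le_self) hvt) hl'.2.ne_top,
        ENNReal.toReal_mul, ENNReal.toReal_mul, ENNReal.toReal_sub_of_le hl1.le
        ENNReal.one_ne_top, ENNReal.toReal_sub_of_le hl1'.le ENNReal.one_ne_top,
        ENNReal.toReal_one] at h5
      have h6 : v.toReal < 1 := by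
        have := (ENNReal.toReal_lt_toReal hvt ENNReal.one_ne_top).mpr h1.2
        simpa using this
      have h7 : l.toReal = l'.toReal := by
        have h8 : (l.toReal - l'.toReal) * (1 - v.toReal) = 0 := by linarith
        rcases mul_eq_zero.mp h8 with h9 | h9
        · linarith
        · linarith
      exact (ENNReal.toReal_eq_toReal_iff' hl.2.ne_top hl'.2.ne_top).mp h7
    exact (Set.infinite_of_injOn_mapsTo hinj (fun l hl => hfam l hl.2)
      (Set.Ioo_infinite (pos_iff_ne_zero.mpr hc0))) hfin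
  obtain ⟨x1, hx1⟩ := hstrict
  have hit_anti : ∀ x, Antitone fun n => itY μ Set.univ (fun _ => 1) n W x := by
    intro x
    refine antitone_nat_of_succ_le fun n => ?_
    induction n generalizing x with
    | zero =>
      show TY μ Set.univ (fun _ => 1) W x ≤ W x
      rw [TY_univ]; exact hgW x
    | succ n ih => exact TY_mono μ ih x
  have hall : ∀ x, ∃ N : ℕ, itY μ Set.univ (fun _ => 1) N W x < W x := by
    intro x
    have h2 := hirr x x1
    induction h2 using Relation.ReflTransGen.head_induction_on with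
    | refl =>
      refine ⟨1, ?_⟩
      show TY μ Set.univ (fun _ => 1) W x1 < W x1
      rw [TY_univ]; exact hx1
    | @head a e hae _ ih =>
      obtain ⟨N, hN⟩ := ih
      refine ⟨N + 1, ?_⟩
      show TY μ Set.univ (fun _ => 1) (itY μ Set.univ (fun _ => 1) N W) a < W a
      rw [TY_univ]
      exact lt_of_lt_of_le (gen_lt μ (fun v => hit_anti v (Nat.zero_le N)) hW1 hW0 hae hN) (hgW a)
  choose Nx hNx using hall
  set N := Finset.univ.sup Nx with hN
  set θ : ℝ≥0∞ := Finset.univ.sup fun x => itY μ Set.univ (fun _ => 1) N W x / W x with hθ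
  have hWt : ∀ x, W x ≠ ⊤ := fun x => ne_top_of_le_ne_top ENNReal.one_ne_top (hW1 x)
  have hθ1 : θ < 1 := by
    rw [hθ, Finset.sup_lt_iff (by exact zero_lt_one)]
    intro x _
    rw [ENNReal.div_lt_iff (Or.inl (hW0 x)) (Or.inl (hWt x)), one_mul]
    exact lt_of_le_of_lt (hit_anti x (Finset.le_sup (Finset.mem_univ x))) (hNx x)
  refine le_of_contract μ (Y := Set.univ) (b := fun _ => 1) (u := u) (v := z) (W := W)
    (by rw [TY_univ]; exact huF.2) (by rw [TY_univ]; exact hz.2) huW
    (fun x => (hzc x).trans (hWc x)) hW1 N θ hθ1 (fun x => ?_) x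
  have h1 : itY μ Set.univ (fun _ => 1) N W x / W x ≤ θ :=
    Finset.le_sup (f := fun x => itY μ Set.univ (fun _ => 1) N W x / W x) (Finset.mem_univ x)
  rw [ENNReal.div_le_iff (hW0 x) (hWt x)] at h1
  exact h1.trans le_add_self

end Interp

end Pool.Agent.V11323.BRW
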