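import Pool.Agent.V11323.BRW

/-!
# Branching random walks: extinction probabilities and the generating function
-/

set_option autoImplicit false

open MeasureTheory ProbabilityTheory Filter Topology
open scoped ENNReal NNReal

namespace Pool.Agent.V11323.BRW

variable {X : Type}

/-! ### Shifting an infinite product -/

section Cons

variable {W : Type} [MeasurableSpace W] (π : Measure W) [IsProbabilityMeasure π]

/-- prepend -/
def cns (e : W) (ξ : ℕ → W) : ℕ → W
  | 0 => e
  | n + 1 => ξ n

lemma meas_cns : Measurable (fun p : W × (ℕ → W) => cns p.1 p.2) := by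
  refine measurable_pi_lambda _ fun n => ?_
  cases n with
  | zero => exact measurable_fst
  | succ n => exact (measurable_pi_apply n).comp measurable_snd

lemma map_cns : (π.prod (Measure.infinitePi fun _ : ℕ => π)).map
    (fun p : W × (ℕ → W) => cns p.1 p.2) = Measure.infinitePi fun _ : ℕ => π := by
  refine Measure.eq_infinitePi _ fun s t ht => ?_
  classical
  set t' : ℕ → Set W := fun i => if i ∈ s then t i else Set.univ with ht'
  obtain ⟨N, hN⟩ : ∃ N, s ⊆ Finset.range (N + 1) := by
    refine ⟨s.sup id, fun i hi => ?_⟩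
    rw [Finset.mem_range]
    exact Nat.lt_succ_of_le (Finset.le_sup (f := id) hi)
  have h1 : Set.pi (s : Set ℕ) t = Set.pi (Finset.range (N + 1) : Finset ℕ) t' := by
    ext ξ
    simp only [Set.mem_pi, Finset.mem_coe, ht']
    constructor
    · intro h i _
      split_ifs with h2
      · exact h i h2
      · trivial
    · intro h i hi
      have := h i (hN hi)
      rwa [if_pos hi] at this
  have h2 : ∏ i ∈ s, π (t i) = ∏ i ∈ Finset.range (N + 1), π (t' i) := by
    rw [← Finset.prod_subset hN]
    · refine Finset.prod_congr rfl fun i hi => ?_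
      simp only [ht']
      rw [if_pos hi]
    · intro i _ hi
      simp only [ht']
      rw [if_neg hi, measure_univ]
  have hmt : ∀ i, MeasurableSet (t' i) := by
    intro i
    simp only [ht']
    split_ifs with h
    · exact ht i
    · exact MeasurableSet.univ
  rw [h1, h2, Measure.map_apply meas_cns]
  · have h3 : (fun p : W × (ℕ → W) => cns p.1 p.2) ⁻¹'
        (Set.pi (Finset.range (N + 1) : Finset ℕ) t') =
        t' 0 ×ˢ (Set.pi (Finset.range N : Finset ℕ) fun i => t' (i + 1)) := by
      ext ⟨e, ξ⟩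
      simp only [Set.mem_preimage, Set.mem_pi, Finset.mem_coe, Finset.mem_range, Set.mem_prod]
      constructor
      · intro h
        exact ⟨h 0 (by omega), fun i hi => h (i + 1) (by omega)⟩
      · rintro ⟨h3, h4⟩ i hi
        cases i with
        | zero => exact h3
        | succ i => exact h4 i (by omega)
    rw [h3, Measure.prod_prod, Finset.prod_range_succ', mul_comm]
    congr 1
    rw [Measure.infinitePi_pi]
    intro i _
    exact hmt _
  · exact MeasurableSet.pi (Finset.countable_toSet _) fun i _ => hmt i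

lemma first_gen (A : Set (ℕ → W)) (hA : MeasurableSet A) :
    (Measure.infinitePi fun _ : ℕ => π) A =
      ∫⁻ w, (Measure.infinitePi fun _ : ℕ => π) {ξ | cns w ξ ∈ A} ∂π := by
  conv_lhs => rw [← map_cns]
  rw [Measure.map_apply meas_cns hA, Measure.prod_apply (meas_cns hA)]
  rfl

end Cons

/-! ### Monomials -/

/-- the monomial `∏ z(y) ^ f(y)` -/
noncomputable def Zp (z : X → ℝ≥0∞) (f : X →₀ ℕ) : ℝ≥0∞ := f.prod (fun y k => z y ^ k)

lemma Zp_zero (z : X → ℝ≥0∞) : Zp z 0 = 1 := Finsupp.prod_zero_index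

lemma Zp_add (z : X → ℝ≥0∞) (a b : X →₀ ℕ) : Zp z (a + b) = Zp z a * Zp z b := by
  unfold Zp
  exact Finsupp.prod_add_index' (fun _ => pow_zero _) (fun _ _ _ => pow_add _ _ _)

lemma Zp_single (z : X → ℝ≥0∞) (x : X) : Zp z (Finsupp.single x 1) = z x := by
  unfold Zp
  rw [Finsupp.prod_single_index]
  · exact pow_one _
  · exact pow_zero _

lemma Zp_sum {ι : Type} (z : X → ℝ≥0∞) (s : Finset ι) (f : ι → (X →₀ ℕ)) :
    Zp z (∑ i ∈ s, f i) = ∏ i ∈ s, Zp z (f i) := by
  classical
  induction s using Finset.induction_on with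
  | empty => simp [Zp_zero]
  | insert a s ha ih => rw [Finset.sum_insert ha, Finset.prod_insert ha, Zp_add, ih]

lemma Zp_mono {z z' : X → ℝ≥0∞} (h : ∀ x, z x ≤ z' x) (f : X →₀ ℕ) : Zp z f ≤ Zp z' f := by
  unfold Zp Finsupp.prod
  exact Finset.prod_le_prod' fun y _ => pow_le_pow_left' (h y) _

lemma Zp_one (f : X →₀ ℕ) : Zp (fun _ => 1) f = 1 := by
  unfold Zp Finsupp.prod
  simp

lemma Zp_le_one {z : X → ℝ≥0∞} (h : ∀ x, z x ≤ 1) (f : X →₀ ℕ) : Zp z f ≤ 1 := by
  rw [← Zp_one f]
  exact Zp_mono h f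

lemma gen_eq [Countable X] (μ : X → PMF (X →₀ ℕ)) (z : X → ℝ≥0∞) (x : X) :
    gen μ z x = ∫⁻ f, Zp z f ∂(μ x).toMeasure := by
  unfold gen
  rw [lintegral_countable']
  refine tsum_congr fun f => ?_
  rw [PMF.toMeasure_apply_singleton _ _ (measurableSet_singleton _), mul_comm]
  rfl

lemma gen_mono (μ : X → PMF (X →₀ ℕ)) {z z' : X → ℝ≥0∞} (h : ∀ x, z x ≤ z' x) (x : X) :
    gen μ z x ≤ gen μ z' x := by
  unfold gen
  exact ENNReal.tsum_le_tsum fun f => mul_le_mul_right (Zp_mono h f) _

lemma gen_one (μ : X → PMF (X →₀ ℕ)) (x : X) : gen μ (fun _ => 1) x = 1 := by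
  unfold gen
  have : ∀ f : X →₀ ℕ, μ x f * f.prod (fun _ k => (1 : ℝ≥0∞) ^ k) = μ x f := by
    intro f
    have := Zp_one f
    unfold Zp at this
    rw [this, mul_one]
  simp only [this]
  exact PMF.tsum_coe _

lemma gen_le_one (μ : X → PMF (X →₀ ℕ)) {z : X → ℝ≥0∞} (h : ∀ x, z x ≤ 1) (x : X) :
    gen μ z x ≤ 1 := by
  rw [← gen_one μ x]
  exact gen_mono μ h x

/-! ### Branching property -/

variable (μ : X → PMF (X →₀ ℕ))

instance : IsProbabilityMeasure (noise μ) := by unfold noise; infer_instance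

instance : IsProbabilityMeasure (law μ) := by unfold law; infer_instance

lemma Zp_next (z : X → ℝ≥0∞) (η : X →₀ ℕ) (w : X × ℕ → (X →₀ ℕ)) :
    Zp z (next η w) = ∏ x ∈ η.support, ∏ i ∈ Finset.range (η x), Zp z (w (x, i)) := by
  unfold next Finsupp.sum
  rw [Zp_sum]
  refine Finset.prod_congr rfl fun x _ => ?_
  rw [Zp_sum]

variable [Countable X]

instance : MeasurableAdd₂ (X →₀ ℕ) := ⟨Measurable.of_discrete⟩

lemma meas_next (η : X →₀ ℕ) : Measurable (next η) := by
  unfold next Finsupp.sum
  exact Finset.measurable_sum _ fun x _ => Finset.measurable_sum _ fun i _ =>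
    measurable_pi_apply _

lemma meas_proc (η : X →₀ ℕ) (n : ℕ) : Measurable (fun ω => proc η ω n) := by
  induction n with
  | zero => exact measurable_const
  | succ n ih =>
    have h1 : Measurable (fun q : (X →₀ ℕ) × (X × ℕ → (X →₀ ℕ)) => next q.1 q.2) :=
      measurable_from_prod_countable_right fun η' => meas_next η'
    exact h1.comp (ih.prodMk (measurable_pi_apply n))

lemma branch (z : X → ℝ≥0∞) (η : X →₀ ℕ) :
    ∫⁻ w, Zp z (next η w) ∂(noise μ) = Zp (gen μ z) η := by
  classical
  set N := η.support.sup η with hN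
  set g : X × ℕ → (X →₀ ℕ) → ℝ≥0∞ := fun p f => if p.2 < η p.1 then Zp z f else 1 with hg
  have h1 : ∀ w : X × ℕ → (X →₀ ℕ), Zp z (next η w) =
      ∏ p ∈ η.support ×ˢ Finset.range N, g p (w p) := by
    intro w
    rw [Zp_next, Finset.prod_product]
    refine Finset.prod_congr rfl fun x hx => ?_
    have h2 : Finset.range (η x) ⊆ Finset.range N := Finset.range_mono (Finset.le_sup hx)
    rw [← Finset.prod_subset h2]
    · refine Finset.prod_congr rfl fun i hi => ?_
      simp only [hg]
      rw [if_pos (Finset.mem_range.mp hi)]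
    · intro i _ hi
      simp only [hg]
      rw [if_neg]
      intro h
      exact hi (Finset.mem_range.mpr h)
  simp only [h1]
  have hind : iIndepFun (fun (p : X × ℕ) (w : X × ℕ → (X →₀ ℕ)) => g p (w p)) (noise μ) :=
    iIndepFun_infinitePi (P := fun p : X × ℕ => (μ p.1).toMeasure)
      (X := fun p f => g p f) (fun _ => Measurable.of_discrete)
  rw [lintegral_prod_eq_prod_lintegral_of_indepFun _ _ hind]
  · have h3 : ∀ p : X × ℕ, ∫⁻ w, g p (w p) ∂(noise μ) =
        if p.2 < η p.1 then gen μ z p.1 else 1 := by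
      intro p
      have h4 := (measurePreserving_eval_infinitePi
        (fun p : X × ℕ => (μ p.1).toMeasure) p).lintegral_comp
        (f := g p) Measurable.of_discrete
      have h5 : ∫⁻ w, g p (w p) ∂(noise μ) = ∫⁻ f, g p f ∂(μ p.1).toMeasure := h4
      rw [h5]
      simp only [hg]
      split_ifs
      · rw [gen_eq]
      · simp
    simp only [h3]
    rw [Finset.prod_product]
    unfold Zp Finsupp.prod
    refine Finset.prod_congr rfl fun x hx => ?_
    have h2 : Finset.range (η x) ⊆ Finset.range N := Finset.range_mono (Finset.le_sup hx)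
    rw [← Finset.prod_subset h2]
    · rw [Finset.prod_congr rfl (g := fun _ => gen μ z x)]
      · rw [Finset.prod_const, Finset.card_range]
      · intro i hi
        rw [if_pos (Finset.mem_range.mp hi)]
    · intro i _ hi
      rw [if_neg]
      intro h
      exact hi (Finset.mem_range.mpr h)
  · intro p
    exact (Measurable.of_discrete (f := g p)).comp (measurable_pi_apply p)

/-! ### Avoiding a set -/

open Classical in
/-- `g` killed on `A` -/
noncomputable def kill (A : Set X) (g : X → ℝ≥0∞) (x : X) : ℝ≥0∞ := if x ∈ A then 0 else g x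

/-- no particle in `A` -/
def NoA (A : Set X) (η : X →₀ ℕ) : Prop := ∀ y ∈ A, η y = 0

open Classical in
omit [Countable X] in
lemma Zp_kill (A : Set X) (g : X → ℝ≥0∞) (η : X →₀ ℕ) :
    Zp (kill A g) η = if NoA A η then Zp g η else 0 := by
  split_ifs with h
  · unfold Zp Finsupp.prod
    refine Finset.prod_congr rfl fun y hy => ?_
    have h2 : kill A g y = g y := by
      unfold kill
      rw [if_neg]
      intro hyA
      exact (Finsupp.mem_support_iff.mp hy) (h y hyA)
    simp only [h2]
  · unfold NoA at h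
    push Not at h
    obtain ⟨y, hyA, hy⟩ := h
    unfold Zp Finsupp.prod
    apply Finset.prod_eq_zero (i := y) (Finsupp.mem_support_iff.mpr hy)
    have h2 : kill A g y = 0 := by
      unfold kill
      rw [if_pos hyA]
    simp only [h2]
    exact zero_pow hy

/-- probability of no particle in `A` up to time `m` -/
noncomputable def av (A : Set X) : ℕ → X → ℝ≥0∞
  | 0 => kill A (fun _ => 1)
  | m + 1 => kill A (gen μ (av A m))

omit [Countable X] in
lemma proc_cns (η : X →₀ ℕ) (w : X × ℕ → (X →₀ ℕ)) (ξ : ℕ → X × ℕ → (X →₀ ℕ)) (n : ℕ) :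
    proc η (cns w ξ) (n + 1) = proc (next η w) ξ n := by
  induction n with
  | zero => rfl
  | succ n ih =>
    rw [proc, ih, proc]
    rfl

lemma meas_noA (A : Set X) (η : X →₀ ℕ) (n : ℕ) :
    MeasurableSet {ω | NoA A (proc η ω n)} :=
  (meas_proc η n) (MeasurableSet.of_discrete (s := {η | NoA A η}))

lemma prob_av (A : Set X) (m : ℕ) (η : X →₀ ℕ) :
    law μ {ω | ∀ k ≤ m, NoA A (proc η ω k)} = Zp (av μ A m) η := by
  classical
  induction m generalizing η with
  | zero =>
    have h1 : {ω : ℕ → X × ℕ → (X →₀ ℕ) | ∀ k ≤ 0, NoA A (proc η ω k)} =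
        {_ω | NoA A η} := by
      ext ω
      simp [proc]
    rw [h1, av, Zp_kill, Zp_one]
    split_ifs with h
    · simp [h]
    · simp [h]
  | succ m ih =>
    have hm : MeasurableSet {ω : ℕ → X × ℕ → (X →₀ ℕ) | ∀ k ≤ m + 1, NoA A (proc η ω k)} := by
      have : {ω : ℕ → X × ℕ → (X →₀ ℕ) | ∀ k ≤ m + 1, NoA A (proc η ω k)} =
          ⋂ k ∈ Finset.range (m + 2), {ω | NoA A (proc η ω k)} := by
        ext ω
        simp only [Set.mem_ofPred_eq, Set.mem_iInter, Finset.mem_range]
        exact forall_congr' fun k => by rw [Nat.lt_succ_iff]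
      rw [this]
      exact Finset.measurableSet_biInter _ fun k _ => meas_noA A η k
    unfold law
    rw [first_gen _ _ hm]
    have h2 : ∀ w : X × ℕ → (X →₀ ℕ), (Measure.infinitePi fun _ : ℕ => noise μ)
        {ξ | cns w ξ ∈ {ω : ℕ → X × ℕ → (X →₀ ℕ) | ∀ k ≤ m + 1, NoA A (proc η ω k)}} =
        if NoA A η then Zp (av μ A m) (next η w) else 0 := by
      intro w
      split_ifs with h
      · rw [← ih]
        unfold law
        congr 1
        ext ξ
        simp only [Set.mem_ofPred_eq]
        constructor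
        · intro h3 k hk
          have := h3 (k + 1) (by omega)
          rwa [proc_cns] at this
        · intro h3 k hk
          cases k with
          | zero => exact h
          | succ k =>
            rw [proc_cns]
            exact h3 k (by omega)
      · convert measure_empty (μ := Measure.infinitePi fun _ : ℕ => noise μ)
        rw [Set.eq_empty_iff_forall_notMem]
        intro ξ hξ
        exact h (hξ 0 (by omega))
    rw [lintegral_congr h2, av, Zp_kill]
    split_ifs with h
    · rw [branch]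
    · simp

omit [Countable X] in
lemma kill_mono (A : Set X) {g g' : X → ℝ≥0∞} (h : ∀ x, g x ≤ g' x) (x : X) :
    kill A g x ≤ kill A g' x := by
  unfold kill
  split_ifs
  · exact le_rfl
  · exact h x

omit [Countable X] in
lemma kill_le (A : Set X) (g : X → ℝ≥0∞) (x : X) : kill A g x ≤ g x := by
  unfold kill
  split_ifs
  · exact bot_le
  · exact le_rfl

omit [Countable X] in
lemma av_le_one (A : Set X) (m : ℕ) (x : X) : av μ A m x ≤ 1 := by
  induction m generalizing x with
  | zero =>
    unfold av kill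
    split_ifs <;> simp
  | succ m ih =>
    unfold av kill
    split_ifs
    · simp
    · exact gen_le_one μ ih x

omit [Countable X] in
lemma av_anti (A : Set X) (m : ℕ) (x : X) : av μ A (m + 1) x ≤ av μ A m x := by
  induction m generalizing x with
  | zero =>
    unfold av kill
    split_ifs
    · exact le_rfl
    · exact gen_le_one μ (av_le_one μ A 0) x
  | succ m ih =>
    unfold av kill
    split_ifs
    · exact le_rfl
    · exact gen_mono μ ih x

/-- probability of avoiding `A` forever -/
noncomputable def avi (A : Set X) (x : X) : ℝ≥0∞ := ⨅ m, av μ A m x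

omit [Countable X] in
lemma avi_le_one (A : Set X) (x : X) : avi μ A x ≤ 1 :=
  (iInf_le _ 0).trans (av_le_one μ A 0 x)

omit [Countable X] in
lemma av_antitone (A : Set X) (x : X) : Antitone fun m => av μ A m x :=
  antitone_nat_of_succ_le fun m => av_anti μ A m x

omit [Countable X] in
lemma tendsto_Zp {ι : Type} {l : Filter ι} {z : ι → X → ℝ≥0∞} {z' : X → ℝ≥0∞}
    (h : ∀ x, Tendsto (fun i => z i x) l (𝓝 (z' x))) (h1 : ∀ i x, z i x ≤ 1)
    (h1' : ∀ x, z' x ≤ 1) (f : X →₀ ℕ) :
    Tendsto (fun i => Zp (z i) f) l (𝓝 (Zp z' f)) := by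
  classical
  unfold Zp Finsupp.prod
  have key : ∀ s : Finset X, Tendsto (fun i => ∏ y ∈ s, z i y ^ f y) l
      (𝓝 (∏ y ∈ s, z' y ^ f y)) ∧ ∏ y ∈ s, z' y ^ f y ≠ ⊤ := by
    intro s
    induction s using Finset.induction_on with
    | empty => exact ⟨by simpa using tendsto_const_nhds, by simp⟩
    | insert a s ha ih =>
      have h3 : Tendsto (fun i => z i a ^ f a) l (𝓝 (z' a ^ f a)) :=
        (ENNReal.continuous_pow (f a)).continuousAt.tendsto.comp (h a)
      have h4 : z' a ^ f a ≠ ⊤ := ENNReal.pow_ne_top (ne_top_of_le_ne_top ENNReal.one_ne_top (h1' a))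
      simp only [Finset.prod_insert ha]
      exact ⟨ENNReal.Tendsto.mul h3 (Or.inr ih.2) ih.1 (Or.inr h4), ENNReal.mul_ne_top h4 ih.2⟩
  exact (key f.support).1

lemma prob_avi (A : Set X) (η : X →₀ ℕ) :
    law μ {ω | ∀ k, NoA A (proc η ω k)} = Zp (avi μ A) η := by
  have h1 : {ω : ℕ → X × ℕ → (X →₀ ℕ) | ∀ k, NoA A (proc η ω k)} =
      ⋂ m, {ω | ∀ k ≤ m, NoA A (proc η ω k)} := by
    ext ω
    simp only [Set.mem_ofPred_eq, Set.mem_iInter]
    exact ⟨fun h m k _ => h k, fun h k => h k k le_rfl⟩
  have hm : ∀ m, MeasurableSet {ω : ℕ → X × ℕ → (X →₀ ℕ) | ∀ k ≤ m, NoA A (proc η ω k)} := by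
    intro m
    have : {ω : ℕ → X × ℕ → (X →₀ ℕ) | ∀ k ≤ m, NoA A (proc η ω k)} =
        ⋂ k ∈ Finset.range (m + 1), {ω | NoA A (proc η ω k)} := by
      ext ω
      simp only [Set.mem_ofPred_eq, Set.mem_iInter, Finset.mem_range]
      exact forall_congr' fun k => by rw [Nat.lt_succ_iff]
    rw [this]
    exact Finset.measurableSet_biInter _ fun k _ => meas_noA A η k
  have h2 : Tendsto (fun m => law μ {ω | ∀ k ≤ m, NoA A (proc η ω k)}) atTop
      (𝓝 (law μ (⋂ m, {ω | ∀ k ≤ m, NoA A (proc η ω k)}))) := by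
    apply tendsto_measure_iInter_atTop
    · exact fun m => (hm m).nullMeasurableSet
    · intro m n hmn ω hω k hk
      exact hω k (hk.trans hmn)
    · exact ⟨0, measure_ne_top _ _⟩
  rw [← h1] at h2
  simp only [prob_av] at h2
  refine tendsto_nhds_unique h2 ?_
  exact tendsto_Zp (fun x => tendsto_atTop_iInf (av_antitone μ A x)) (av_le_one μ A)
    (avi_le_one μ A) η

/-- iterates of the generating function -/
noncomputable def gi : ℕ → (X → ℝ≥0∞) → (X → ℝ≥0∞)
  | 0, z => z
  | n + 1, z => gen μ (gi n z)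

lemma prob_gi (A : Set X) (n : ℕ) (η : X →₀ ℕ) :
    law μ {ω | ∀ k, n ≤ k → NoA A (proc η ω k)} = Zp (gi μ n (avi μ A)) η := by
  induction n generalizing η with
  | zero =>
    simp only [Nat.zero_le, true_imp_iff, gi]
    exact prob_avi μ A η
  | succ n ih =>
    have hm : MeasurableSet {ω : ℕ → X × ℕ → (X →₀ ℕ) | ∀ k, n + 1 ≤ k → NoA A (proc η ω k)} := by
      have : {ω : ℕ → X × ℕ → (X →₀ ℕ) | ∀ k, n + 1 ≤ k → NoA A (proc η ω k)} =
          ⋂ k, {ω | n + 1 ≤ k → NoA A (proc η ω k)} := by
        ext ω; simp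
      rw [this]
      refine MeasurableSet.iInter fun k => ?_
      by_cases hk : n + 1 ≤ k
      · simp only [hk, true_imp_iff]
        exact meas_noA A η k
      · simp only [hk, false_imp_iff]
        exact MeasurableSet.univ
    unfold law
    rw [first_gen _ _ hm]
    have h2 : ∀ w : X × ℕ → (X →₀ ℕ), (Measure.infinitePi fun _ : ℕ => noise μ)
        {ξ | cns w ξ ∈ {ω : ℕ → X × ℕ → (X →₀ ℕ) | ∀ k, n + 1 ≤ k → NoA A (proc η ω k)}} =
        Zp (gi μ n (avi μ A)) (next η w) := by
      intro w
      rw [← ih]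
      unfold law
      congr 1
      ext ξ
      simp only [Set.mem_ofPred_eq]
      constructor
      · intro h3 k hk
        have := h3 (k + 1) (by omega)
        rwa [proc_cns] at this
      · intro h3 k hk
        cases k with
        | zero => omega
        | succ k =>
          rw [proc_cns]
          exact h3 k (by omega)
    rw [lintegral_congr h2, branch, gi]

/-- the extinction probabilities in terms of the generating function -/
lemma ext_eq (A : Set X) (x : X) : ext μ A x = ⨆ n, gi μ n (avi μ A) x := by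
  have h1 : {ω : ℕ → X × ℕ → (X →₀ ℕ) | ∃ᶠ n in atTop, ∃ y ∈ A,
      proc (Finsupp.single x 1) ω n y ≠ 0}ᶜ =
      ⋃ n, {ω | ∀ k, n ≤ k → NoA A (proc (Finsupp.single x 1) ω k)} := by
    ext ω
    simp only [Set.mem_compl_iff, Set.mem_ofPred_eq, Set.mem_iUnion, not_frequently,
      eventually_atTop, NoA]
    refine exists_congr fun n => forall_congr' fun k => ?_
    refine imp_congr Iff.rfl ?_
    push Not
    rfl
  have hm : ∀ n, MeasurableSet {ω : ℕ → X × ℕ → (X →₀ ℕ) |
      ∀ k, n ≤ k → NoA A (proc (Finsupp.single x 1) ω k)} := by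
    intro n
    have : {ω : ℕ → X × ℕ → (X →₀ ℕ) | ∀ k, n ≤ k → NoA A (proc (Finsupp.single x 1) ω k)} =
        ⋂ k, {ω | n ≤ k → NoA A (proc (Finsupp.single x 1) ω k)} := by
      ext ω; simp
    rw [this]
    refine MeasurableSet.iInter fun k => ?_
    by_cases hk : n ≤ k
    · simp only [hk, true_imp_iff]
      exact meas_noA A _ k
    · simp only [hk, false_imp_iff]
      exact MeasurableSet.univ
  have hmeas : MeasurableSet {ω : ℕ → X × ℕ → (X →₀ ℕ) | ∃ᶠ n in atTop, ∃ y ∈ A,
      proc (Finsupp.single x 1) ω n y ≠ 0} := by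
    rw [← MeasurableSet.compl_iff, h1]
    exact MeasurableSet.iUnion hm
  unfold ext
  rw [← prob_compl_eq_one_sub hmeas, h1, Monotone.measure_iUnion]
  · refine iSup_congr fun n => ?_
    rw [prob_gi, Zp_single]
  · intro m n hmn ω hω k hk
    exact hω k (hmn.trans hk)

end Pool.Agent.V11323.BRW
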