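import Pool.Agent.V11323.Heavy

/-!
# Patterns occur infinitely often
-/

set_option autoImplicit false

open MeasureTheory Filter Topology

namespace Pool.Agent.V11323

open Pool.Agent.H582AR.Gen

/-- the `m`-th block of three letters -/
def blk {G : Type} (ω : ℕ → G) (m : ℕ) (i : Fin 3) : G := ω (3 * m + i)

variable {G : Type} [MeasurableSpace G] [DiscreteMeasurableSpace G]
variable (ρ : Measure G) [IsProbabilityMeasure ρ]

lemma map_blk : (Measure.infinitePi (fun _ : ℕ => ρ)).map blk =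
    Measure.infinitePi (fun _ : ℕ => Measure.infinitePi (fun _ : Fin 3 => ρ)) := by
  rw [← Measure.infinitePi_map_curry (fun (_ : ℕ) (_ : Fin 3) => ρ)]
  rw [← Measure.infinitePi_map_piCongrLeft (fun _ : ℕ × Fin 3 => ρ) (Nat.divModEquiv 3)]
  rw [Measure.map_map (by fun_prop) (by fun_prop)]
  congr 1
  funext ω m i
  simp only [blk, Function.comp, MeasurableEquiv.coe_curry, Function.curry,
    MeasurableEquiv.coe_piCongrLeft]
  have h : (m, i) = Nat.divModEquiv 3 (3 * m + i) := by
    rw [← Equiv.symm_apply_eq]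
    simp [Nat.divModEquiv, mul_comm]
  rw [h, Equiv.piCongrLeft_apply_apply]

lemma block_ae [Countable G] (w : Fin 3 → G) (hw : ∀ i, ρ {w i} ≠ 0) :
    ∀ᵐ ω ∂(Measure.infinitePi (fun _ : ℕ => ρ)), ∀ M : ℕ, ∃ m, M ≤ m ∧ blk ω m = w := by
  rw [ae_all_iff]
  intro M
  have h1 : ∀ᵐ η ∂(Measure.infinitePi (fun _ : ℕ => Measure.infinitePi (fun _ : Fin 3 => ρ))),
      ∃ m, M ≤ m ∧ η m = w := by
    rw [ae_iff]
    have h2 : {η : ℕ → Fin 3 → G | ¬∃ m, M ≤ m ∧ η m = w} =
        {η | ∀ m, M ≤ m → η m ∈ ({w}ᶜ : Set (Fin 3 → G))} := by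
      ext η; simp
    rw [h2]
    apply never
    have h3 : Measure.infinitePi (fun _ : Fin 3 => ρ) {w} ≠ 0 := by
      rw [← Set.univ_pi_singleton w, Measure.infinitePi_pi_univ]
      · rw [tprod_fintype, Finset.prod_ne_zero_iff]
        exact fun i _ => hw i
      · intro i; exact MeasurableSet.of_discrete
    rw [prob_compl_eq_one_sub (measurableSet_singleton _)]
    exact ENNReal.sub_lt_self ENNReal.one_ne_top one_ne_zero h3
  rw [← map_blk] at h1
  have hm : Measurable (blk : (ℕ → G) → (ℕ → Fin 3 → G)) := by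
    rw [measurable_pi_iff]; intro m
    rw [measurable_pi_iff]; intro i
    exact measurable_pi_apply _
  exact ae_of_ae_map (f := blk) hm.aemeasurable h1

end Pool.Agent.V11323
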