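import Pool.Agent.V11323.ChainDefs

/-!
# Markov chains driven by independent random maps: lemmas
-/

set_option autoImplicit false

open MeasureTheory ProbabilityTheory Filter Topology
open scoped ENNReal

namespace Pool.Agent.V11323.Chain

section Coords

variable {ι : Type} {α : ι → Type} [∀ i, MeasurableSpace (α i)]

/-- the sigma-algebra of a set of coordinates -/
abbrev sig (α : ι → Type) [∀ i, MeasurableSpace (α i)] (S : Set ι) :
    MeasurableSpace (∀ i, α i) :=
  ⨆ p ∈ S, MeasurableSpace.comap (fun ω : ∀ i, α i => ω p) inferInstance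

lemma meas_sig {S : Set ι} {p : ι} (hp : p ∈ S) :
    Measurable[sig α S] (fun ω : ∀ i, α i => ω p) := by
  refine Measurable.mono (comap_measurable _) ?_ le_rfl
  exact le_iSup₂_of_le p hp le_rfl

lemma sig_le (S : Set ι) : sig α S ≤ (inferInstance : MeasurableSpace (∀ i, α i)) := by
  refine iSup₂_le fun p _ => ?_
  exact (measurable_pi_apply p).comap_le

lemma sig_mono {S T : Set ι} (h : S ⊆ T) : sig α S ≤ sig α T :=
  biSup_mono h

lemma sig_indep (μ : ∀ i, Measure (α i)) [∀ i, IsProbabilityMeasure (μ i)] {S T : Set ι}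
    (h : Disjoint S T) : Indep (sig α S) (sig α T) (Measure.infinitePi μ) := by
  have hi : iIndepFun (fun (p : ι) (ω : ∀ i, α i) => ω p) (Measure.infinitePi μ) := by
    have := iIndepFun_infinitePi (P := μ) (X := fun i (t : α i) => t) (fun _ => measurable_id)
    exact this
  exact indep_iSup_of_disjoint (fun p => (measurable_pi_apply p).comap_le) hi.iIndep h

end Coords

variable {V : Type} [MeasurableSpace V] [DiscreteMeasurableSpace V] (P : V → PMF V)

instance : IsProbabilityMeasure (mapLaw P) := by unfold mapLaw; infer_instance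

instance : IsProbabilityMeasure (drive P) := by unfold drive; infer_instance

lemma lint_pmf (p : PMF V) [Countable V] (f : V → ℝ≥0∞) :
    ∫⁻ y, f y ∂p.toMeasure = ∑' y, p y * f y := by
  rw [lintegral_countable']
  refine tsum_congr fun y => ?_
  rw [PMF.toMeasure_apply_singleton _ _ (measurableSet_singleton _), mul_comm]

lemma drive_eval [Countable V] (n : ℕ) (x : V) (f : V → ℝ≥0∞) :
    ∫⁻ ω, f (ω n x) ∂(drive P) = ∑' y, P x y * f y := by
  have h1 := measurePreserving_eval_infinitePi (fun _ : ℕ => mapLaw P) n
  have h2 := measurePreserving_eval_infinitePi (fun x : V => (P x).toMeasure) x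
  have hf : Measurable f := Measurable.of_discrete
  have h3 : ∫⁻ ω, f (ω n x) ∂(drive P) = ∫⁻ g, f (g x) ∂(mapLaw P) := by
    have hm : Measurable (fun g : V → V => f (g x)) := hf.comp (measurable_pi_apply x)
    exact h1.lintegral_comp hm
  rw [h3]
  have h4 : ∫⁻ g, f (g x) ∂(mapLaw P) = ∫⁻ y, f y ∂(P x).toMeasure := h2.lintegral_comp hf
  rw [h4, lint_pmf]

/-- a process driven by the chain -/
def aug {W : Type} (pos : W → V) (upd : W → V → W) (w : W) (ω : ℕ → V → V) : ℕ → W
  | 0 => w
  | n + 1 => upd (aug pos upd w ω n) (ω n (pos (aug pos upd w ω n)))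

section Aug

variable {W : Type} [MeasurableSpace W] [DiscreteMeasurableSpace W] [Countable W] [Countable V]
  (pos : W → V) (upd : W → V → W)

lemma meas_aug (w : W) (n : ℕ) : Measurable[sig (fun _ : ℕ => V → V) {m | m < n}]
    (fun ω : ℕ → V → V => aug pos upd w ω n) := by
  induction n with
  | zero => exact measurable_const
  | succ n ih =>
    have h1 : Measurable[sig (fun _ : ℕ => V → V) {m | m < n + 1}]
        (fun ω : ℕ → V → V => aug pos upd w ω n) :=
      ih.mono (sig_mono fun m (hm : m < n) => (by simp only [Set.mem_ofPred_eq]; omega)) le_rfl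
    have h2 : Measurable[sig (fun _ : ℕ => V → V) {m | m < n + 1}]
        (fun ω : ℕ → V → V => ω n) := meas_sig (by simp)
    simp only [aug]
    have h4 : Measurable (fun q : W × (V → V) => upd q.1 (q.2 (pos q.1))) := by
      refine measurable_from_prod_countable_right fun w' => ?_
      have h5 : Measurable (fun v : V => upd w' v) := Measurable.of_discrete
      have h6 : Measurable (fun g : V → V => g (pos w')) := measurable_pi_apply _
      exact h5.comp h6
    exact h4.comp (h1.prodMk h2)

lemma meas_aug' (w : W) (n : ℕ) :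
    Measurable (fun ω : ℕ → V → V => aug pos upd w ω n) :=
  (meas_aug pos upd w n).mono (sig_le _) le_rfl

lemma aug_step (w : W) (n : ℕ) (f : W → ℝ≥0∞) :
    ∫⁻ ω, f (aug pos upd w ω (n + 1)) ∂(drive P) =
      ∫⁻ ω, ∑' y, P (pos (aug pos upd w ω n)) y * f (upd (aug pos upd w ω n) y) ∂(drive P) := by
  have hdisj : Disjoint {m : ℕ | m < n} {n} := by
    rw [Set.disjoint_singleton_right]; simp
  have hind := sig_indep (fun _ : ℕ => mapLaw P) hdisj
  -- decompose according to the value at time n
  have key : ∀ F : W → (ℕ → V → V) → ℝ≥0∞, (∀ w', Measurable (F w')) →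
      ∫⁻ ω, F (aug pos upd w ω n) ω ∂(drive P) =
        ∑' w', ∫⁻ ω, Set.indicator {w'} 1 (aug pos upd w ω n) * F w' ω ∂(drive P) := by
    intro F hF
    rw [← lintegral_tsum]
    · refine lintegral_congr fun ω => ?_
      rw [tsum_eq_single (aug pos upd w ω n)]
      · simp
      · intro w' hw'
        rw [Set.indicator_of_notMem, zero_mul]
        simpa using hw'.symm
    · intro w'
      have : Measurable (Set.indicator {w'} (1 : W → ℝ≥0∞)) := Measurable.of_discrete
      exact ((this.comp (meas_aug' pos upd w n)).mul (hF w')).aemeasurable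
  have h1 := key (fun w' ω => f (upd w' (ω n (pos w')))) (by
    intro w'
    have h2 : Measurable (fun v : V => f (upd w' v)) := Measurable.of_discrete
    have h3 : Measurable (fun ω : ℕ → V → V => ω n (pos w')) :=
      (measurable_pi_apply (pos w')).comp (measurable_pi_apply n)
    exact h2.comp h3)
  have h2 := key (fun w' _ => ∑' y, P (pos w') y * f (upd w' y)) (fun w' => measurable_const)
  simp only [aug]
  rw [h1, h2]
  refine tsum_congr fun w' => ?_
  have h3 : Measurable (Set.indicator {w'} (1 : W → ℝ≥0∞)) := Measurable.of_discrete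
  have h4 := lintegral_mul_eq_lintegral_mul_lintegral_of_independent_measurableSpace
    (μ := drive P)
    (f := fun ω => Set.indicator {w'} 1 (aug pos upd w ω n))
    (g := fun ω => f (upd w' (ω n (pos w')))) (sig_le _) (sig_le _) hind
    (h3.comp (meas_aug pos upd w n)) (by
      have h5 : Measurable[sig (fun _ : ℕ => V → V) {n}] (fun ω : ℕ → V → V => ω n) :=
        meas_sig rfl
      have h6 : Measurable (fun v : V => f (upd w' v)) := Measurable.of_discrete
      exact (h6.comp (measurable_pi_apply (pos w'))).comp h5)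
  rw [h4, drive_eval P n (pos w') (fun y => f (upd w' y)), ← lintegral_mul_const]
  exact h3.comp (meas_aug' pos upd w n)

/-- Lyapunov function -/
lemma aug_lyap (w : W) (f k : W → ℝ≥0∞)
    (h : ∀ w, ∑' y, P (pos w) y * f (upd w y) + k w ≤ f w) :
    ∑' n, ∫⁻ ω, k (aug pos upd w ω n) ∂(drive P) ≤ f w := by
  have h1 : ∀ N : ℕ, ∑ n ∈ Finset.range N, ∫⁻ ω, k (aug pos upd w ω n) ∂(drive P) +
      ∫⁻ ω, f (aug pos upd w ω N) ∂(drive P) ≤ f w := by
    intro N
    induction N with
    | zero => simp [aug]
    | succ N ih =>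
      refine le_trans ?_ ih
      rw [Finset.sum_range_succ, add_assoc]
      gcongr
      rw [aug_step, ← lintegral_add_left]
      · refine lintegral_mono fun ω => ?_
        rw [add_comm]
        exact h _
      · have : Measurable k := Measurable.of_discrete
        exact this.comp (meas_aug' pos upd w N)
  rw [ENNReal.tsum_eq_iSup_nat]
  refine iSup_le fun N => ?_
  exact le_trans le_self_add (h1 N)

lemma aug_super (w : W) (f : W → ℝ≥0∞) (r : ℝ≥0∞)
    (h : ∀ w, ∑' y, P (pos w) y * f (upd w y) ≤ r * f w) (n : ℕ) :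
    ∫⁻ ω, f (aug pos upd w ω n) ∂(drive P) ≤ r ^ n * f w := by
  induction n with
  | zero => simp [aug]
  | succ n ih =>
    rw [aug_step]
    calc ∫⁻ ω, ∑' y, P (pos (aug pos upd w ω n)) y * f (upd (aug pos upd w ω n) y) ∂(drive P)
        ≤ ∫⁻ ω, r * f (aug pos upd w ω n) ∂(drive P) := lintegral_mono fun ω => h _
      _ = r * ∫⁻ ω, f (aug pos upd w ω n) ∂(drive P) := by
          rw [lintegral_const_mul]
          have : Measurable f := Measurable.of_discrete
          exact this.comp (meas_aug' pos upd w n)
      _ ≤ r * (r ^ n * f w) := by gcongr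
      _ = r ^ (n + 1) * f w := by ring

lemma aug_mart (w : W) (f : W → ℝ≥0∞)
    (h : ∀ w, ∑' y, P (pos w) y * f (upd w y) = f w) (n : ℕ) :
    ∫⁻ ω, f (aug pos upd w ω n) ∂(drive P) = f w := by
  induction n with
  | zero => simp [aug]
  | succ n ih =>
    rw [aug_step, ← ih]
    exact lintegral_congr fun ω => h _

end Aug

section Walk

variable [Countable V]

omit [MeasurableSpace V] [DiscreteMeasurableSpace V] [Countable V] in
lemma walk_eq_aug (x : V) (ω : ℕ → V → V) (n : ℕ) :
    walk x ω n = aug (fun v : V => v) (fun _ y => y) x ω n := by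
  induction n with
  | zero => rfl
  | succ n ih => rw [walk, aug, ih]

lemma meas_walk (x : V) (n : ℕ) : Measurable (fun ω : ℕ → V → V => walk x ω n) := by
  simp only [walk_eq_aug]
  exact meas_aug' _ _ x n

lemma walk_lyap (x : V) (f k : V → ℝ≥0∞) (h : ∀ x, ∑' y, P x y * f y + k x ≤ f x) :
    ∑' n, ∫⁻ ω, k (walk x ω n) ∂(drive P) ≤ f x := by
  simp only [walk_eq_aug]
  exact aug_lyap P _ _ x f k h

omit [MeasurableSpace V] [DiscreteMeasurableSpace V] [Countable V] in
lemma walk_add (x : V) (ω : ℕ → V → V) (m n : ℕ) :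
    walk x ω (m + n) = walk (walk x ω m) (fun l => ω (m + l)) n := by
  induction n with
  | zero => rfl
  | succ n ih => rw [← add_assoc, walk, walk, ih]

omit [DiscreteMeasurableSpace V] [Countable V] in
/-- shifting time preserves the driving measure -/
lemma shift_preserving (m : ℕ) :
    MeasurePreserving (fun (ω : ℕ → V → V) (l : ℕ) => ω (m + l)) (drive P) (drive P) := by
  refine ⟨measurable_pi_lambda _ fun l => measurable_pi_apply _, ?_⟩
  unfold drive
  refine Measure.eq_infinitePi _ fun s t ht => ?_
  rw [Measure.map_apply (measurable_pi_lambda _ fun l => measurable_pi_apply _)]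
  · have h1 : (fun (ω : ℕ → V → V) (l : ℕ) => ω (m + l)) ⁻¹' (Set.pi s t) =
        Set.pi (s.map (addLeftEmbedding m) : Finset ℕ) (fun l => t (l - m)) := by
      ext ω
      simp [Set.mem_pi]
    rw [h1, Measure.infinitePi_pi]
    · simp
    · intro i _
      exact ht _
  · exact MeasurableSet.pi s.countable_toSet fun i _ => ht i

end Walk

end Pool.Agent.V11323.Chain
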