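import Mathlib

/-!
# Markov chains driven by independent random maps: definitions
-/

set_option autoImplicit false

open MeasureTheory

namespace Pool.Agent.V11323.Chain

/-- The law of a random map `f : V → V` with independent values, `f x` having law `P x`. -/
noncomputable def mapLaw {V : Type} [MeasurableSpace V] (P : V → PMF V) : Measure (V → V) :=
  Measure.infinitePi (fun x : V => (P x).toMeasure)

/-- The law of a sequence of independent random maps, each with law `mapLaw P`. -/
noncomputable def drive {V : Type} [MeasurableSpace V] (P : V → PMF V) :
    Measure (ℕ → V → V) :=
  Measure.infinitePi (fun _ : ℕ => mapLaw P)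

/-- The Markov chain started at `x` and driven by the maps `ω 0, ω 1, …`: from its position `y`
at time `n` it goes to `ω n y`. Under `drive P` this is the Markov chain with transition
probabilities `P y z`. -/
def walk {V : Type} (x : V) (ω : ℕ → V → V) : ℕ → V
  | 0 => x
  | n + 1 => ω n (walk x ω n)

end Pool.Agent.V11323.Chain
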