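import Pool.Agent.V11323.Chain

/-!
# Time-inhomogeneous Markov chains driven by independent random maps
-/

set_option autoImplicit false

open MeasureTheory ProbabilityTheory Filter Topology
open scoped ENNReal

namespace Pool.Agent.V11323.Chain

/-- The law of a sequence of independent random maps, the `n`-th with law `mapLaw (P n)`. -/
noncomputable def driveI {V : Type} [MeasurableSpace V] (P : ℕ → V → PMF V) :
    Measure (ℕ → V → V) :=
  Measure.infinitePi (fun n : ℕ => mapLaw (P n))

variable {V : Type} [MeasurableSpace V] [DiscreteMeasurableSpace V] (P : ℕ → V → PMF V)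

instance : IsProbabilityMeasure (driveI P) := by unfold driveI; infer_instance

lemma driveI_eval [Countable V] (n : ℕ) (x : V) (f : V → ℝ≥0∞) :
    ∫⁻ ω, f (ω n x) ∂(driveI P) = ∑' y, P n x y * f y := by
  have h1 := measurePreserving_eval_infinitePi (fun n : ℕ => mapLaw (P n)) n
  have h2 := measurePreserving_eval_infinitePi (fun x : V => (P n x).toMeasure) x
  have hf : Measurable f := Measurable.of_discrete
  have h3 : ∫⁻ ω, f (ω n x) ∂(driveI P) = ∫⁻ g, f (g x) ∂(mapLaw (P n)) := by
    have hm : Measurable (fun g : V → V => f (g x)) := hf.comp (measurable_pi_apply x)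
    exact h1.lintegral_comp hm
  rw [h3]
  have h4 : ∫⁻ g, f (g x) ∂(mapLaw (P n)) = ∫⁻ y, f y ∂(P n x).toMeasure := h2.lintegral_comp hf
  rw [h4, lint_pmf]

variable {W : Type} [MeasurableSpace W] [DiscreteMeasurableSpace W] [Countable W] [Countable V]
  (pos : W → V) (upd : W → V → W)

lemma augI_step (w : W) (n : ℕ) (f : W → ℝ≥0∞) :
    ∫⁻ ω, f (aug pos upd w ω (n + 1)) ∂(driveI P) =
      ∫⁻ ω, ∑' y, P n (pos (aug pos upd w ω n)) y * f (upd (aug pos upd w ω n) y)
        ∂(driveI P) := by
  have hdisj : Disjoint {m : ℕ | m < n} {n} := by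
    rw [Set.disjoint_singleton_right]; simp
  have hind := sig_indep (fun n : ℕ => mapLaw (P n)) hdisj
  have key : ∀ F : W → (ℕ → V → V) → ℝ≥0∞, (∀ w', Measurable (F w')) →
      ∫⁻ ω, F (aug pos upd w ω n) ω ∂(driveI P) =
        ∑' w', ∫⁻ ω, Set.indicator {w'} 1 (aug pos upd w ω n) * F w' ω ∂(driveI P) := by
    intro F hF
    rw [← lintegral_tsum]
    · refine lintegral_congr fun ω => ?_
      rw [tsum_eq_single (aug pos upd w ω n)]
      · simp
      · intro w' hw'
        rw [Set.indicator_of_notMem, zero_mul]
        simpa using hw'.symm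
    · intro w'
      have : Measurable (Set.indicator {w'} (1 : W → ℝ≥0∞)) := Measurable.of_discrete
      exact ((this.comp (meas_aug' pos upd w n)).mul (hF w')).aemeasurable
  have h1 := key (fun w' ω => f (upd w' (ω n (pos w')))) (by
    intro w'
    have h2 : Measurable (fun v : V => f (upd w' v)) := Measurable.of_discrete
    have h3 : Measurable (fun ω : ℕ → V → V => ω n (pos w')) :=
      (measurable_pi_apply (pos w')).comp (measurable_pi_apply n)
    exact h2.comp h3)
  have h2 := key (fun w' _ => ∑' y, P n (pos w') y * f (upd w' y)) (fun w' => measurable_const)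
  simp only [aug]
  rw [h1, h2]
  refine tsum_congr fun w' => ?_
  have h3 : Measurable (Set.indicator {w'} (1 : W → ℝ≥0∞)) := Measurable.of_discrete
  have h4 := lintegral_mul_eq_lintegral_mul_lintegral_of_independent_measurableSpace
    (μ := driveI P)
    (f := fun ω => Set.indicator {w'} 1 (aug pos upd w ω n))
    (g := fun ω => f (upd w' (ω n (pos w')))) (sig_le _) (sig_le _) hind
    (h3.comp (meas_aug pos upd w n)) (by
      have h5 : Measurable[sig (fun _ : ℕ => V → V) {n}] (fun ω : ℕ → V → V => ω n) :=
        meas_sig rfl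
      have h6 : Measurable (fun v : V => f (upd w' v)) := Measurable.of_discrete
      exact (h6.comp (measurable_pi_apply (pos w'))).comp h5)
  rw [h4, driveI_eval P n (pos w') (fun y => f (upd w' y)), ← lintegral_mul_const]
  exact h3.comp (meas_aug' pos upd w n)

lemma augI_lyap (w : W) (f k : W → ℝ≥0∞)
    (h : ∀ n w, ∑' y, P n (pos w) y * f (upd w y) + k w ≤ f w) :
    ∑' n, ∫⁻ ω, k (aug pos upd w ω n) ∂(driveI P) ≤ f w := by
  have h1 : ∀ N : ℕ, ∑ n ∈ Finset.range N, ∫⁻ ω, k (aug pos upd w ω n) ∂(driveI P) +
      ∫⁻ ω, f (aug pos upd w ω N) ∂(driveI P) ≤ f w := by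
    intro N
    induction N with
    | zero => simp [aug]
    | succ N ih =>
      refine le_trans ?_ ih
      rw [Finset.sum_range_succ, add_assoc]
      gcongr
      rw [augI_step, ← lintegral_add_left]
      · refine lintegral_mono fun ω => ?_
        rw [add_comm]
        exact h N _
      · have : Measurable k := Measurable.of_discrete
        exact this.comp (meas_aug' pos upd w N)
  rw [ENNReal.tsum_eq_iSup_nat]
  refine iSup_le fun N => ?_
  exact le_trans le_self_add (h1 N)

lemma augI_super (w : W) (f : W → ℝ≥0∞)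
    (h : ∀ n w, ∑' y, P n (pos w) y * f (upd w y) ≤ f w) (n : ℕ) :
    ∫⁻ ω, f (aug pos upd w ω n) ∂(driveI P) ≤ f w := by
  induction n with
  | zero => simp [aug]
  | succ n ih =>
    rw [augI_step]
    exact le_trans (lintegral_mono fun ω => h n _) ih

/-- the walk stopped when it is in the set `A` -/
def stopped (A : V → Bool) (x : V) (ω : ℕ → V → V) (n : ℕ) : V :=
  aug (fun v : V => v) (fun v y => if A v then v else y) x ω n

omit [MeasurableSpace V] [DiscreteMeasurableSpace V] [Countable V] in
lemma stopped_spec (A : V → Bool) (x : V) (ω : ℕ → V → V) (n : ℕ) :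
    (stopped A x ω n = walk x ω n ∧ ∀ m < n, A (walk x ω m) = false) ∨
      (A (stopped A x ω n) = true ∧ ∃ m, m ≤ n ∧ stopped A x ω n = walk x ω m) := by
  induction n with
  | zero => left; exact ⟨rfl, fun m hm => absurd hm (Nat.not_lt_zero m)⟩
  | succ n ih =>
    unfold stopped at ih ⊢
    rw [aug]
    set w := aug (fun v : V => v) (fun v y => if A v then v else y) x ω n with hw
    rcases hi : A w with _ | _
    · left
      simp only [Bool.false_eq_true, if_false]
      rcases ih with ⟨h1, h2⟩ | ⟨h1, _⟩
      · refine ⟨by rw [walk, ← h1], ?_⟩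
        intro m hm
        rcases Nat.lt_succ_iff_lt_or_eq.mp hm with h3 | h3
        · exact h2 m h3
        · rw [h3, ← h1]; exact hi
      · rw [hi] at h1; exact absurd h1 (by simp)
    · right
      simp only [if_true]
      refine ⟨hi, ?_⟩
      rcases ih with ⟨h1, _⟩ | ⟨_, m, hm, h2⟩
      · exact ⟨n, Nat.le_succ n, h1⟩
      · exact ⟨m, by omega, h2⟩

lemma meas_stopped (A : V → Bool) (x : V) (n : ℕ) : Measurable (fun ω => stopped A x ω n) :=
  meas_aug' _ _ x n

omit [MeasurableSpace V] [DiscreteMeasurableSpace V] [Countable V] in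
/-- once in `A`, the stopped walk stays -/
lemma stopped_stay (A : V → Bool) (x : V) (ω : ℕ → V → V) (n : ℕ)
    (h : A (stopped A x ω n) = true) (k : ℕ) : stopped A x ω (n + k) = stopped A x ω n := by
  induction k with
  | zero => rfl
  | succ k ih =>
    rw [← add_assoc]
    unfold stopped at ih h ⊢
    rw [aug, ih, if_pos h]

/-- a bounded positive supermartingale bounds the probability of hitting -/
lemma hit_prob_le (A : V → Bool) (x : V) (w : V → ℝ≥0∞)
    (hw : ∀ n v, A v = false → ∑' y, P n v y * w y ≤ w v) (hA : ∀ v, A v = true → 1 ≤ w v) :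
    driveI P {ω | ∃ n, A (walk x ω n) = true} ≤ w x := by
  have h1 : ∀ n, driveI P {ω | A (stopped A x ω n) = true} ≤ w x := by
    intro n
    have hm : MeasurableSet {ω : ℕ → V → V | A (stopped A x ω n) = true} :=
      (meas_stopped A x n) (MeasurableSet.of_discrete (s := {v | A v = true}))
    have h2 := augI_super P (fun v : V => v) (fun v y => if A v then v else y) x w (by
      intro n v
      rcases hi : A v with _ | _
      · simp only [Bool.false_eq_true, if_false]
        exact hw n v hi
      · simp only [if_true]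
        rw [ENNReal.tsum_mul_right, PMF.tsum_coe, one_mul]) n
    refine le_trans ?_ h2
    rw [← lintegral_indicator_one hm]
    refine lintegral_mono fun ω => ?_
    simp only [Set.indicator_apply, Set.mem_ofPred_eq, Pi.one_apply]
    split_ifs with h
    · exact hA _ h
    · exact zero_le
  have h2 : {ω : ℕ → V → V | ∃ n, A (walk x ω n) = true} ⊆
      ⋃ n, {ω | A (stopped A x ω n) = true} := by
    rintro ω ⟨n, hn⟩
    rw [Set.mem_iUnion]
    rcases stopped_spec A x ω n with ⟨h1, _⟩ | ⟨h1, _⟩
    · exact ⟨n, by rw [Set.mem_ofPred_eq, h1]; exact hn⟩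
    · exact ⟨n, h1⟩
  refine (measure_mono h2).trans ?_
  rw [Monotone.measure_iUnion]
  · exact iSup_le h1
  · intro m n hmn ω hω
    obtain ⟨k, rfl⟩ : ∃ k, n = m + k := ⟨n - m, by omega⟩
    simp only [Set.mem_ofPred_eq] at hω ⊢
    rw [stopped_stay A x ω m hω k]
    exact hω

/-- a Lyapunov function with drift `ε` outside `A` gives almost sure hitting -/
lemma hit_ae (A : V → Bool) (x : V) (φ : V → ℝ≥0∞) (ε : ℝ≥0∞) (hε : ε ≠ 0)
    (hφ : φ x ≠ ⊤)
    (h : ∀ n v, A v = false → ∑' y, P n v y * φ y + ε ≤ φ v) :
    ∀ᵐ ω ∂(driveI P), ∃ n, A (walk x ω n) = true := by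
  have h1 := augI_lyap P (fun v : V => v) (fun v y => if A v then v else y) x φ
    (fun v => if A v then 0 else ε) (by
      intro n v
      rcases hi : A v with _ | _
      · simp only [Bool.false_eq_true, if_false]
        exact h n v hi
      · simp only [if_true, add_zero]
        rw [ENNReal.tsum_mul_right, PMF.tsum_coe, one_mul])
  have h2 : ∀ n, ∫⁻ ω, (if A (aug (fun v : V => v) (fun v y => if A v then v else y) x ω n)
      then 0 else ε) ∂(driveI P) = ε * driveI P {ω | A (stopped A x ω n) = false} := by
    intro n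
    have hm : MeasurableSet {ω : ℕ → V → V | A (stopped A x ω n) = false} :=
      (meas_stopped A x n) (MeasurableSet.of_discrete (s := {v | A v = false}))
    rw [← lintegral_indicator_const hm]
    refine lintegral_congr fun ω => ?_
    simp only [Set.indicator_apply, Set.mem_ofPred_eq, stopped]
    split_ifs with h3 h4 h4
    · rw [h3] at h4; exact absurd h4 (by simp)
    · rfl
    · rfl
    · rw [Bool.not_eq_true] at h3; exact absurd h3 h4
  simp only [h2] at h1
  rw [ENNReal.tsum_mul_left] at h1
  have h3 : ∑' n, driveI P {ω | A (stopped A x ω n) = false} ≠ ⊤ := by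
    intro h4
    rw [h4, ENNReal.mul_top hε] at h1
    exact hφ (top_le_iff.mp h1)
  have h4 := ENNReal.tendsto_atTop_zero_of_tsum_ne_top h3
  rw [ae_iff]
  have h5 : ∀ n, driveI P {ω | ¬ ∃ n, A (walk x ω n) = true} ≤
      driveI P {ω | A (stopped A x ω n) = false} := by
    intro n
    apply measure_mono
    intro ω hω
    simp only [Set.mem_ofPred_eq, not_exists, Bool.not_eq_true] at hω ⊢
    rcases stopped_spec A x ω n with ⟨h6, _⟩ | ⟨_, m, _, h6⟩
    · rw [h6]; exact hω n
    · rw [h6]; exact hω m
  exact le_antisymm (ge_of_tendsto' h4 h5) bot_le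

end Pool.Agent.V11323.Chain
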