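import Pool.Agent.V11323.Heavy

/-!
# The countable direct sum of infinite cyclic groups
-/

set_option autoImplicit false

open MeasureTheory Filter Topology

namespace Pool.Agent.V11323

/-- the basis vectors, in multiplicative notation -/
noncomputable def bs {ι : Type} (e : ℕ ≃ ι) (k : ℕ) : Multiplicative (ι →₀ ℤ) :=
  Multiplicative.ofAdd (Finsupp.single (e k) 1)

/-- the coordinates, in multiplicative notation -/
noncomputable def co {ι : Type} (e : ℕ ≃ ι) (k : ℕ) :
    Multiplicative (ι →₀ ℤ) →* Multiplicative ℤ :=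
  AddMonoidHom.toMultiplicative (Finsupp.applyAddHom (e k))

lemma co_bs {ι : Type} (e : ℕ ≃ ι) (i : ℕ) : co e i (bs e i) = Multiplicative.ofAdd 1 := by
  change Multiplicative.ofAdd ((Finsupp.single (e i) (1 : ℤ)) (e i)) = Multiplicative.ofAdd 1
  rw [Finsupp.single_eq_same]

lemma co_bs_ne {ι : Type} (e : ℕ ≃ ι) (i j : ℕ) (h : i ≠ j) : co e i (bs e j) = 1 := by
  change Multiplicative.ofAdd ((Finsupp.single (e j) (1 : ℤ)) (e i)) = 1
  rw [Finsupp.single_eq_of_ne (fun h' => h (e.injective h'))]
  rfl

lemma closure_bs {ι : Type} (e : ℕ ≃ ι) : Subgroup.closure (Set.range (bs e)) = ⊤ := by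
  rw [eq_top_iff]
  intro x _
  have h : ∀ f : ι →₀ ℤ, Multiplicative.ofAdd f ∈ Subgroup.closure (Set.range (bs e)) := by
    intro f
    induction f using Finsupp.induction_linear with
    | zero => exact Subgroup.one_mem _
    | add f g hf hg => rw [ofAdd_add]; exact Subgroup.mul_mem _ hf hg
    | single i n =>
      have h1 : (Finsupp.single i n : ι →₀ ℤ) = n • Finsupp.single i 1 := by
        rw [Finsupp.smul_single, smul_eq_mul, mul_one]
      rw [h1, ofAdd_zsmul]
      apply Subgroup.zpow_mem
      apply Subgroup.subset_closure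
      exact ⟨e.symm i, by simp [bs]⟩
  exact h (Multiplicative.toAdd x)

end Pool.Agent.V11323
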