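import Mathlib

/-!
# Planar random walks on discrete point processes: definitions
-/

set_option autoImplicit false

open MeasureTheory ProbabilityTheory Filter Topology
open scoped ENNReal NNReal

namespace Pool.Agent.V11323.PP

/-- Configurations: `ω x = true` if `x` is a point of the process. -/
abbrev Env : Type := ℤ × ℤ → Bool

/-- The shift `(shift x ω) y = ω (x + y)`. -/
def shift (x : ℤ × ℤ) (ω : Env) : Env := fun y => ω (x + y)

/-- A two-dimensional discrete point process: a probability measure, stationary and ergodic for
each of the two coordinate shifts, which is not almost surely empty. -/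
structure IsDPP (Q : Measure Env) : Prop where
  prob : IsProbabilityMeasure Q
  erg1 : Ergodic (shift (1, 0)) Q
  erg2 : Ergodic (shift (0, 1)) Q
  nonempty : Q {ω | ∀ x, ω x = false} < 1

/-- The law `Q` conditioned on a point at the origin. -/
noncomputable def palm (Q : Measure Env) : Measure Env := ProbabilityTheory.cond Q {ω | ω 0 = true}

/-- `fgap e ω` is the least `k > 0` such that `k e` is a point of `ω`. -/
noncomputable def fgap (e : ℤ × ℤ) (ω : Env) : ℕ := sInf {k : ℕ | 0 < k ∧ ω (k • e) = true}

/-- The four directions. -/
def dir : Fin 4 → ℤ × ℤ := ![(1, 0), (-1, 0), (0, 1), (0, -1)]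

/-- The law of independent uniform directions. -/
noncomputable def dirLaw : Measure (ℕ → Fin 4) :=
  Measure.infinitePi (fun _ : ℕ => (PMF.uniformOfFintype (Fin 4)).toMeasure)

/-- The walk with directions `ξ 0, ξ 1, …` in the configuration `ω`, started at the origin: from
`v` it jumps to the nearest point of `ω` in the direction chosen. -/
noncomputable def pos (ω : Env) (ξ : ℕ → Fin 4) : ℕ → ℤ × ℤ
  | 0 => 0
  | n + 1 => pos ω ξ n + fgap (dir (ξ n)) (shift (pos ω ξ n) ω) • dir (ξ n)

end Pool.Agent.V11323.PP
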