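import Pool.Agent.V11323.PP

/-!
# First step analysis, the 2-adic odometer
-/

set_option autoImplicit false

open MeasureTheory ProbabilityTheory Filter Topology
open scoped ENNReal NNReal

namespace Pool.Agent.V11323.PP

instance : IsProbabilityMeasure dirLaw := by unfold dirLaw; infer_instance

/-- prepend a direction -/
def cons (e : Fin 4) (ξ : ℕ → Fin 4) : ℕ → Fin 4
  | 0 => e
  | n + 1 => ξ n

lemma meas_cons : Measurable (fun p : Fin 4 × (ℕ → Fin 4) => cons p.1 p.2) := by
  refine measurable_pi_lambda _ fun n => ?_
  cases n with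
  | zero => exact measurable_fst
  | succ n => exact (measurable_pi_apply n).comp measurable_snd

lemma map_cons : (((PMF.uniformOfFintype (Fin 4)).toMeasure).prod dirLaw).map
    (fun p : Fin 4 × (ℕ → Fin 4) => cons p.1 p.2) = dirLaw := by
  set q := (PMF.uniformOfFintype (Fin 4)).toMeasure with hq
  conv_rhs => unfold dirLaw
  refine Measure.eq_infinitePi _ fun s t ht => ?_
  classical
  set t' : ℕ → Set (Fin 4) := fun i => if i ∈ s then t i else Set.univ with ht'
  obtain ⟨N, hN⟩ : ∃ N, s ⊆ Finset.range (N + 1) := by
    refine ⟨s.sup id, fun i hi => ?_⟩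
    rw [Finset.mem_range]
    exact Nat.lt_succ_of_le (Finset.le_sup (f := id) hi)
  have h1 : Set.pi (s : Set ℕ) t = Set.pi (Finset.range (N + 1) : Finset ℕ) t' := by
    ext ξ
    simp only [Set.mem_pi, Finset.mem_coe, ht']
    constructor
    · intro h i _
      split_ifs with h2
      · exact h i h2
      · trivial
    · intro h i hi
      have := h i (hN hi)
      rwa [if_pos hi] at this
  have h2 : ∏ i ∈ s, q (t i) = ∏ i ∈ Finset.range (N + 1), q (t' i) := by
    rw [← Finset.prod_subset hN]
    · refine Finset.prod_congr rfl fun i hi => ?_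
      simp only [ht']
      rw [if_pos hi]
    · intro i _ hi
      simp only [ht']
      rw [if_neg hi, measure_univ]
  have hmt : ∀ i, MeasurableSet (t' i) := fun i => MeasurableSet.of_discrete
  rw [h1, h2, Measure.map_apply meas_cons]
  · have h3 : (fun p : Fin 4 × (ℕ → Fin 4) => cons p.1 p.2) ⁻¹'
        (Set.pi (Finset.range (N + 1) : Finset ℕ) t') =
        t' 0 ×ˢ (Set.pi (Finset.range N : Finset ℕ) fun i => t' (i + 1)) := by
      ext ⟨e, ξ⟩
      simp only [Set.mem_preimage, Set.mem_pi, Finset.mem_coe, Finset.mem_range, Set.mem_prod]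
      constructor
      · intro h
        exact ⟨h 0 (by omega), fun i hi => h (i + 1) (by omega)⟩
      · rintro ⟨h3, h4⟩ i hi
        cases i with
        | zero => exact h3
        | succ i => exact h4 i (by omega)
    rw [h3, Measure.prod_prod, Finset.prod_range_succ', mul_comm]
    congr 1
    unfold dirLaw
    rw [Measure.infinitePi_pi]
    intro i _
    exact hmt _
  · exact MeasurableSet.pi (Finset.countable_toSet _) fun i _ => hmt i

/-- first step analysis -/
lemma first_step (A : Set (ℕ → Fin 4)) (hA : MeasurableSet A) :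
    dirLaw A = ∑ e : Fin 4, (1 / 4 : ℝ≥0∞) * dirLaw {ξ | cons e ξ ∈ A} := by
  conv_lhs => rw [← map_cons]
  rw [Measure.map_apply meas_cons hA, Measure.prod_apply (meas_cons hA), lintegral_fintype]
  refine Finset.sum_congr rfl fun e _ => ?_
  rw [PMF.toMeasure_apply_singleton _ _ (measurableSet_singleton _), mul_comm,
    PMF.uniformOfFintype_apply]
  congr 1
  simp

end Pool.Agent.V11323.PP
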