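import Pool.Agent.V11323.PPWalk

/-!
# Gap functions on the 2-adic integers
-/

set_option autoImplicit false

open MeasureTheory ProbabilityTheory Filter Topology
open scoped ENNReal NNReal

namespace Pool.Agent.V11323.PP

/-- the multiples of `2 ^ k` -/
def Bk (k : ℕ) : Set ℤ_[2] := {U | ‖U‖ ≤ (2 : ℝ) ^ (-(k : ℤ))}

lemma meas_Bk (k : ℕ) : MeasurableSet (Bk k) :=
  (isClosed_le continuous_norm continuous_const).measurableSet

lemma mem_Bk_iff (k : ℕ) (U : ℤ_[2]) : U ∈ Bk k ↔ U ∈ Ideal.span {((2 : ℕ) : ℤ_[2]) ^ k} := by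
  rw [← PadicInt.norm_le_pow_iff_mem_span_pow]
  rfl

lemma mem_Bk_val {k : ℕ} {U : ℤ_[2]} (hU : U ≠ 0) : U ∈ Bk k ↔ k ≤ U.valuation := by
  have := PadicInt.norm_le_pow_iff_le_valuation U hU k
  rw [← this]
  rfl

lemma mu_Bk (k : ℕ) : mu (Bk k) = (2 ^ k : ℝ≥0∞)⁻¹ := by
  have h1 : ∀ a : ℕ, mu {U | U - a ∈ Bk k} = mu (Bk k) := by
    intro a
    have : {U : ℤ_[2] | U - a ∈ Bk k} = (fun U => -(a : ℤ_[2]) + U) ⁻¹' Bk k := by
      ext U
      simp only [Set.mem_ofPred_eq, Set.mem_preimage]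
      rw [sub_eq_neg_add]
    rw [this, measure_preimage_add]
  have h2 : ∑ a ∈ Finset.range (2 ^ k), mu {U | U - (a : ℤ_[2]) ∈ Bk k} = 1 := by
    rw [← measure_biUnion_finset]
    · rw [← measure_univ (μ := mu)]
      congr 1
      rw [Set.eq_univ_iff_forall]
      intro U
      simp only [Set.mem_iUnion]
      refine ⟨U.appr k, Finset.mem_range.mpr (PadicInt.appr_lt U k), ?_⟩
      show _ ∈ Bk k
      rw [mem_Bk_iff]
      exact PadicInt.appr_spec k U
    · intro a ha b hb hab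
      rw [Function.onFun, Set.disjoint_left]
      intro U hU hU'
      simp only [Finset.coe_range, Set.mem_Iio] at ha hb
      have h3 : U - (a : ℤ_[2]) ∈ Ideal.span {((2 : ℕ) : ℤ_[2]) ^ k} := (mem_Bk_iff _ _).mp hU
      have h4 : U - (b : ℤ_[2]) ∈ Ideal.span {((2 : ℕ) : ℤ_[2]) ^ k} := (mem_Bk_iff _ _).mp hU'
      have h5 := Ideal.sub_mem _ h4 h3
      have h6 : U - (b : ℤ_[2]) - (U - (a : ℤ_[2])) = (((a : ℤ) - (b : ℤ) : ℤ) : ℤ_[2]) := by
        push_cast; ring
      rw [h6, Ideal.mem_span_singleton, PadicInt.pow_p_dvd_int_iff] at h5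
      have h7 := Int.eq_zero_of_abs_lt_dvd h5 (by
        rw [abs_lt]
        push_cast
        have ha' : (a : ℤ) < 2 ^ k := by exact_mod_cast ha
        have hb' : (b : ℤ) < 2 ^ k := by exact_mod_cast hb
        constructor <;> linarith [Int.natCast_nonneg a, Int.natCast_nonneg b])
      apply hab
      omega
    · intro a _
      exact (measurable_sub_const (a : ℤ_[2])) (meas_Bk k)
  simp only [h1] at h2
  rw [Finset.sum_const, Finset.card_range, nsmul_eq_mul] at h2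
  push_cast at h2
  exact ENNReal.eq_inv_of_mul_eq_one_left (by rw [mul_comm]; exact h2)

/-- the level -/
noncomputable def lev (U : ℤ_[2]) : ℕ := U.valuation / 3

lemma meas_val : Measurable (fun U : ℤ_[2] => U.valuation) := by
  have h1 : ∀ k : ℕ, MeasurableSet {U : ℤ_[2] | k + 1 ≤ U.valuation} := by
    intro k
    have : {U : ℤ_[2] | k + 1 ≤ U.valuation} = Bk (k + 1) \ {0} := by
      ext U
      simp only [Set.mem_ofPred_eq, Set.mem_sdiff, Set.mem_singleton_iff]
      constructor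
      · intro h
        have hU : U ≠ 0 := by
          rintro rfl
          rw [PadicInt.valuation_zero] at h
          omega
        exact ⟨(mem_Bk_val hU).mpr h, hU⟩
      · rintro ⟨h, hU⟩
        exact (mem_Bk_val hU).mp h
    rw [this]
    exact (meas_Bk _).diff (measurableSet_singleton 0)
  refine measurable_of_Ioi fun k => ?_
  exact h1 k

lemma meas_lev : Measurable lev :=
  (Measurable.of_discrete (f := fun n : ℕ => n / 3)).comp meas_val

lemma mu_lev (v : ℕ) : mu {U | v ≤ lev U} ≤ (8 ^ v : ℝ≥0∞)⁻¹ := by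
  rcases Nat.eq_zero_or_pos v with rfl | hv
  · simp only [pow_zero, inv_one]
    exact prob_le_one
  · have h1 : {U | v ≤ lev U} ⊆ Bk (3 * v) := by
      intro U hU
      have hU' : v ≤ U.valuation / 3 := hU
      have hne : U ≠ 0 := by
        rintro rfl
        rw [PadicInt.valuation_zero] at hU'
        omega
      exact (mem_Bk_val hne).mpr (by omega)
    refine (measure_mono h1).trans ?_
    rw [mu_Bk, pow_mul]
    norm_num

lemma mu_lev_eq (v : ℕ) : (2 * 8 ^ v : ℝ≥0∞)⁻¹ ≤ mu {U | lev U = v} := by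
  have h1 : Bk (3 * v) \ Bk (3 * v + 1) ⊆ {U | lev U = v} := by
    rintro U ⟨h1, h2⟩
    have hne : U ≠ 0 := by
      rintro rfl
      apply h2
      unfold Bk
      simp only [Set.mem_ofPred_eq, norm_zero]
      positivity
    rw [mem_Bk_val hne] at h1 h2
    show U.valuation / 3 = v
    omega
  refine le_trans ?_ (measure_mono h1)
  have hsub : Bk (3 * v + 1) ⊆ Bk (3 * v) := by
    intro U hU
    have hU' : ‖U‖ ≤ (2 : ℝ) ^ (-((3 * v + 1 : ℕ) : ℤ)) := hU
    show ‖U‖ ≤ (2 : ℝ) ^ (-((3 * v : ℕ) : ℤ))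
    refine hU'.trans ?_
    apply zpow_le_zpow_right₀ (by norm_num)
    push_cast
    linarith
  rw [measure_sdiff hsub (meas_Bk _).nullMeasurableSet (measure_ne_top _ _), mu_Bk, mu_Bk]
  rw [pow_succ, pow_mul]
  norm_num
  have e1 : ((8 : ℝ≥0∞) ^ v)⁻¹ = (8 ^ v * 2)⁻¹ + (8 ^ v * 2)⁻¹ := by
    rw [← two_mul, ENNReal.mul_inv (Or.inr (by norm_num)) (Or.inr (by norm_num)),
      mul_comm, mul_assoc, ENNReal.inv_mul_cancel (by norm_num) (by norm_num), mul_one]
  rw [e1, mul_comm 2]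
  rw [ENNReal.add_sub_cancel_right]
  exact ENNReal.inv_ne_top.mpr (by positivity)

open Classical in
/-- the gaps: `4 ^ lev` if `lev ∈ A`, else `1` -/
noncomputable def GA (A : Set ℕ) (U : ℤ_[2]) : ℕ := if lev U ∈ A then 4 ^ lev U else 1

lemma meas_GA (A : Set ℕ) : Measurable (GA A) := by
  classical
  exact (Measurable.of_discrete (f := fun n : ℕ => if n ∈ A then 4 ^ n else 1)).comp meas_lev

lemma GA_pos (A : Set ℕ) (U : ℤ_[2]) : 1 ≤ GA A U := by
  unfold GA
  split_ifs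
  · exact Nat.one_le_pow _ _ (by norm_num)
  · exact le_rfl

lemma GA_fin (A : Set ℕ) : Zc (GA A) ≠ ⊤ := by
  have h1 : ∀ U, (GA A U : ℝ≥0∞) ≤
      ∑' v : ℕ, (4 : ℝ≥0∞) ^ v * Set.indicator {U | v ≤ lev U} (fun _ => 1) U := by
    intro U
    have h2 : (4 : ℝ≥0∞) ^ (lev U) * Set.indicator {U' | lev U ≤ lev U'} (fun _ => 1) U ≤
        ∑' v : ℕ, (4 : ℝ≥0∞) ^ v * Set.indicator {U | v ≤ lev U} (fun _ => 1) U :=
      ENNReal.le_tsum (f := fun v : ℕ => (4 : ℝ≥0∞) ^ v *
        Set.indicator {U | v ≤ lev U} (fun _ => 1) U) (lev U)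
    refine le_trans ?_ h2
    rw [Set.indicator_of_mem (show U ∈ {U' | lev U ≤ lev U'} from le_refl (lev U)), mul_one]
    have h3 : GA A U ≤ 4 ^ lev U := by
      unfold GA
      split_ifs
      · exact le_rfl
      · exact Nat.one_le_pow _ _ (by norm_num)
    exact_mod_cast h3
  have h4 : Zc (GA A) ≤ ∑' v : ℕ, (4 : ℝ≥0∞) ^ v * (8 ^ v)⁻¹ := by
    unfold Zc
    refine (lintegral_mono h1).trans ?_
    have hm : ∀ v : ℕ, MeasurableSet {U | v ≤ lev U} := fun v =>
      meas_lev (MeasurableSet.of_discrete (s := {n : ℕ | v ≤ n}))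
    rw [lintegral_tsum]
    · refine ENNReal.tsum_le_tsum fun v => ?_
      rw [lintegral_const_mul _ (measurable_const.indicator (hm v)),
        lintegral_indicator_const (hm v), one_mul]
      gcongr
      exact mu_lev v
    · intro v
      exact ((measurable_const.indicator (hm v)).const_mul _).aemeasurable
  have h5 : ∑' v : ℕ, (4 : ℝ≥0∞) ^ v * (8 ^ v)⁻¹ = 2 := by
    have : ∀ v : ℕ, (4 : ℝ≥0∞) ^ v * (8 ^ v)⁻¹ = (1 / 2) ^ v := by
      intro v
      rw [ENNReal.inv_pow, ← mul_pow]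
      congr 1
      rw [show (8 : ℝ≥0∞) = 4 * 2 by norm_num, ENNReal.mul_inv (by norm_num) (by norm_num),
        ← mul_assoc, ENNReal.mul_inv_cancel (by norm_num) (by norm_num), one_mul, one_div]
    simp only [this]
    rw [ENNReal.tsum_geometric]
    norm_num
  rw [h5] at h4
  exact ne_top_of_le_ne_top (by norm_num) h4

/-- an exact hit -/
lemma exact_hit (U : ℤ_[2]) (w : ℕ) : ∃ j : ℕ, j < 2 * 8 ^ w ∧ lev (U + j) = w := by
  set V : ℤ_[2] := ((2 : ℕ) : ℤ_[2]) ^ (3 * w) - U with hV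
  refine ⟨V.appr (3 * w + 1), ?_, ?_⟩
  · have := PadicInt.appr_lt V (3 * w + 1)
    rw [pow_succ, pow_mul] at this
    norm_num at this
    linarith
  · have h1 := PadicInt.appr_spec (3 * w + 1) V
    rw [Ideal.mem_span_singleton] at h1
    obtain ⟨t, ht⟩ := h1
    have h2 : U + (V.appr (3 * w + 1) : ℤ_[2]) =
        ((2 : ℕ) : ℤ_[2]) ^ (3 * w) * (1 - ((2 : ℕ) : ℤ_[2]) * t) := by
      have : (V.appr (3 * w + 1) : ℤ_[2]) = V - ((2 : ℕ) : ℤ_[2]) ^ (3 * w + 1) * t := by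
        rw [← ht]; ring
      rw [this, hV, pow_succ]
      ring
    have h3 : ‖(1 - ((2 : ℕ) : ℤ_[2]) * t)‖ = 1 := by
      have h4 : ‖((2 : ℕ) : ℤ_[2]) * t‖ < 1 := by
        rw [PadicInt.norm_lt_one_iff_dvd]
        exact Dvd.intro _ rfl
      have h5 : ‖(1 : ℤ_[2]) + (-(((2 : ℕ) : ℤ_[2]) * t))‖ =
          max ‖(1 : ℤ_[2])‖ ‖-(((2 : ℕ) : ℤ_[2]) * t)‖ := by
        apply PadicInt.norm_add_eq_max_of_ne
        rw [norm_neg, norm_one]
        exact h4.ne'
      rw [← sub_eq_add_neg] at h5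
      rw [h5, norm_neg, norm_one]
      exact max_eq_left h4.le
    have h6 : (1 - ((2 : ℕ) : ℤ_[2]) * t) ≠ 0 := by
      intro h7
      rw [h7, norm_zero] at h3
      exact absurd h3 (by norm_num)
    have h7 : (1 - ((2 : ℕ) : ℤ_[2]) * t).valuation = 0 := by
      have h8 := PadicInt.norm_eq_zpow_neg_valuation h6
      rw [h3] at h8
      by_contra h9
      have h10 : ((2 : ℕ) : ℝ) ^ (-((1 - ((2 : ℕ) : ℤ_[2]) * t).valuation : ℤ)) < 1 := by
        apply zpow_lt_one_of_neg₀ (by norm_num)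
        omega
      linarith
    unfold lev
    rw [h2, PadicInt.valuation_p_pow_mul _ _ h6, h7]
    omega

end Pool.Agent.V11323.PP
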