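import Pool.Agent.V11323.PPBase

/-!
# The tower over the 2-adic odometer
-/

set_option autoImplicit false

open MeasureTheory ProbabilityTheory Filter Topology
open scoped ENNReal NNReal

namespace Pool.Agent.V11323.PP

noncomputable instance : MeasurableSpace ℤ_[2] := borel _
instance : BorelSpace ℤ_[2] := ⟨rfl⟩

/-- Haar measure on the 2-adic integers -/
noncomputable def mu : Measure ℤ_[2] := Measure.addHaarMeasure ⊤

instance : IsProbabilityMeasure mu :=
  ⟨Measure.addHaarMeasure_self (K₀ := (⊤ : TopologicalSpace.PositiveCompacts ℤ_[2]))⟩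

instance : Measure.IsAddHaarMeasure mu := by unfold mu; infer_instance

lemma erg : Ergodic (fun U : ℤ_[2] => 1 + U) mu := by
  refine ergodic_add_left_of_denseRange_nsmul ?_ mu
  have := PadicInt.denseRange_natCast (p := 2)
  refine this.mono ?_
  rintro _ ⟨n, rfl⟩
  exact ⟨n, by simp⟩

section Tower

/-- positions of the points -/
noncomputable def ps (G : ℤ_[2] → ℕ) (U : ℤ_[2]) : ℤ → ℤ
  | Int.ofNat n => ∑ k ∈ Finset.range n, (G (U + k) : ℤ)
  | Int.negSucc n => - ∑ k ∈ Finset.range (n + 1), (G (U - (k + 1)) : ℤ)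

variable (G : ℤ_[2] → ℕ)

lemma ps_zero (U : ℤ_[2]) : ps G U 0 = 0 := by
  show ∑ k ∈ Finset.range 0, (G (U + k) : ℤ) = 0
  simp

lemma ps_succ (U : ℤ_[2]) (i : ℤ) : ps G U (i + 1) = ps G U i + G (U + i) := by
  rcases i with n | n
  · show ∑ k ∈ Finset.range (n + 1), (G (U + k) : ℤ) =
      ∑ k ∈ Finset.range n, (G (U + k) : ℤ) + _
    rw [Finset.sum_range_succ]
    simp
  · cases n with
    | zero =>
      show ps G U 0 = - ∑ k ∈ Finset.range (0 + 1), (G (U - (k + 1)) : ℤ) + _
      rw [ps_zero]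
      simp only [zero_add, Finset.sum_range_one, Nat.cast_zero, Int.negSucc_eq, Int.cast_neg,
        Int.cast_one]
      rw [← sub_eq_add_neg]
      ring
    | succ n =>
      have h1 : (Int.negSucc (n + 1) + 1 : ℤ) = Int.negSucc n := by
        rw [Int.negSucc_eq, Int.negSucc_eq]; push_cast; ring
      rw [h1]
      show - ∑ k ∈ Finset.range (n + 1), (G (U - (k + 1)) : ℤ) =
        - ∑ k ∈ Finset.range (n + 1 + 1), (G (U - (k + 1)) : ℤ) + _
      rw [Finset.sum_range_succ (n := n + 1)]
      have h2 : (U + ((Int.negSucc (n + 1) : ℤ) : ℤ_[2])) = U - (((n + 1 : ℕ) : ℤ_[2]) + 1) := by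
        rw [Int.negSucc_eq]; push_cast; ring
      rw [h2]
      ring

lemma ps_mono (hG : ∀ U, 1 ≤ G U) (U : ℤ_[2]) : StrictMono (ps G U) := by
  refine strictMono_int_of_lt_succ fun i => ?_
  rw [ps_succ]
  have := hG (U + i)
  omega

lemma ps_shift (U : ℤ_[2]) (i : ℤ) : ps G (1 + U) i = ps G U (i + 1) - G U := by
  induction i using Int.induction_on with
  | zero =>
    rw [ps_zero, zero_add]
    have := ps_succ G U 0
    rw [zero_add, ps_zero, Int.cast_zero, add_zero] at this
    rw [this]; ring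
  | succ i ih =>
    rw [ps_succ, ps_succ, ih]
    have : (1 + U + ((i : ℤ) : ℤ_[2])) = U + (((i : ℤ) + 1 : ℤ) : ℤ_[2]) := by push_cast; ring
    rw [this]; ring
  | pred i ih =>
    have h1 := ps_succ G (1 + U) (-(i : ℤ) - 1)
    have h2 := ps_succ G U (-(i : ℤ) - 1 + 1)
    have e1 : (-(i : ℤ) - 1 + 1) = -(i : ℤ) := by ring
    rw [e1] at h1 h2
    have : (1 + U + ((-(i : ℤ) - 1 : ℤ) : ℤ_[2])) = U + ((-(i : ℤ) : ℤ) : ℤ_[2]) := by
      push_cast; ring
    rw [this] at h1
    rw [e1]
    linarith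

lemma meas_ps (hG : Measurable G) (i : ℤ) : Measurable (fun U => ps G U i) := by
  rcases i with n | n
  · show Measurable (fun U => ∑ k ∈ Finset.range n, (G (U + k) : ℤ))
    refine Finset.measurable_sum _ fun k _ => ?_
    exact (Measurable.of_discrete (f := fun n : ℕ => (n : ℤ))).comp
      (hG.comp (measurable_add_const _))
  · show Measurable (fun U => - ∑ k ∈ Finset.range (n + 1), (G (U - (k + 1)) : ℤ))
    refine (Finset.measurable_sum _ fun k _ => ?_).neg
    exact (Measurable.of_discrete (f := fun n : ℕ => (n : ℤ))).comp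
      (hG.comp (measurable_sub_const _))

open Classical in
/-- the environment -/
noncomputable def env (h : ℕ) (U : ℤ_[2]) : Env :=
  fun p => decide (∃ i, ps G U i = p.1 + p.2 + h)

lemma env_iff (h : ℕ) (U : ℤ_[2]) (p : ℤ × ℤ) :
    env G h U p = true ↔ ∃ i, ps G U i = p.1 + p.2 + h := by
  classical
  unfold env
  rw [decide_eq_true_iff]

lemma meas_env (hG : Measurable G) (h : ℕ) : Measurable (env G h) := by
  refine measurable_pi_lambda _ fun p => ?_
  refine measurable_to_bool ?_
  have h1 : (fun U => env G h U p) ⁻¹' {true} =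
      ⋃ i, {U | ps G U i = p.1 + p.2 + h} := by
    ext U
    simp only [Set.mem_preimage, Set.mem_singleton_iff, Set.mem_iUnion, Set.mem_ofPred_eq]
    exact env_iff G h U p
  rw [h1]
  exact MeasurableSet.iUnion fun i => meas_ps G hG i (measurableSet_singleton _)

lemma env_shift1 (h : ℕ) (U : ℤ_[2]) : shift (1, 0) (env G h U) = env G (h + 1) U := by
  funext p
  rw [Bool.eq_iff_iff]
  unfold shift
  rw [env_iff, env_iff]
  simp only [Prod.fst_add, Prod.snd_add]
  push_cast
  refine exists_congr fun i => ?_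
  rw [show (1 + p.1 + (0 + p.2) + (h : ℤ)) = p.1 + p.2 + (h + 1) by ring]

lemma env_shift2 (h : ℕ) (U : ℤ_[2]) : shift (0, 1) (env G h U) = env G (h + 1) U := by
  funext p
  rw [Bool.eq_iff_iff]
  unfold shift
  rw [env_iff, env_iff]
  simp only [Prod.fst_add, Prod.snd_add]
  push_cast
  refine exists_congr fun i => ?_
  rw [show (0 + p.1 + (1 + p.2) + (h : ℤ)) = p.1 + p.2 + (h + 1) by ring]

lemma env_base (U : ℤ_[2]) : env G (G U) U = env G 0 (1 + U) := by
  funext p
  rw [Bool.eq_iff_iff, env_iff, env_iff]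
  constructor
  · rintro ⟨i, hi⟩
    refine ⟨i - 1, ?_⟩
    rw [ps_shift, sub_add_cancel, hi]
    push_cast
    ring
  · rintro ⟨i, hi⟩
    refine ⟨i + 1, ?_⟩
    rw [ps_shift] at hi
    push_cast at hi
    linarith

/-- normalization -/
noncomputable def Zc : ℝ≥0∞ := ∫⁻ U, (G U : ℝ≥0∞) ∂mu

lemma Zc_eq (hG : Measurable G) : Zc G = ∑' h : ℕ, mu {U | h < G U} := by
  unfold Zc
  have h1 : ∀ U, (G U : ℝ≥0∞) = ∑' h : ℕ, Set.indicator {U | h < G U} (fun _ => 1) U := by
    intro U
    rw [tsum_eq_sum (s := Finset.range (G U))]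
    · rw [Finset.sum_congr rfl (g := fun _ => (1 : ℝ≥0∞))]
      · simp
      · intro h hh
        rw [Set.indicator_of_mem]
        exact Finset.mem_range.mp hh
    · intro h hh
      rw [Set.indicator_of_notMem]
      simpa using hh
  rw [lintegral_congr h1, lintegral_tsum]
  · refine tsum_congr fun h => ?_
    rw [lintegral_indicator_const, one_mul]
    exact hG (MeasurableSet.of_discrete (s := {n : ℕ | h < n}))
  · intro h
    exact (measurable_const.indicator
      (hG (MeasurableSet.of_discrete (s := {n : ℕ | h < n})))).aemeasurable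

/-- the law of the environment -/
noncomputable def QQ : Measure Env :=
  (Zc G)⁻¹ • Measure.sum (fun h : ℕ => (mu.restrict {U | h < G U}).map (env G h))

lemma QQ_apply (hG : Measurable G) (B : Set Env) (hB : MeasurableSet B) :
    QQ G B = (Zc G)⁻¹ * ∑' h : ℕ, mu {U | h < G U ∧ env G h U ∈ B} := by
  unfold QQ
  rw [Measure.smul_apply, Measure.sum_apply _ hB, smul_eq_mul]
  congr 1
  refine tsum_congr fun h => ?_
  rw [Measure.map_apply (meas_env G hG h) hB, Measure.restrict_apply (meas_env G hG h hB)]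
  congr 1
  ext U
  simp only [Set.mem_inter_iff, Set.mem_preimage, Set.mem_ofPred_eq]
  tauto

variable {G}

lemma Zc_pos (hpos : ∀ U, 1 ≤ G U) : Zc G ≠ 0 := by
  unfold Zc
  have h1 : (1 : ℝ≥0∞) ≤ ∫⁻ U, (G U : ℝ≥0∞) ∂mu := by
    calc (1 : ℝ≥0∞) = ∫⁻ _, 1 ∂mu := by simp
      _ ≤ _ := lintegral_mono fun U => by
        show (1 : ℝ≥0∞) ≤ (G U : ℝ≥0∞)
        exact_mod_cast hpos U
  intro h2
  rw [h2] at h1
  simp at h1

lemma QQ_prob (hG : Measurable G) (hpos : ∀ U, 1 ≤ G U) (hfin : Zc G ≠ ⊤) :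
    IsProbabilityMeasure (QQ G) := by
  constructor
  rw [QQ_apply G hG _ MeasurableSet.univ]
  simp only [Set.mem_univ, and_true]
  rw [← Zc_eq G hG, ENNReal.inv_mul_cancel (Zc_pos hpos) hfin]

lemma meas_lt (hG : Measurable G) (h : ℕ) : MeasurableSet {U | h < G U} :=
  hG (MeasurableSet.of_discrete (s := {n : ℕ | h < n}))

lemma meas_eq (hG : Measurable G) (h : ℕ) : MeasurableSet {U | G U = h} :=
  hG (MeasurableSet.of_discrete (s := {n : ℕ | n = h}))

/-- stationarity -/
lemma QQ_shift (hG : Measurable G) (hpos : ∀ U, 1 ≤ G U) (S : Env → Env)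
    (hS : Measurable S) (hSe : ∀ h U, S (env G h U) = env G (h + 1) U) :
    MeasurePreserving S (QQ G) (QQ G) := by
  refine ⟨hS, ?_⟩
  ext B hB
  rw [Measure.map_apply hS hB, QQ_apply G hG _ hB, QQ_apply G hG _ (hS hB)]
  congr 1
  simp only [Set.mem_preimage, hSe]
  have h1 : ∀ h : ℕ, mu {U | h < G U ∧ env G (h + 1) U ∈ B} =
      mu {U | h + 1 < G U ∧ env G (h + 1) U ∈ B} +
        mu {U | G U = h + 1 ∧ env G 0 (1 + U) ∈ B} := by
    intro h
    rw [← measure_union]
    · congr 1
      ext U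
      simp only [Set.mem_ofPred_eq, Set.mem_union]
      constructor
      · rintro ⟨h1, h2⟩
        by_cases h3 : G U = h + 1
        · right
          refine ⟨h3, ?_⟩
          rw [← env_base, h3]
          exact h2
        · left
          exact ⟨by omega, h2⟩
      · rintro (⟨h1, h2⟩ | ⟨h1, h2⟩)
        · exact ⟨by omega, h2⟩
        · refine ⟨by omega, ?_⟩
          rw [← env_base, h1] at h2
          exact h2
    · rw [Set.disjoint_left]
      rintro U ⟨h2, _⟩ ⟨h3, _⟩
      omega
    · have : {U | G U = h + 1 ∧ env G 0 (1 + U) ∈ B} =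
          {U | G U = h + 1} ∩ {U | env G 0 (1 + U) ∈ B} := rfl
      rw [this]
      exact (meas_eq hG _).inter (((meas_env G hG 0).comp (measurable_const_add 1)) hB)
  simp only [h1]
  rw [ENNReal.tsum_add]
  have h2 : ∑' h : ℕ, mu {U | G U = h + 1 ∧ env G 0 (1 + U) ∈ B} =
      mu {U | 0 < G U ∧ env G 0 U ∈ B} := by
    have e1 : mu {U | 0 < G U ∧ env G 0 U ∈ B} = mu {U | env G 0 (1 + U) ∈ B} := by
      have e2 : {U | 0 < G U ∧ env G 0 U ∈ B} = {U | env G 0 U ∈ B} := by
        ext U
        simp only [Set.mem_ofPred_eq, and_iff_right_iff_imp]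
        intro _
        exact hpos U
      rw [e2]
      have e3 : {U | env G 0 (1 + U) ∈ B} = (fun U => 1 + U) ⁻¹' {U | env G 0 U ∈ B} := rfl
      rw [e3, erg.measure_preimage]
      exact ((meas_env G hG 0) hB).nullMeasurableSet
    rw [e1, ← measure_iUnion]
    · congr 1
      ext U
      simp only [Set.mem_iUnion, Set.mem_ofPred_eq]
      constructor
      · rintro ⟨h, _, h2⟩; exact h2
      · intro h2
        exact ⟨G U - 1, by have := hpos U; omega, h2⟩
    · intro i j hij
      rw [Function.onFun, Set.disjoint_left]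
      rintro U ⟨h2, _⟩ ⟨h3, _⟩
      omega
    · intro h
      have : {U | G U = h + 1 ∧ env G 0 (1 + U) ∈ B} =
          {U | G U = h + 1} ∩ {U | env G 0 (1 + U) ∈ B} := rfl
      rw [this]
      exact (meas_eq hG _).inter (((meas_env G hG 0).comp (measurable_const_add 1)) hB)
  rw [h2, add_comm, tsum_eq_zero_add' (f := fun h : ℕ => mu {U | h < G U ∧ env G h U ∈ B})
    ENNReal.summable]

/-- ergodicity -/
lemma QQ_erg (hG : Measurable G) (hpos : ∀ U, 1 ≤ G U) (hfin : Zc G ≠ ⊤) (S : Env → Env)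
    (hS : Measurable S) (hSe : ∀ h U, S (env G h U) = env G (h + 1) U) :
    Ergodic S (QQ G) := by
  refine ⟨QQ_shift hG hpos S hS hSe, ⟨fun {B} hB hinv => ?_⟩⟩
  have h1 : ∀ h U, env G h U ∈ B ↔ env G 0 U ∈ B := by
    intro h U
    induction h with
    | zero => rfl
    | succ h ih =>
      rw [← ih, ← hSe]
      constructor
      · intro h2
        rw [← hinv]
        exact h2
      · intro h2
        rw [← hinv] at h2
        exact h2
  set B0 : Set ℤ_[2] := {U | env G 0 U ∈ B} with hB0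
  have hB0m : MeasurableSet B0 := (meas_env G hG 0) hB
  have h2 : (fun U => 1 + U) ⁻¹' B0 = B0 := by
    ext U
    show env G 0 (1 + U) ∈ B ↔ env G 0 U ∈ B
    rw [← env_base, h1]
  have h3 := erg.toPreErgodic.prob_eq_zero_or_one hB0m h2
  have h4 : QQ G B = (Zc G)⁻¹ * ∑' h : ℕ, mu ({U | h < G U} ∩ B0) := by
    rw [QQ_apply G hG B hB]
    congr 1
    refine tsum_congr fun h => ?_
    congr 1
    ext U
    simp only [Set.mem_ofPred_eq, Set.mem_inter_iff, h1, hB0]
  have hprob := QQ_prob hG hpos hfin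
  rw [Filter.eventuallyConst_set']
  rcases h3 with h3 | h3
  · left
    rw [ae_eq_empty, h4]
    have : ∀ h : ℕ, mu ({U | h < G U} ∩ B0) = 0 := fun h =>
      measure_mono_null Set.inter_subset_right h3
    simp [this]
  · right
    rw [ae_eq_univ]
    have h5 : QQ G B = 1 := by
      rw [h4]
      have : ∀ h : ℕ, mu ({U | h < G U} ∩ B0) = mu {U | h < G U} := by
        intro h
        have h6 : mu B0ᶜ = 0 := by
          rw [prob_compl_eq_zero_iff hB0m]; exact h3
        have h7 := measure_inter_add_sdiff (μ := mu) {U | h < G U} hB0m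
        have h8 : mu ({U | h < G U} \ B0) = 0 := measure_mono_null (fun U hU => hU.2) h6
        rw [h8, add_zero] at h7
        exact h7
      simp only [this]
      rw [← Zc_eq G hG, ENNReal.inv_mul_cancel (Zc_pos hpos) hfin]
    rw [prob_compl_eq_zero_iff hB]
    exact h5

end Tower

end Pool.Agent.V11323.PP
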