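import Pool.Agent.V11323.PPTower

/-!
# The walk in the tower environment
-/

set_option autoImplicit false

open MeasureTheory ProbabilityTheory Filter Topology
open scoped ENNReal NNReal

namespace Pool.Agent.V11323.PP

lemma meas_shift (v : ℤ × ℤ) : Measurable (shift v) :=
  measurable_pi_lambda _ fun y => measurable_pi_apply (v + y)

section

variable {G : ℤ_[2] → ℕ}

lemma QQ_dpp (hG : Measurable G) (hpos : ∀ U, 1 ≤ G U) (hfin : Zc G ≠ ⊤) :
    IsDPP (QQ G) where
  prob := QQ_prob hG hpos hfin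
  erg1 := QQ_erg hG hpos hfin _ (meas_shift _) (env_shift1 G)
  erg2 := QQ_erg hG hpos hfin _ (meas_shift _) (env_shift2 G)
  nonempty := by
    rw [QQ_apply G hG]
    · have : ∀ h : ℕ, {U | h < G U ∧ env G h U ∈ {ω : Env | ∀ x, ω x = false}} = ∅ := by
        intro h
        rw [Set.eq_empty_iff_forall_notMem]
        rintro U ⟨_, h2⟩
        have h3 := h2 (-(h : ℤ), 0)
        have h4 : env G h U (-(h : ℤ), 0) = true := by
          rw [env_iff]
          exact ⟨0, by rw [ps_zero]; simp⟩
        rw [h4] at h3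
        exact absurd h3 (by simp)
      simp only [this, measure_empty, tsum_zero, mul_zero]
      exact zero_lt_one
    · have : {ω : Env | ∀ x, ω x = false} = ⋂ x, {ω | ω x = false} := by
        ext ω; simp
      rw [this]
      exact MeasurableSet.iInter fun x => (measurable_pi_apply x) (measurableSet_singleton _)

lemma meas_origin : MeasurableSet {ω : Env | ω 0 = true} :=
  (measurable_pi_apply (0 : ℤ × ℤ)) (measurableSet_singleton _)

lemma palm_eq (hG : Measurable G) (hpos : ∀ U, 1 ≤ G U) (hfin : Zc G ≠ ⊤) :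
    palm (QQ G) = mu.map (env G 0) := by
  have key : ∀ B : Set Env, MeasurableSet B →
      QQ G ({ω | ω 0 = true} ∩ B) = (Zc G)⁻¹ * mu (env G 0 ⁻¹' B) := by
    intro B hB
    rw [QQ_apply G hG _ (meas_origin.inter hB)]
    congr 1
    rw [tsum_eq_single 0]
    · congr 1
      ext U
      simp only [Set.mem_ofPred_eq, Set.mem_inter_iff, Set.mem_preimage]
      constructor
      · rintro ⟨_, _, h3⟩; exact h3
      · intro h3
        refine ⟨hpos U, ?_, h3⟩
        rw [env_iff]
        exact ⟨0, by rw [ps_zero]; simp⟩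
    · intro h hh
      convert measure_empty (μ := mu)
      rw [Set.eq_empty_iff_forall_notMem]
      rintro U ⟨h1, h2, _⟩
      have h2' : env G h U 0 = true := h2
      rw [env_iff] at h2'
      obtain ⟨i, hi⟩ := h2'
      simp only [Prod.fst_zero, Prod.snd_zero, zero_add] at hi
      have h3 : (0 : ℤ) < i := by
        rw [← (ps_mono G hpos U).lt_iff_lt, ps_zero, hi]
        omega
      have h4 : i < 1 := by
        rw [← (ps_mono G hpos U).lt_iff_lt, hi]
        have := ps_succ G U 0
        rw [zero_add, ps_zero, Int.cast_zero, add_zero] at this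
        rw [this]
        omega
      omega
  have h0 : QQ G {ω | ω 0 = true} = (Zc G)⁻¹ := by
    have := key Set.univ MeasurableSet.univ
    rw [Set.inter_univ, Set.preimage_univ, measure_univ, mul_one] at this
    exact this
  ext B hB
  unfold palm
  rw [cond_apply meas_origin, key B hB, h0, inv_inv, ← mul_assoc,
    ENNReal.mul_inv_cancel (Zc_pos hpos) hfin, one_mul, Measure.map_apply (meas_env G hG 0) hB]

/-! ### The gaps -/

variable (hpos : ∀ U, 1 ≤ G U) (U : ℤ_[2])

include hpos

lemma fgap_pos (e v : ℤ × ℤ) (i : ℤ) (he : e.1 + e.2 = 1) (hv : v.1 + v.2 = ps G U i) :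
    fgap e (shift v (env G 0 U)) = G (U + i) := by
  have hsum : ∀ k : ℕ, shift v (env G 0 U) (k • e) = true ↔ ∃ j, ps G U j = ps G U i + k := by
    intro k
    unfold shift
    rw [env_iff]
    refine exists_congr fun j => ?_
    simp only [Prod.fst_add, Prod.snd_add, Prod.smul_fst, Prod.smul_snd,
      Nat.cast_zero, add_zero]
    simp only [nsmul_eq_mul]
    have : v.1 + (k : ℤ) * e.1 + (v.2 + (k : ℤ) * e.2) = (v.1 + v.2) + k * (e.1 + e.2) := by ring
    rw [this, hv, he, mul_one]
  unfold fgap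
  refine IsLeast.csInf_eq ⟨?_, ?_⟩
  · refine ⟨hpos _, ?_⟩
    rw [hsum]
    exact ⟨i + 1, ps_succ G U i⟩
  · rintro k ⟨hk, h2⟩
    rw [hsum] at h2
    obtain ⟨j, hj⟩ := h2
    have h3 : i < j := by
      rw [← (ps_mono G hpos U).lt_iff_lt, hj]
      omega
    have h4 : ps G U (i + 1) ≤ ps G U j := (ps_mono G hpos U).monotone (by omega)
    rw [ps_succ, hj] at h4
    omega

lemma fgap_neg (e v : ℤ × ℤ) (i : ℤ) (he : e.1 + e.2 = -1) (hv : v.1 + v.2 = ps G U i) :
    fgap e (shift v (env G 0 U)) = G (U + (i - 1 : ℤ)) := by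
  have hsum : ∀ k : ℕ, shift v (env G 0 U) (k • e) = true ↔ ∃ j, ps G U j = ps G U i - k := by
    intro k
    unfold shift
    rw [env_iff]
    refine exists_congr fun j => ?_
    simp only [Prod.fst_add, Prod.snd_add, Prod.smul_fst, Prod.smul_snd,
      Nat.cast_zero, add_zero]
    simp only [nsmul_eq_mul]
    have : v.1 + (k : ℤ) * e.1 + (v.2 + (k : ℤ) * e.2) = (v.1 + v.2) + k * (e.1 + e.2) := by ring
    rw [this, hv, he, mul_neg_one, ← sub_eq_add_neg]
  have h1 := ps_succ G U (i - 1)
  rw [sub_add_cancel] at h1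
  unfold fgap
  refine IsLeast.csInf_eq ⟨?_, ?_⟩
  · refine ⟨hpos _, ?_⟩
    rw [hsum]
    exact ⟨i - 1, by linarith⟩
  · rintro k ⟨hk, h2⟩
    rw [hsum] at h2
    obtain ⟨j, hj⟩ := h2
    have h3 : j < i := by
      rw [← (ps_mono G hpos U).lt_iff_lt, hj]
      omega
    have h4 : ps G U j ≤ ps G U (i - 1) := (ps_mono G hpos U).monotone (by omega)
    rw [hj] at h4
    omega

end

/-! ### Coordinates -/

/-- one step in the coordinates (index of the diagonal, abscissa) -/
def stp (g : ℤ → ℕ) (z : ℤ × ℤ) : Fin 4 → ℤ × ℤ :=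
  ![(z.1 + 1, z.2 + g z.1), (z.1 - 1, z.2 - g (z.1 - 1)), (z.1 + 1, z.2), (z.1 - 1, z.2)]

/-- the walk in coordinates -/
def crd (g : ℤ → ℕ) (z : ℤ × ℤ) (ξ : ℕ → Fin 4) : ℕ → ℤ × ℤ
  | 0 => z
  | n + 1 => stp g (crd g z ξ n) (ξ n)

lemma crd_cons (g : ℤ → ℕ) (z : ℤ × ℤ) (e : Fin 4) (ξ : ℕ → Fin 4) (n : ℕ) :
    crd g z (cons e ξ) (n + 1) = crd g (stp g z e) ξ n := by
  induction n with
  | zero => rfl
  | succ n ih =>
    rw [crd, ih, crd]
    rfl

lemma meas_crd (g : ℤ → ℕ) (z : ℤ × ℤ) (n : ℕ) : Measurable (fun ξ => crd g z ξ n) := by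
  induction n with
  | zero => exact measurable_const
  | succ n ih =>
    have h1 : Measurable (fun p : (ℤ × ℤ) × Fin 4 => stp g p.1 p.2) := Measurable.of_discrete
    exact h1.comp (ih.prodMk (measurable_pi_apply n))

lemma pos_eq {G : ℤ_[2] → ℕ} (hpos : ∀ U, 1 ≤ G U) (U : ℤ_[2]) (ξ : ℕ → Fin 4) (n : ℕ) :
    pos (env G 0 U) ξ n =
      ((crd (fun i => G (U + i)) 0 ξ n).2,
        ps G U (crd (fun i => G (U + i)) 0 ξ n).1 - (crd (fun i => G (U + i)) 0 ξ n).2) := by
  induction n with
  | zero =>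
    simp only [pos, crd, Prod.fst_zero, Prod.snd_zero, ps_zero, sub_zero]
    rfl
  | succ n ih =>
    rw [pos, ih, crd]
    set z := crd (fun i => G (U + i)) 0 ξ n with hz
    set v : ℤ × ℤ := (z.2, ps G U z.1 - z.2) with hv
    have hv' : v.1 + v.2 = ps G U z.1 := by rw [hv]; ring
    have h1 := ps_succ G U z.1
    have h2 := ps_succ G U (z.1 - 1)
    rw [sub_add_cancel] at h2
    generalize ξ n = e
    fin_cases e
    · have h3 := fgap_pos hpos U (dir 0) v z.1 (by simp [dir]) hv'
      show v + fgap (dir 0) (shift v (env G 0 U)) • dir 0 = _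
      rw [h3]
      simp only [dir, stp, hv]
      ext
      · simp
      · simp [h1]
    · have h3 := fgap_neg hpos U (dir 1) v z.1 (by simp [dir]) hv'
      show v + fgap (dir 1) (shift v (env G 0 U)) • dir 1 = _
      rw [h3]
      simp only [dir, stp, hv]
      ext
      · simp
        ring
      · simp
        push_cast at h2
        linarith
    · have h3 := fgap_pos hpos U (dir 2) v z.1 (by simp [dir]) hv'
      show v + fgap (dir 2) (shift v (env G 0 U)) • dir 2 = _
      rw [h3]
      simp only [dir, stp, hv]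
      ext
      · simp
      · simp
        linarith
    · have h3 := fgap_neg hpos U (dir 3) v z.1 (by simp [dir]) hv'
      show v + fgap (dir 3) (shift v (env G 0 U)) • dir 3 = _
      rw [h3]
      simp only [dir, stp, hv]
      ext
      · simp
      · simp
        push_cast at h2
        linarith

lemma pos_zero_iff {G : ℤ_[2] → ℕ} (hpos : ∀ U, 1 ≤ G U) (U : ℤ_[2]) (ξ : ℕ → Fin 4) (n : ℕ) :
    pos (env G 0 U) ξ n = 0 ↔ crd (fun i => G (U + i)) 0 ξ n = 0 := by
  rw [pos_eq hpos]
  set z := crd (fun i => G (U + i)) 0 ξ n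
  constructor
  · intro h
    rw [Prod.ext_iff] at h
    simp only [Prod.fst_zero, Prod.snd_zero] at h
    obtain ⟨h1, h2⟩ := h
    rw [h1, sub_zero] at h2
    have h3 : z.1 = 0 := by
      apply (ps_mono G hpos U).injective
      rw [h2, ps_zero]
    ext
    · exact h3
    · exact h1
  · intro h
    rw [h]
    simp [ps_zero]

/-! ### Measurability in the environment -/

lemma fgap_iff (e : ℤ × ℤ) (ω : Env) (m : ℕ) :
    fgap e ω = m ↔ (0 < m ∧ ω (m • e) = true ∧ ∀ k : ℕ, 0 < k → k < m → ω (k • e) = false) ∨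
      (m = 0 ∧ ∀ k : ℕ, 0 < k → ω (k • e) = false) := by
  unfold fgap
  constructor
  · rintro rfl
    by_cases hne : {k : ℕ | 0 < k ∧ ω (k • e) = true}.Nonempty
    · left
      have h1 := Nat.sInf_mem hne
      refine ⟨h1.1, h1.2, fun k hk hk2 => ?_⟩
      by_contra hc
      rw [Bool.not_eq_false] at hc
      have := Nat.sInf_le (show k ∈ {k : ℕ | 0 < k ∧ ω (k • e) = true} from ⟨hk, hc⟩)
      omega
    · right
      rw [Set.not_nonempty_iff_eq_empty] at hne
      refine ⟨by rw [hne]; exact Nat.sInf_empty, fun k hk => ?_⟩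
      by_contra hc
      rw [Bool.not_eq_false] at hc
      have : k ∈ {k : ℕ | 0 < k ∧ ω (k • e) = true} := ⟨hk, hc⟩
      rw [hne] at this
      exact this
  · rintro (⟨h1, h2, h3⟩ | ⟨rfl, h2⟩)
    · refine IsLeast.csInf_eq ⟨⟨h1, h2⟩, ?_⟩
      rintro k ⟨hk, hk2⟩
      by_contra hc
      rw [not_le] at hc
      rw [h3 k hk hc] at hk2
      exact absurd hk2 (by simp)
    · have : {k : ℕ | 0 < k ∧ ω (k • e) = true} = ∅ := by
        rw [Set.eq_empty_iff_forall_notMem]
        rintro k ⟨hk, hk2⟩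
        rw [h2 k hk] at hk2
        exact absurd hk2 (by simp)
      rw [this]
      exact Nat.sInf_empty

lemma meas_fgap (e : ℤ × ℤ) : Measurable (fgap e) := by
  refine measurable_to_countable' fun m => ?_
  have h1 : ∀ (x : ℤ × ℤ) (b : Bool), MeasurableSet {ω : Env | ω x = b} := by
    intro x b
    have h0 : Measurable (fun ω : Env => ω x) := measurable_pi_apply x
    exact h0 (measurableSet_singleton b)
  have h2 : fgap e ⁻¹' {m} = {ω : Env | (0 < m ∧ ω (m • e) = true ∧
      ∀ k : ℕ, 0 < k → k < m → ω (k • e) = false) ∨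
      (m = 0 ∧ ∀ k : ℕ, 0 < k → ω (k • e) = false)} := by
    ext ω
    exact fgap_iff e ω m
  rw [h2]
  have h3 : ∀ k : ℕ, MeasurableSet {ω : Env | 0 < k → ω (k • e) = false} := by
    intro k
    by_cases hk : 0 < k
    · simp only [hk, true_imp_iff]
      exact h1 _ _
    · simp only [hk, false_imp_iff]
      exact MeasurableSet.univ
  have h4 : ∀ k : ℕ, MeasurableSet {ω : Env | 0 < k → k < m → ω (k • e) = false} := by
    intro k
    by_cases hk : 0 < k
    · by_cases hk2 : k < m
      · simp only [hk, hk2, true_imp_iff]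
        exact h1 _ _
      · simp only [hk2, false_imp_iff, imp_true_iff]
        exact MeasurableSet.univ
    · simp only [hk, false_imp_iff]
      exact MeasurableSet.univ
  have h5 : MeasurableSet {ω : Env | ∀ k : ℕ, 0 < k → ω (k • e) = false} := by
    have : {ω : Env | ∀ k : ℕ, 0 < k → ω (k • e) = false} =
        ⋂ k : ℕ, {ω : Env | 0 < k → ω (k • e) = false} := by ext ω; simp
    rw [this]
    exact MeasurableSet.iInter h3
  have h6 : MeasurableSet {ω : Env | ∀ k : ℕ, 0 < k → k < m → ω (k • e) = false} := by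
    have : {ω : Env | ∀ k : ℕ, 0 < k → k < m → ω (k • e) = false} =
        ⋂ k : ℕ, {ω : Env | 0 < k → k < m → ω (k • e) = false} := by ext ω; simp
    rw [this]
    exact MeasurableSet.iInter h4
  exact ((MeasurableSet.const _).inter ((h1 _ _).inter h6)).union
    ((MeasurableSet.const _).inter h5)

lemma meas_pos (n : ℕ) :
    Measurable (fun p : Env × (ℕ → Fin 4) => pos p.1 p.2 n) := by
  induction n with
  | zero => exact measurable_const
  | succ n ih =>
    have h1 : Measurable (fun q : ((ℤ × ℤ) × Fin 4) × Env =>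
        q.1.1 + fgap (dir q.1.2) (shift q.1.1 q.2) • dir q.1.2) := by
      refine measurable_from_prod_countable_right fun w => ?_
      have h2 : Measurable (fun m : ℕ => w.1 + m • dir w.2) := Measurable.of_discrete
      exact h2.comp ((meas_fgap (dir w.2)).comp (meas_shift w.1))
    have h3 : Measurable (fun p : Env × (ℕ → Fin 4) => ((pos p.1 p.2 n, p.2 n), p.1)) :=
      (ih.prodMk ((measurable_pi_apply n).comp measurable_snd)).prodMk measurable_fst
    exact h1.comp h3

/-- transfer of almost sure properties of the quenched walk -/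
lemma palm_ae {G : ℤ_[2] → ℕ} (hG : Measurable G) (hpos : ∀ U, 1 ≤ G U) (hfin : Zc G ≠ ⊤)
    (A : Set (Env × (ℕ → Fin 4))) (hA : MeasurableSet A)
    (h : ∀ᵐ U ∂mu, ∀ᵐ ξ ∂dirLaw, (env G 0 U, ξ) ∈ A) :
    ∀ᵐ ω ∂(palm (QQ G)), ∀ᵐ ξ ∂dirLaw, (ω, ξ) ∈ A := by
  rw [palm_eq hG hpos hfin, ae_map_iff (meas_env G hG 0).aemeasurable]
  · exact h
  · have h1 : Measurable (fun ω : Env => dirLaw (Prod.mk ω ⁻¹' Aᶜ)) :=
      measurable_measure_prodMk_left hA.compl
    exact h1 (measurableSet_singleton 0)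

end Pool.Agent.V11323.PP
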