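import Pool.Agent.V11323.ChainI

/-!
# Tipsy cop and robber: definitions and the one step formula
-/

set_option autoImplicit false

open MeasureTheory ProbabilityTheory Filter Topology
open scoped ENNReal NNReal

namespace Pool.Agent.V11323.Tipsy

open Pool.Agent.V11323.Chain

/-- A cop strategy: a sober cop move stays or goes to a neighbour. -/
def CopStrategy {V : Type} (G : SimpleGraph V) (cop : ℕ → V → V → V) : Prop :=
  ∀ s u v, cop s u v = u ∨ G.Adj u (cop s u v)

/-- A robber strategy: a sober robber move goes to a neighbour. -/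
def RobberStrategy {V : Type} (G : SimpleGraph V) (rob : ℕ → V → V → V) : Prop :=
  ∀ s u v, G.Adj v (rob s u v)

/-- Monotone cop strategies: sober moves never increase the distance to the robber. -/
def MonotoneStrategy {V : Type} (G : SimpleGraph V) (cop : ℕ → V → V → V) : Prop :=
  ∀ s u v, G.dist (cop s u v) v ≤ G.dist u v

/-- The type of a step: `0` (sober cop) with probability `c`, `1` (sober robber) with
probability `r`, `2` (tipsy cop) with probability `tc`, `3` (tipsy robber) with probability
`tr`. -/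
noncomputable def kind (c r tc tr : ℝ≥0) (h : c + r + tc + tr = 1) : PMF (Fin 4) :=
  PMF.ofFintype (fun i => ((![c, r, tc, tr] i : ℝ≥0) : ℝ≥0∞)) (by
    simp only [Fin.sum_univ_four, Matrix.cons_val_zero, Matrix.cons_val_one, Matrix.cons_val]
    rw [← ENNReal.coe_add, ← ENNReal.coe_add, ← ENNReal.coe_add, h, ENNReal.coe_one])

open Classical in
/-- A uniformly random neighbour of `u` (`u` itself if there is none). -/
noncomputable def tip {V : Type} (G : SimpleGraph V) [G.LocallyFinite] (u : V) : PMF V :=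
  if h : (G.neighborFinset u).Nonempty then PMF.uniformOfFinset (G.neighborFinset u) h
  else PMF.pure u

/-- One step of the game from the positions `p = (cop, robber)`. -/
noncomputable def step {V : Type} (G : SimpleGraph V) [G.LocallyFinite] (q : PMF (Fin 4))
    (cop rob : V → V → V) (p : V × V) : PMF (V × V) :=
  q.bind fun k =>
    if k = 0 then PMF.pure (cop p.1 p.2, p.2)
    else if k = 1 then PMF.pure (p.1, rob p.1 p.2)
    else if k = 2 then (tip G p.1).map (fun u => (u, p.2))
    else (tip G p.2).map (fun v => (p.1, v))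

/-- The cop strategy `cop` is winning from the positions `(u₀, v₀)`: against every robber
strategy, almost surely the cop and the robber are at the same vertex at some time. Here
`walk (u₀, v₀) ω s` is the pair of positions at time `s`; it moves by independent random maps
with the laws of the steps. -/
def Winning {V : Type} (G : SimpleGraph V) [G.LocallyFinite] (q : PMF (Fin 4)) (u₀ v₀ : V)
    (cop : ℕ → V → V → V) : Prop :=
  letI : MeasurableSpace V := ⊤
  ∀ rob : ℕ → V → V → V, RobberStrategy G rob →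
    ∀ᵐ ω ∂(driveI fun s => step G q (cop s) (rob s)),
      ∃ s, (walk (u₀, v₀) ω s).1 = (walk (u₀, v₀) ω s).2

section

variable {V : Type} (G : SimpleGraph V) [G.LocallyFinite]

/-- average over the neighbours -/
noncomputable def avg (f : V → ℝ) (x : V) : ℝ :=
  (∑ y ∈ G.neighborFinset x, f y) / (G.neighborFinset x).card

lemma tip_tsum (x : V) (hne : (G.neighborFinset x).Nonempty) (f : V → ℝ) (hf : ∀ y, 0 ≤ f y) :
    ∑' y, tip G x y * ENNReal.ofReal (f y) = ENNReal.ofReal (avg G f x) := by
  unfold tip avg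
  rw [dif_pos hne, tsum_eq_sum (s := G.neighborFinset x)]
  · have h1 : ∀ y ∈ G.neighborFinset x,
        PMF.uniformOfFinset (G.neighborFinset x) hne y * ENNReal.ofReal (f y) =
          ((G.neighborFinset x).card : ℝ≥0∞)⁻¹ * ENNReal.ofReal (f y) := by
      intro y hy
      rw [PMF.uniformOfFinset_apply, if_pos hy]
    rw [Finset.sum_congr rfl h1, ← Finset.mul_sum, ← ENNReal.ofReal_sum_of_nonneg
      (fun y _ => hf y), ENNReal.ofReal_div_of_pos (by exact_mod_cast hne.card_pos),
      ENNReal.ofReal_natCast, ENNReal.div_eq_inv_mul]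
  · intro y hy
    rw [PMF.uniformOfFinset_apply, if_neg hy, zero_mul]

lemma map_tsum {A B : Type} (p : PMF A) (g : A → B) (F : B → ℝ≥0∞) :
    ∑' b, (p.map g) b * F b = ∑' a, p a * F (g a) := by
  rw [← PMF.bind_pure_comp]
  simp only [PMF.bind_apply, Function.comp_apply, PMF.pure_apply, ← ENNReal.tsum_mul_right]
  rw [ENNReal.tsum_comm]
  refine tsum_congr fun a => ?_
  rw [tsum_eq_single (g a)]
  · rw [if_pos rfl, mul_one]
  · intro b hb
    rw [if_neg hb, mul_zero, zero_mul]

lemma pure_tsum {B : Type} (b : B) (F : B → ℝ≥0∞) :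
    ∑' y, (PMF.pure b) y * F y = F b := by
  rw [tsum_eq_single b]
  · rw [PMF.pure_apply, if_pos rfl, one_mul]
  · intro y hy
    rw [PMF.pure_apply, if_neg hy, zero_mul]

lemma bind_tsum {A B : Type} (p : PMF A) (g : A → PMF B) (F : B → ℝ≥0∞) :
    ∑' b, (p.bind g) b * F b = ∑' a, p a * ∑' b, g a b * F b := by
  simp only [PMF.bind_apply, ← ENNReal.tsum_mul_right, ← ENNReal.tsum_mul_left]
  rw [ENNReal.tsum_comm]
  refine tsum_congr fun a => tsum_congr fun b => ?_
  rw [mul_assoc]

lemma step_tsum (c r tc tr : ℝ≥0) (h : c + r + tc + tr = 1)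
    (hne : ∀ x, (G.neighborFinset x).Nonempty) (cop rob : V → V → V) (p : V × V)
    (f : V × V → ℝ) (hf : ∀ y, 0 ≤ f y) :
    ∑' y, step G (kind c r tc tr h) cop rob p y * ENNReal.ofReal (f y) =
      ENNReal.ofReal (c * f (cop p.1 p.2, p.2) + r * f (p.1, rob p.1 p.2) +
        tc * avg G (fun u => f (u, p.2)) p.1 + tr * avg G (fun v => f (p.1, v)) p.2) := by
  have ha : ∀ (g : V → ℝ) (x : V), (∀ y, 0 ≤ g y) → 0 ≤ avg G g x := by
    intro g x hg
    unfold avg
    exact div_nonneg (Finset.sum_nonneg fun y _ => hg y) (Nat.cast_nonneg _)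
  unfold step
  rw [bind_tsum, tsum_fintype, Fin.sum_univ_four]
  have k0 : kind c r tc tr h 0 = (c : ℝ≥0∞) := rfl
  have k1 : kind c r tc tr h 1 = (r : ℝ≥0∞) := rfl
  have k2 : kind c r tc tr h 2 = (tc : ℝ≥0∞) := rfl
  have k3 : kind c r tc tr h 3 = (tr : ℝ≥0∞) := rfl
  rw [k0, k1, k2, k3]
  rw [if_pos rfl, if_neg (by decide), if_pos rfl, if_neg (by decide), if_neg (by decide),
    if_pos rfl, if_neg (by decide), if_neg (by decide), if_neg (by decide)]
  rw [pure_tsum, pure_tsum, map_tsum, map_tsum, tip_tsum G p.1 (hne _) _ (fun y => hf _),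
    tip_tsum G p.2 (hne _) _ (fun y => hf _)]
  have e : ∀ (a : ℝ≥0) (x : ℝ), 0 ≤ x → (a : ℝ≥0∞) * ENNReal.ofReal x =
      ENNReal.ofReal (a * x) := by
    intro a x _
    rw [ENNReal.ofReal_mul (by positivity), ENNReal.ofReal_coe_nnreal]
  rw [e _ _ (hf _), e _ _ (hf _), e _ _ (ha _ _ fun y => hf _), e _ _ (ha _ _ fun y => hf _),
    ← ENNReal.ofReal_add, ← ENNReal.ofReal_add, ← ENNReal.ofReal_add]
  · have := hf (cop p.1 p.2, p.2)
    have := hf (p.1, rob p.1 p.2)
    have := ha (fun u => f (u, p.2)) p.1 (fun y => hf _)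
    positivity
  · have := ha (fun v => f (p.1, v)) p.2 (fun y => hf _)
    positivity
  · have := hf (cop p.1 p.2, p.2)
    have := hf (p.1, rob p.1 p.2)
    positivity
  · have := ha (fun u => f (u, p.2)) p.1 (fun y => hf _)
    positivity
  · have := hf (cop p.1 p.2, p.2)
    positivity
  · have := hf (p.1, rob p.1 p.2)
    positivity

lemma avg_le {f g : V → ℝ} (x : V) (h : ∀ y, G.Adj x y → f y ≤ g y) :
    avg G f x ≤ avg G g x := by
  unfold avg
  gcongr with y hy
  exact h y ((G.mem_neighborFinset x y).mp hy)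

lemma avg_const (hne : ∀ x, (G.neighborFinset x).Nonempty) (a : ℝ) (x : V) :
    avg G (fun _ => a) x = a := by
  unfold avg
  have : ((G.neighborFinset x).card : ℝ) ≠ 0 := by
    exact_mod_cast (hne x).card_pos.ne'
  rw [Finset.sum_const, nsmul_eq_mul]
  field_simp

lemma avg_lin (hne : ∀ x, (G.neighborFinset x).Nonempty) (a b : ℝ) (f : V → ℝ) (x : V) :
    avg G (fun y => a + b * f y) x = a + b * avg G f x := by
  unfold avg
  have : ((G.neighborFinset x).card : ℝ) ≠ 0 := by
    exact_mod_cast (hne x).card_pos.ne'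
  rw [Finset.sum_add_distrib, Finset.sum_const, nsmul_eq_mul, ← Finset.mul_sum]
  field_simp

end

end Pool.Agent.V11323.Tipsy
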